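import Pool.Agent.Lib.DT.D.SpecA

/-!
# Theorem DT, part D, module D1: `S_D1`
-/

set_option autoImplicit false

noncomputable section

namespace Pool.Agent.DT

/-- The kernel of reduction, primes not above `𝔭̄`. -/
theorem sD1 (h1 : S_KSub) (h2 : S_KRed) (h3 : S_KSep) (h4 : S_KNa) (h5 : S_KQp) : S_D1 := by
  intro k t _ b hb Q hQ hQ'
  obtain ⟨a1, -, a3, -⟩ := h1 k t b hb Q hQ hQ'
  obtain ⟨b1, b2⟩ := h4 k t b hb Q hQ hQ'
  exact ⟨a1, a3, b2, b1, h5 k t b hb Q hQ hQ', h2 k t b hb Q hQ hQ', h3 k t b hb Q hQ hQ'⟩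

end Pool.Agent.DT
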