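import Pool.Agent.Lib.DT.D.SpecA
import Pool.Agent.Lib.DI.Val
import Pool.Agent.Lib.DT.Base

/-!
# Theorem DT (`p = 3`), part D, module D2: the primes above `𝔭`
-/

set_option autoImplicit false

open scoped Pointwise nonZeroDivisors

noncomputable section

namespace Pool.Agent.DT

open Pool.Agent.MuZ Pool.Agent.FW NumberField IsDedekindDomain
open Pool.Agent.DI (io ofC io_inj exists_io io_ofC ofC_io VP MP UP TP ex)

private theorem D2_vn {P : Ideal ZZ} [P.IsPrime] (n : ℕ) [n.AtLeastTwo] :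
    VP P (OfNat.ofNat n : Om) := by
  have := DI.VP.nat (P := P) n
  rwa [← Nat.cast_ofNat (R := Om) (n := n)]

private theorem D2_ppne {k t : ℕ} : pp k t ≠ ⊥ := by
  intro h
  have h2 : (3 : OO k t) ∈ pp k t := Ideal.subset_span (by simp)
  rw [h] at h2
  have h3 : (3 : OO k t) = 0 := by simpa using h2
  have h4 := congrArg QuadraticAlgebra.re h3
  have h5 : ((3 : ℕ) : OO k t).re = (3 : ℕ) := re_nat 3
  rw [Nat.cast_ofNat] at h5
  rw [h5] at h4
  simp at h4

private theorem D2_five {P : Ideal ZZ} [P.IsPrime] (h3 : MP P 3) {X X' A r : Om} (hX : VP P X)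
    (hA : VP P A) (hr : UP P r)
    (hrel : X' * (3 * X + r) ^ 2 = X * (r ^ 2 * X ^ 2 + 3 * (A + 3) * X + 3 * r)) :
    VP P X' ∧ TP P 3 (X' - X ^ 3) := by
  have v3 : VP P (3 : Om) := h3.vp
  have v2 : VP P (2 : Om) := D2_vn 2
  have hU : UP P (3 * X + r) := by
    apply DI.UP.congr hr
    rw [add_sub_cancel_right]
    exact DI.MP.mul_right h3 hX
  have hX' : VP P X' := by
    have hne : 3 * X + r ≠ 0 := hU.ne_zero
    have e : X' = X * (r ^ 2 * X ^ 2 + 3 * (A + 3) * X + 3 * r) * ((3 * X + r)⁻¹) ^ 2 := by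
      rw [← hrel]
      field_simp
    rw [e]
    refine DI.VP.mul (hX.mul (DI.VP.add (DI.VP.add ?_ ?_) ?_)) (hU.inv.1.pow 2)
    · exact (hr.1.pow 2).mul (hX.pow 2)
    · exact (v3.mul (hA.add v3)).mul hX
    · exact v3.mul hr.1
  refine ⟨hX', (r⁻¹) ^ 2 * ((A + 3) * X ^ 2 + r * X - 3 * X ^ 2 * X' - 2 * X * r * X'), ?_, ?_⟩
  · refine (hr.inv.1.pow 2).mul (DI.VP.sub (DI.VP.sub (DI.VP.add ?_ ?_) ?_) ?_)
    · exact (hA.add v3).mul (hX.pow 2)
    · exact hr.1.mul hX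
    · exact (v3.mul (hX.pow 2)).mul hX'
    · exact ((v2.mul hX).mul hr.1).mul hX'
  · have h0 : r ≠ 0 := hr.ne_zero
    have key : r ^ 2 * (X' - X ^ 3) =
        3 * ((A + 3) * X ^ 2 + r * X - 3 * X ^ 2 * X' - 2 * X * r * X') := by
      linear_combination hrel
    have e : X' - X ^ 3 = (r⁻¹) ^ 2 * (r ^ 2 * (X' - X ^ 3)) := by
      rw [← mul_assoc, ← mul_pow, inv_mul_cancel₀ h0, one_pow, one_mul]
    rw [e, key]
    ring

/-- The primes above `𝔭`. -/
theorem sD2 (h1 : S_O6) (h2 : S_L6a) (h3 : S_R5) (h4 : S_AbQ) (h5 : S_ThT) (h6 : S_XOm)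
    (h7 : S_DUn) (h8 : S_KTS) (h9 : S_KNq) (h10 : S_D1) : S_D2 := by
  intro k t _ b hb P hP
  obtain ⟨-, -, -, -, hAb, -⟩ := h4 k t
  obtain ⟨-, -, hA3, -⟩ := hAb P
  have hNp : Npr P := hP.1
  have hP3 : MP P 3 := hP.2.1
  have hPp : P.IsPrime := hNp.1
  have hnb : ¬ AbPb k t P := fun h => hA3 ⟨hP, h⟩
  obtain ⟨-, hTS, -, -, hS, hSpT, hSmT, -, hT⟩ := h8 k t b hb P hNp hnb
  have hIT : IK P b (ptT b) := hT hP
  obtain ⟨⟨-, hTb, -, -, hTall⟩, -, -, -⟩ := h2 k t b hb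
  obtain ⟨⟨hper, heven, -⟩, -, -, -, hSm, -, -, ⟨-, -, -, -, hppz⟩, -, -⟩ := h6 k t b hb
  have hppb : pp k t * b ≠ ⊥ := by
    have h : pp k t * b ≠ 0 := mul_ne_zero (by simpa using D2_ppne) (by simpa using hb)
    simpa using h
  obtain ⟨hVA', hUr', -, -, -, -⟩ := h7 k t (pp k t * b) hppb P hNp hnb
  obtain ⟨hVA, -, -, -, -, -⟩ := h7 k t b hb P hNp hnb
  obtain ⟨-, -, -, -, hQp, -, -⟩ := h10 k t b hb P hNp hnb
  have hnI : ∀ z : ℂ, Tor k t z → ¬ IK P b z → z ∉ Lam b ∧ VP P (xO b z) := by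
    intro z hz h
    constructor
    · intro h1
      exact h ⟨hz, Or.inl h1⟩
    · by_contra h1
      exact h ⟨hz, Or.inr h1⟩
  have hTx : ¬ VP P (xO b (ptT b)) := by
    rcases hIT.2 with h | h
    · exact absurd h hTb
    · exact h
  refine ⟨hIT, hS, hSpT, hSmT, ?_, ?_, ?_, ?_, ?_⟩
  · intro z hz h
    obtain ⟨hzL, hX⟩ := hnI z hz h
    have hzp : z ∉ Lam (pp k t * b) := by
      intro h1
      rcases hTall z h1 with h2 | h2 | h2
      · exact hzL h2
      · have e : xO b z = xO b (ptT b) := by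
          have := hper (ptT b) (z - ptT b) h2
          rwa [add_sub_cancel] at this
        exact hTx (e ▸ hX)
      · have e : xO b z = xO b (ptT b) := by
          have := hper (-ptT b) (z + ptT b) h2
          rw [heven] at this
          rw [← this]
          congr 1
          ring
        exact hTx (e ▸ hX)
    obtain ⟨h11, h12⟩ := D2_five hP3 hX hVA' hUr' (hppz z hz hzp).2
    refine ⟨?_, h12⟩
    rintro ⟨-, h13 | h13⟩
    · exact hzp h13
    · exact h13 h11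
  · intro z hz h hPr
    obtain ⟨hzL, hX⟩ := hnI z hz h
    obtain ⟨-, -, -, h11⟩ := h3 k t ⊤ b b top_ne_bot hb hb (top_sup_eq _) hPr hPr
    obtain ⟨-, h12, -⟩ := h11 z hz
    apply DI.VP.of_pow (n := 2) two_pos
    rw [h12 hzL]
    exact ((D2_vn 4).mul (hX.pow 3)).add (((hVA.mul hX).add DI.VP.one).pow 2)
  · intro z hz h
    have h11 : ¬ IK P b z := fun h2 => h (hQp z h2)
    exact ⟨h11, (hnI z hz h11).2⟩
  · intro z hz h hp hm
    obtain ⟨hzL, hX⟩ := hnI z hz h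
    obtain ⟨hzLp, hXp⟩ := hnI _ (tor_add hz hTS) hp
    obtain ⟨hzLm, hXm⟩ := hnI _ (tor_sub hz hTS) hm
    obtain ⟨hx0, hprod, -⟩ := hSm z hz hzL hzLp hzLm
    rw [DI.UP.iff]
    refine ⟨hx0, hX, ?_⟩
    have e : (xO b z)⁻¹ = -(xO b (z + ptS b) * xO b (z - ptS b)) := by
      rw [inv_eq_iff_eq_inv, eq_comm, inv_eq_of_mul_eq_one_left]
      linear_combination -hprod
    rw [e]
    exact (hXp.mul hXm).neg
  · intro a ha hPr u hu hub
    obtain ⟨h11, -⟩ := h9 k t a b ha hb hPr P hNp hnb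
    apply h11 u hu
    intro hIK
    obtain ⟨h12, -, -, -, h13⟩ := h5 k t a b ha hb
    have hcop := (h12 hPr).2
    have hn : ¬ MP P (toO (NI a : OO k t)) := by
      rw [toO_nat]
      intro hM
      obtain ⟨x, y, hxy⟩ := Nat.isCoprime_iff_coprime.mpr hcop
      apply DI.MP.one_not (P := P)
      have e : (1 : Om) = (x : Om) * (NI a : ℕ) + (y : Om) * 3 := by
        have := congrArg (fun n : ℤ => (n : Om)) hxy
        push_cast at this
        exact this.symm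
      rw [e]
      exact (DI.MP.mul_left (DI.VP.int x) hM).add (DI.MP.mul_left (DI.VP.int y) hP3)
    have h14 := hQp u hIK (NI a : OO k t) 1 hn (by
      rw [mul_one, toC_nat]
      exact h13 u hu)
    rw [toC_one, one_mul] at h14
    exact hub h14

end Pool.Agent.DT
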