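import Pool.Agent.Lib.DT.D.SpecK
import Pool.Agent.Lib.DI.Val
import Pool.Agent.Lib.DT.Base

/-!
# Theorem DT (`p = 3`), part D, module D3: Kronecker's congruence
-/

set_option autoImplicit false

open scoped Pointwise nonZeroDivisors

noncomputable section

namespace Pool.Agent.DT

open Pool.Agent.MuZ Pool.Agent.FW NumberField IsDedekindDomain
open Pool.Agent.DI (io ofC io_inj exists_io io_ofC ofC_io VP MP UP TP ex)

/-- A product of factors congruent to `c`. -/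
private theorem D3_prod {P : Ideal ZZ} [hP : P.IsPrime] {c : Om} (hc : VP P c) (R : Finset ℂ)
    (f : ℂ → Om) (h : ∀ u ∈ R, MP P (f u - c)) :
    VP P (∏ u ∈ R, f u) ∧ MP P (∏ u ∈ R, f u - c ^ R.card) := by
  classical
  induction R using Finset.induction_on with
  | empty =>
    rw [Finset.prod_empty, Finset.card_empty, pow_zero, sub_self]
    exact ⟨DI.VP.one, DI.MP.zero⟩
  | insert a s ha ih =>
    obtain ⟨h1, h2⟩ := ih fun u hu => h u (Finset.mem_insert_of_mem hu)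
    have h3 := h a (Finset.mem_insert_self a s)
    have h4 : VP P (f a) := by
      have h5 := h3.vp.add hc
      rwa [sub_add_cancel] at h5
    rw [Finset.prod_insert ha, Finset.card_insert_of_notMem ha]
    refine ⟨h4.mul h1, ?_⟩
    have e : f a * ∏ u ∈ s, f u - c ^ (s.card + 1) =
        (f a - c) * ∏ u ∈ s, f u + c * (∏ u ∈ s, f u - c ^ s.card) := by
      ring
    rw [e]
    exact (DI.MP.mul_right h3 h1).add (DI.MP.mul_left hc h2)

private theorem D3_mul {P : Ideal ZZ} [P.IsPrime] {a a' b b' : Om} (hb : VP P b)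
    (ha' : VP P a') (h1 : MP P (a - a')) (h2 : MP P (b - b')) : MP P (a * b - a' * b') := by
  have e : a * b - a' * b' = (a - a') * b + a' * (b - b') := by ring
  rw [e]
  exact (DI.MP.mul_right h1 hb).add (DI.MP.mul_left ha' h2)

private theorem D3_canc {P : Ideal ZZ} [P.IsPrime] {a u : Om} (hu : UP P u)
    (h : MP P (a * u)) : MP P a := by
  have h1 := DI.MP.mul_right h hu.inv.1
  rwa [mul_inv_cancel_right₀ hu.ne_zero] at h1

private theorem D3_A {Q : Ideal ZZ} [Q.IsPrime] (l : ℕ)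
    (F : ∀ x y : Om, VP Q x → VP Q y → MP Q ((x + y) ^ l - (x ^ l + y ^ l)) ∧
      MP Q ((x - y) ^ l - (x ^ l - y ^ l)) ∧ (MP Q (x - y) → MP Q (x ^ l - y ^ l)))
    {A A' x x2 x4 y y2 y4 : Om} (ux : UP Q x) (uy : UP Q y) (v2 : VP Q x2) (v4 : VP Q x4)
    (w2 : VP Q y2) (w4 : VP Q y4) (e1 : (x4 + x2) * x ^ 2 = A * x + 1)
    (e2 : (y4 + y2) * y ^ 2 = A' * y + 1) (c0 : MP Q (y - x ^ l)) (c2 : MP Q (y2 - x2 ^ l))
    (c4 : MP Q (y4 - x4 ^ l)) : VP Q A ∧ VP Q A' ∧ MP Q (A' - A ^ l) := by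
  have hA : VP Q A := by
    have e : A = ((x4 + x2) * x ^ 2 - 1) * x⁻¹ := by
      rw [e1, add_sub_cancel_right, mul_inv_cancel_right₀ ux.ne_zero]
    rw [e]
    exact (((v4.add v2).mul (ux.1.pow 2)).sub DI.VP.one).mul ux.inv.1
  have hA' : VP Q A' := by
    have e : A' = ((y4 + y2) * y ^ 2 - 1) * y⁻¹ := by
      rw [e2, add_sub_cancel_right, mul_inv_cancel_right₀ uy.ne_zero]
    rw [e]
    exact (((w4.add w2).mul (uy.1.pow 2)).sub DI.VP.one).mul uy.inv.1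
  refine ⟨hA, hA', ?_⟩
  have k1 := (F ((x4 + x2) * x ^ 2) 1 ((v4.add v2).mul (ux.1.pow 2)) DI.VP.one).2.1
  rw [one_pow, e1, add_sub_cancel_right, ← e1] at k1
  have k2 := (F x4 x2 v4 v2).1
  have k4 : MP Q ((x4 + x2) ^ l - (y4 + y2)) := by
    have e : (x4 + x2) ^ l - (y4 + y2) =
        ((x4 + x2) ^ l - (x4 ^ l + x2 ^ l)) - ((y4 - x4 ^ l) + (y2 - x2 ^ l)) := by ring
    rw [e]
    exact k2.sub (c4.add c2)
  have k5 : MP Q ((x ^ l) ^ 2 - y ^ 2) := by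
    have e : (x ^ l) ^ 2 - y ^ 2 = -((y - x ^ l) * (y + x ^ l)) := by ring
    rw [e]
    exact (DI.MP.mul_right c0 (uy.1.add (ux.1.pow l))).neg
  have k6 := D3_mul ((ux.1.pow l).pow 2) (w4.add w2) k4 k5
  have eu : ((x4 + x2) * x ^ 2) ^ l = (x4 + x2) ^ l * (x ^ l) ^ 2 := by
    rw [mul_pow, ← pow_mul, ← pow_mul, mul_comm 2 l]
  rw [eu] at k1
  have k8 := DI.MP.mul_left hA' c0
  have k9 : MP Q ((A' - A ^ l) * x ^ l) := by
    have e : (A' - A ^ l) * x ^ l = -((A * x) ^ l - ((x4 + x2) ^ l * (x ^ l) ^ 2 - 1)) -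
        ((x4 + x2) ^ l * (x ^ l) ^ 2 - (y4 + y2) * y ^ 2) - A' * (y - x ^ l) := by
      rw [e2, mul_pow]
      ring
    rw [e]
    exact (k1.neg.sub k6).sub k8
  exact D3_canc (ux.pow l) k9

private theorem D3_D {Q : Ideal ZZ} [Q.IsPrime] (l : ℕ)
    (F : ∀ x y : Om, VP Q x → VP Q y → MP Q ((x + y) ^ l - (x ^ l + y ^ l)) ∧
      MP Q ((x - y) ^ l - (x ^ l - y ^ l)) ∧ (MP Q (x - y) → MP Q (x ^ l - y ^ l)))
    (h3 : MP Q ((3 : Om) ^ l - 3)) {A A' D D' X X' : Om} (uX : UP Q X) (uX' : UP Q X')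
    (hA : VP Q A) (hA' : VP Q A') (cA : MP Q (A' - A ^ l)) (cX : MP Q (X' - X ^ l))
    (e1 : D * X = A * X + 3) (e2 : D' * X' = A' * X' + 3) : MP Q (D' - D ^ l) := by
  have v3 : VP Q (3 : Om) := by exact_mod_cast DI.VP.nat (P := Q) 3
  have hD' : VP Q D' := by
    have e : D' = (A' * X' + 3) * X'⁻¹ := by
      rw [← e2, mul_inv_cancel_right₀ uX'.ne_zero]
    rw [e]
    exact ((hA'.mul uX'.1).add v3).mul uX'.inv.1
  have k1 := (F (A * X) 3 (hA.mul uX.1) v3).1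
  rw [← e1] at k1
  have k2 := D3_mul uX'.1 (hA.pow l) cA cX
  have k3 := DI.MP.mul_left hD' cX
  have k4 : MP Q ((D' - D ^ l) * X ^ l) := by
    have e : (D' - D ^ l) * X ^ l = -((D * X) ^ l - ((A * X) ^ l + 3 ^ l)) - (3 ^ l - 3) +
        (A' * X' - A ^ l * X ^ l) - D' * (X' - X ^ l) := by
      have e3 : D' * (X' - X ^ l) = A' * X' + 3 - D' * X ^ l := by rw [← e2]; ring
      rw [e3, mul_pow, mul_pow]
      ring
    rw [e]
    exact ((k1.neg.sub h3).add k2).sub k3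
  exact D3_canc (uX.pow l) k4

/-- Kronecker's congruence. -/
theorem sD3 (hL3 : S_L3) (hThT : S_ThT) (hD1 : S_D1) (hPrC : S_PrC) (hFer : S_Fer)
    (hD3a : S_D3a) (hPtt : S_Ptt) (hD3b : S_D3b) : S_D3 := by
  intro k t _ q l hq hl2 hl3 Q hQ hA b hb
  have hQ1 : Q.IsPrime := hQ.1
  obtain ⟨hF1, hF2, -, h3, hnb, -, hcop⟩ := hFer k t q l hq hl2 hl3 Q hQ hA
  have hq0 : q ≠ ⊥ := hq.2.1
  have hlp : l.Prime := hq.2.2.1
  have hq3 : PrI q (sN k t 3) := hcop 3 ((Nat.coprime_primes Nat.prime_three hlp).2 (Ne.symm hl3))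
  have hqb : q * b ≠ ⊥ := fun h => by
    rcases Ideal.mul_eq_bot.1 h with h | h
    · exact hq0 h
    · exact hb h
  obtain ⟨hker, -⟩ := hD3a k t q l hq hl2 hl3 Q hQ hA b hb
  obtain ⟨R, hR, hRc⟩ := (hL3 k t q b hq0 hb).2.2
  have hRl : R.card = l := by rw [hRc, hq.2.2.2]
  obtain ⟨-, -, hC'⟩ := hPrC k t q b hq0 hb
  obtain ⟨C, hC0, -, hCz⟩ := hC' hq3 R hR
  have hC3 : C ^ 3 = 1 := by
    rw [hC0, hq.2.2.2]
    exact (hlp.odd_of_ne_two hl2).add_one.neg_one_pow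
  have hCU : UP Q C := DI.UP.of_pow (n := 3) (by norm_num) (by rw [hC3]; exact DI.UP.one)
  obtain ⟨-, -, -, -, -, hD16, -⟩ := hD1 k t b hb Q hQ hnb
  obtain ⟨-, -, -, -, -, -, hD17⟩ := hD1 k t (q * b) hqb Q hQ hnb
  have hIK : ∀ (c : Ideal (OO k t)) (z : ℂ), Tor k t z → ¬ IK Q c z →
      z ∉ Lam c ∧ VP Q (xO c z) := by
    intro c z hz h
    constructor
    · exact fun h1 => h ⟨hz, Or.inl h1⟩
    · by_contra h1
      exact h ⟨hz, Or.inr h1⟩
  -- the congruence with the constant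
  have hst : ∀ z : ℂ, Tor k t z → ¬ IK Q b z → z ∉ Lam (q * b) ∧ VP Q (xO (q * b) z) ∧
      MP Q (C * xO (q * b) z - xO b z ^ l) := by
    intro z hz h
    have h1 : z ∉ Lam (q * b) := fun h1 => h (hker z h1)
    obtain ⟨h5, h4⟩ := D3_prod (hIK b z hz h).2 R (fun u => xO b (z + u))
      fun u hu => hD16 z u hz h (hker u (hR.mem u hu))
    rw [hCz z hz h1] at h5 h4
    rw [hRl] at h4
    refine ⟨h1, ?_, h4⟩
    have h9 := hCU.inv.1.mul h5
    rwa [inv_mul_cancel_left₀ hCU.ne_zero] at h9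
  -- the points of order `𝔭̄²`
  have hP1 := hPtt k t ⊤ b top_ne_bot hb (top_sup_eq _)
  rw [Ideal.top_mul] at hP1
  obtain ⟨-, -, p2, p3, -, hTT, hTt, p5, pQ⟩ := hP1
  obtain ⟨pj, pT1, pT2, px, -⟩ := pQ Q hQ h3
  obtain ⟨-, r1, r2, r3, -, -, -, r5, rQ⟩ := hPtt k t q b hq0 hb hq3
  obtain ⟨rj, -, rT2, rx, -⟩ := rQ Q hQ h3
  have pj1 := pj 1 (by decide)
  have pj2 := pj 2 (by decide)
  have pj4 := pj 4 (by decide)
  have rj1 := rj 1 (by decide)
  have rj2 := rj 2 (by decide)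
  have rj4 := rj 4 (by decide)
  have rj3 := rj 3 (by decide)
  have rj5 := rj 5 (by decide)
  rw [Int.cast_one, one_mul] at pj1 rj1
  rw [Int.cast_ofNat] at pj2 pj4 rj2 rj3 rj4 rj5
  have hT2 : Tor k t (2 * ptt b) := by
    have := tor_mul (k := k) (t := t) 2 hTt
    rwa [toC_two] at this
  have hT4 : Tor k t (4 * ptt b) := by
    have := tor_mul (k := k) (t := t) ((4 : ℕ) : OO k t) hTt
    rwa [toC_nat, Nat.cast_ofNat] at this
  obtain ⟨-, sy, s1⟩ := hst (ptt b) hTt pj1.1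
  obtain ⟨-, sy2, s2⟩ := hst (2 * ptt b) hT2 pj2.1
  obtain ⟨-, sy4, s4⟩ := hst (4 * ptt b) hT4 pj4.1
  have hC1 : MP Q (C - 1) := by
    have h6 := (hF2 (xO b (ptt b)) 1 px.1 DI.VP.one).2.1
    rw [one_pow] at h6
    rcases hD3b Q l C (xO b (ptt b)) (xO b (2 * ptt b)) (xO (q * b) (ptt b))
      (xO (q * b) (2 * ptt b)) (xO (q * b) (4 * ptt b)) hQ1 hC3 px.1 pj2.2 sy sy2 sy4 p2 r2 r1
      s1 s2 h6 with h | h
    · exact h
    · exfalso
      rcases hD17 (4 * ptt b) (ptt b) hT4 hTt rj4.1 rj1.1 h with h7 | h7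
      · apply rj5.1
        have e : 5 * ptt b = 4 * ptt b + ptt b := by ring
        rw [e]
        exact h7
      · apply rj3.1
        have e : 3 * ptt b = 4 * ptt b - ptt b := by ring
        rw [e]
        exact h7
  have hss : ∀ z : ℂ, Tor k t z → ¬ IK Q b z → z ∉ Lam (q * b) ∧ VP Q (xO (q * b) z) ∧
      MP Q (xO (q * b) z - xO b z ^ l) := by
    intro z hz h
    obtain ⟨h5, h6, h7⟩ := hst z hz h
    refine ⟨h5, h6, ?_⟩
    have e : xO (q * b) z - xO b z ^ l =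
        (C * xO (q * b) z - xO b z ^ l) - (C - 1) * xO (q * b) z := by ring
    rw [e]
    exact h7.sub (DI.MP.mul_right hC1 h6)
  obtain ⟨vA, vA', cA⟩ := D3_A l hF2 px rx pj2.2 pj4.2 sy2 sy4 p3 r3
    (hss (ptt b) hTt pj1.1).2.2 (hss (2 * ptt b) hT2 pj2.1).2.2 (hss (4 * ptt b) hT4 pj4.1).2.2
  have h33 : MP Q ((3 : Om) ^ l - 3) := by
    have h := hF1 3 1 (by rw [Int.cast_one]; exact DI.MP.one_not)
    rw [Int.cast_one, div_one, Int.cast_ofNat] at h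
    exact h
  refine ⟨hker, cA, D3_D l hF2 h33 pT2 rT2 vA vA' cA (hss (ptT b) hTT pT1).2.2 p5 r5, ?_⟩
  intro z hz h
  obtain ⟨h5, h6, h7⟩ := hss z hz h
  refine ⟨?_, h7⟩
  rintro ⟨-, h9 | h9⟩
  · exact h5 h9
  · exact h9 h6

end Pool.Agent.DT
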