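import Pool.Agent.Lib.DT.D.SpecK

/-!
# Theorem DT (`p = 3`), part D, module D3a (helper87): the `q`-torsion is in the kernel of reduction

Port of `DK/D/D3a.lean` (helper61).
-/

set_option autoImplicit false

open scoped Pointwise nonZeroDivisors

noncomputable section

namespace Pool.Agent.DT

open Pool.Agent.MuZ Pool.Agent.FW NumberField IsDedekindDomain
open Pool.Agent.DI (io ofC io_inj exists_io io_ofC ofC_io VP MP UP TP ex)

variable {k t : ℕ}

private theorem D3a_top {q b : Ideal (OO k t)} {z : ℂ} (h : z ∉ Lam b) (hq : q.IsMaximal) :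
    ∀ a' : Ideal (OO k t), q < a' → z ∉ Lam (a' * b) := by
  intro a' ha' h1
  rw [hq.1.2 a' ha', Ideal.top_mul] at h1
  exact h h1

/-- If a point of `Lam (q b)` is not in the kernel, then no point outside `Lam b` is. -/
private theorem D3a_one [SqT k t] (h3 : S_L3) (hD1 : S_D1) {q : Ideal (OO k t)} (hq : q.IsMaximal)
    (hq0 : q ≠ ⊥) {Q : Ideal ZZ} (hQ : Npr Q) (hQb : ¬ AbPb k t Q) {b : Ideal (OO k t)} (hb : b ≠ ⊥)
    {u u' : ℂ} (hu : u ∈ Lam (q * b)) (hK : ¬ IK Q b u) (hu' : u' ∈ Lam (q * b)) (hn : u' ∉ Lam b) :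
    ¬ IK Q b u' := by
  intro hK'
  obtain ⟨-, h32, -⟩ := h3 k t q b hq0 hb
  obtain ⟨v, hv⟩ := (h32 u' hu' (D3a_top hn hq)).2 u hu
  obtain ⟨k1, k2, k3, -⟩ := hD1 k t b hb Q hQ hQb
  have h := k1 _ _ (k2 _ hv) (k3 v u' hK')
  rw [sub_add_cancel] at h
  exact hK h

/-- If `laO q b` is a unit then so is `laO q (q b)`. -/
private theorem D3a_two [SqT k t] (h3 : S_L3) (hD1 : S_D1) (hPrC : S_PrC) (hKNq : S_KNq)
    (hLaU : S_LaU) {q : Ideal (OO k t)} (hq0 : q ≠ ⊥) (hq3 : PrI q (sN k t 3)) {Q : Ideal ZZ}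
    (hQ : Npr Q) (hQb : ¬ AbPb k t Q) {b : Ideal (OO k t)} (hb : b ≠ ⊥) (hU : UP Q (laO q b)) :
    UP Q (laO q (q * b)) := by
  classical
  have := hQ.1
  obtain ⟨-, -, hL3, -⟩ := hLaU k t q hq0 hq3 Q hQ hQb
  obtain ⟨k1, k2, k3, -⟩ := hD1 k t b hb Q hQ hQb
  have hno : ∀ u ∈ Lam (q * b), u ∉ Lam b → ¬ IK Q b u := by
    intro u hu hu' hK
    exact hU.2 ((hL3 b hb).1 ⟨u, hu, hu', hK⟩)
  have hqb : q * b ≠ ⊥ := mul_ne_zero hq0 hb
  refine (hL3 (q * b) hqb).2 ?_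
  intro w hw hw' hKw
  obtain ⟨hT, hor⟩ := hKw
  have hV : ¬ VP Q (xO (q * b) w) := hor.resolve_left hw'
  obtain ⟨-, -, R, hR, -⟩ := h3 k t q b hq0 hb
  obtain ⟨-, -, hPr⟩ := hPrC k t q b hq0 hb
  obtain ⟨C, -, hC, hprod⟩ := hPr hq3 R hR
  have hCU : UP Q C := by
    rw [hC]
    refine hU.mul (UP.prod _ _ ?_)
    intro u hu
    split_ifs with h
    · exact UP.one
    · exact (hKNq k t q b hq0 hb hq3 Q hQ hQb).1 u (hR.mem u hu) (hno u (hR.mem u hu) h)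
  have hC0 : C ≠ 0 := hCU.ne_zero
  have hP := hprod w hT hw'
  obtain ⟨u, hu, hVu⟩ : ∃ u ∈ R, ¬ VP Q (xO b (w + u)) := by
    by_contra hcon
    push Not at hcon
    have h1 : VP Q (C * xO (q * b) w) := by
      rw [← hP]
      exact VP.prod _ _ hcon
    apply hV
    have e : xO (q * b) w = C⁻¹ * (C * xO (q * b) w) := by
      rw [inv_mul_cancel_left₀ hC0]
    rw [e]
    exact hCU.inv.1.mul h1
  have huq := hR.mem u hu
  have hw1 : w + u ∈ Lam (q * (q * b)) := lam_add hw (lam_mono huq)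
  have hw2 : w + u ∉ Lam (q * b) := by
    intro h
    apply hw'
    have := lam_sub h huq
    rwa [add_sub_cancel_right] at this
  have hK' : IK Q b (w + u) := ⟨tor_add hT (tor_lam hqb huq), Or.inr hVu⟩
  obtain ⟨v, hv, hvb⟩ : ∃ v ∈ q, toC v * (w + u) ∉ Lam b := by
    by_contra hcon
    push Not at hcon
    exact hw2 (lam_prod.2 hcon)
  exact hno _ (lam_prod.1 hw1 v hv) hvb (k3 v _ hK')

theorem sD3a (h3 : S_L3) (hD1 : S_D1) (hPrC : S_PrC) (hKNq : S_KNq) (hLaU : S_LaU)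
    (hFer : S_Fer) : S_D3a := by
  intro k t _ q l hDeg hl2 hl3 Q hQ hA b hb
  obtain ⟨-, -, -, -, hQb, -, hPN⟩ := hFer k t q l hDeg hl2 hl3 Q hQ hA
  obtain ⟨hqP, hq0, hlp, -⟩ := hDeg
  have hq3 : PrI q (sN k t 3) := by
    refine hPN 3 ?_
    rw [Nat.coprime_primes Nat.prime_three hlp]
    exact fun h => hl3 h.symm
  have hqM : q.IsMaximal := hqP.isMaximal hq0
  have := hQ.1
  obtain ⟨-, -, hL3, hL4⟩ := hLaU k t q hq0 hq3 Q hQ hQb
  have hbad : ∀ b : Ideal (OO k t), b ≠ ⊥ → ¬ UP Q (laO q b) := by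
    intro b hb hU
    have hall : ∀ i : ℕ, UP Q (laO q (q ^ i * b)) := by
      intro i
      induction i with
      | zero => rwa [pow_zero, one_mul]
      | succ i ih =>
        have h0 : q ^ i * b ≠ ⊥ := mul_ne_zero (pow_ne_zero i hq0) hb
        have := D3a_two h3 hD1 hPrC hKNq hLaU hq0 hq3 hQ hQb h0 ih
        rwa [← mul_assoc, ← pow_succ'] at this
    obtain ⟨h, la, hh, hla, -, hprod⟩ := hL4 b hb
    have h1 : UP Q (toO la ^ 2) := by
      rw [← hprod]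
      exact UP.prod _ _ (fun i _ => hall i)
    have h2 : la ∈ q := by
      have h3 : la ∈ q ^ h := by
        rw [hla]
        exact Ideal.mem_span_singleton_self la
      exact Ideal.pow_le_self hh.ne' h3
    have h3 : MP Q (toO la) := hA la h2
    apply h1.2
    rw [sq]
    exact MP.mul_left h3.vp h3
  have hker : ∀ u ∈ Lam (q * b), IK Q b u := by
    intro u hu
    by_contra hK
    exact hbad b hb ((hL3 b hb).2 (fun u' hu' hn => D3a_one h3 hD1 hqM hq0 hQ hQb hb hu hK hu' hn))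
  refine ⟨hker, ?_⟩
  obtain ⟨⟨z, hz, hz'⟩, -⟩ := h3 k t q b hq0 hb
  have hzb : z ∉ Lam b := by
    have := hz' ⊤ (lt_top_iff_ne_top.2 hqP.ne_top)
    rwa [Ideal.top_mul] at this
  exact (hL3 b hb).1 ⟨z, hz, hzb, hker z hz⟩

end Pool.Agent.DT
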