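import Pool.Agent.Lib.DT.D.SpecK

/-!
# Theorem DT, part D, module D3b: the constant of the product formula, algebra
-/

set_option autoImplicit false

open scoped Pointwise nonZeroDivisors

noncomputable section

namespace Pool.Agent.DT

open Pool.Agent.MuZ Pool.Agent.FW NumberField IsDedekindDomain
open Pool.Agent.DI (io ofC io_inj exists_io io_ofC ofC_io VP MP UP TP ex)

theorem sD3b : S_D3b := by
  intro Q l C x x2 y y2 y4 hQ hC3 hx hx2 hy hy2 hy4 h1 h2 h4 g1 g2 g3
  have hC : VP Q C := (DI.UP.of_pow (n := 3) (by norm_num) (by rw [hC3]; exact DI.UP.one)).1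
  -- the main congruence
  have hp : x2 ^ l * x ^ l = (x - 1) ^ l := by rw [← mul_pow, h1]
  have e1 : (C - 1) * (C * y - C - 1) = x ^ l * (C * y2 - x2 ^ l) +
      ((x - 1) ^ l - (x ^ l - 1)) + (C * y2 - 1) * (C * y - x ^ l) := by
    linear_combination hp - C ^ 2 * h2
  have e2 : MP Q ((C - 1) * (C * y - C - 1)) := by
    rw [e1]
    exact ((DI.MP.mul_left (hx.pow l) g2).add g3).add
      (DI.MP.mul_left ((hC.mul hy2).sub DI.VP.one) g1)
  rcases DI.MP.mul_cases (hC.sub DI.VP.one) (((hC.mul hy).sub hC).sub DI.VP.one) e2 with h5 | h5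
  · exact Or.inl h5
  by_cases hC1 : C = 1
  · left
    rw [hC1, sub_self]
    exact DI.MP.zero
  right
  have hC2 : C ^ 2 + C + 1 = 0 := by
    apply mul_left_cancel₀ (sub_ne_zero.2 hC1)
    rw [mul_zero]
    linear_combination hC3
  have e3 : y4 - y = -(y4 + C ^ 2) * (C * y - C - 1) := by
    linear_combination (-C) * h4 + (y - 1) * hC3 - hC2
  rw [e3]
  exact DI.MP.mul_left (hy4.add (hC.pow 2)).neg h5

end Pool.Agent.DT
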