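import Pool.Agent.Lib.DT.D.SpecM

/-!
# Theorem DT, part D, module D5: theta is a unit
-/

set_option autoImplicit false

open scoped Pointwise nonZeroDivisors

noncomputable section

namespace Pool.Agent.DT

open Pool.Agent.MuZ Pool.Agent.FW NumberField IsDedekindDomain
open Pool.Agent.DI (io ofC io_inj exists_io io_ofC ofC_io VP MP UP TP ex)

variable {k t : ℕ}

private theorem D5_pr {m : Ideal (OO k t)} {N M : ℕ} (h : M ∣ N) (hm : PrI m (sN k t N)) :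
    PrI m (sN k t M) := by
  unfold PrI at hm ⊢
  rw [eq_top_iff, ← hm]
  refine sup_le_sup_left (Ideal.span_singleton_le_span_singleton.2 ?_) m
  exact_mod_cast Nat.cast_dvd_cast h

/-- The primes not above `𝔭̄`. -/
private theorem D5_core (hB14 : S_B14) (hR2 : S_R2) (hThU : S_ThU) [SqT k t]
    (m b : Ideal (OO k t)) (hm : m ≠ ⊥) (hb : b ≠ ⊥) (h6 : PrI m (sN k t 6)) (Q : Ideal ZZ)
    (hQ : Npr Q) (hQ' : ¬ AbPb k t Q) (z : ℂ) (hz : Tor k t z)
    (hu : ∀ u ∈ Lam (m * b), ¬ Qp Q b (z + u)) : UP Q (Theta m b z) := by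
  have hP := hQ.1
  have hS := (hB14 k t m b hm hb (D5_pr (by norm_num) h6)).1
  have h := ((hThU k t m b hm hb (D5_pr (by norm_num) h6) Q hQ hQ').2.2 z hz hu).2.2.2
  have hd : UP Q (dlO b) := ((hR2 k t b hb Q hQ).2.2.2.1 hQ').2
  unfold Theta
  refine DI.UP.prod _ _ fun u hu => ?_
  rw [mul_assoc]
  exact hd.mul (h u (hS.mem u hu).1 (hS.mem u hu).2).1

/-- One factor, above `𝔭`. -/
private theorem D5_fac {P : Ideal ZZ} [hP : P.IsPrime] {d κ d' ρ T x : Om} (h1 : (3 * κ) ^ 3 = -(d' * ρ) ^ 2)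
    (h2 : d ^ 3 * κ ^ 6 = d' ^ 3) (h3 : 3 * T = -ρ) (hd' : UP P d') (hρ : UP P ρ)
    (h3P : MP P 3) (hx : VP P x) : UP P (d * (x - T) ^ 2) := by
  have hκ : UP P (3 * κ) := by
    refine DI.UP.of_pow (n := 3) (by norm_num) ?_
    rw [h1]
    exact ((hd'.mul hρ).pow 2).neg
  have hT : UP P (3 * x + ρ) := by
    refine DI.UP.congr hρ ?_
    rw [add_sub_cancel_right]
    exact DI.MP.mul_right h3P hx
  have e1 : (d * (x - T) ^ 2) ^ 3 * (3 * κ) ^ 6 = d' ^ 3 * (3 * x + ρ) ^ 6 := by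
    have e2 : 3 * x + ρ = 3 * (x - T) := by linear_combination h3
    rw [e2, ← h2]
    ring
  have h6 : UP P ((d * (x - T) ^ 2) ^ 3) := by
    have e3 : (d * (x - T) ^ 2) ^ 3 = d' ^ 3 * (3 * x + ρ) ^ 6 * ((3 * κ) ^ 6)⁻¹ := by
      rw [← e1, mul_inv_cancel_right₀ (pow_ne_zero 6 hκ.ne_zero)]
    rw [e3]
    exact ((hd'.pow 3).mul (hT.pow 6)).mul (hκ.pow 6).inv
  exact DI.UP.of_pow (n := 3) (by norm_num) h6

theorem sD5 (hO3 : S_O3) (hL2 : S_L2) (hO4 : S_O4) (hB14 : S_B14) (hR2 : S_R2) (hR4 : S_R4) (hAbQ : S_AbQ)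
    (hThU : S_ThU) (hQpC : S_QpC) (hThC : S_ThC) : S_D5 := by
  intro k t _ m b hm hb h6 Q hQ z hz hu
  by_cases hQ' : AbPb k t Q
  · obtain ⟨-, c, hc, hc'⟩ := hR4
    obtain ⟨-, -, hPbP⟩ := hc' k t b hb
    obtain ⟨-, o2, -, -, oN, oP, oB, -⟩ := hO3 k t
    obtain ⟨-, -, -, -, -, -, -, hLc, -⟩ := hL2 k t
    have hcQ : AbP k t (c • Q) := hPbP Q hQ'
    have hcQ' : ¬ AbPb k t (c • Q) := fun h => (hAbQ k t).2.2.2.2.1 (c • Q) |>.2.2.1 ⟨hcQ, h⟩
    have hb' : cjI b ≠ ⊥ := oB b hb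
    have hm' : cjI m ≠ ⊥ := oB m hm
    have h6' : PrI (cjI m) (sN k t 6) := by
      rw [← oN 6]
      exact (oP m _).2 h6
    have hcz : Tor k t ((starRingEnd ℂ) z) := (hQpC k t c hc Q b z hQ hb).2.2.2.2.1.2 hz
    have hnpr : Npr (c • Q) := (hQpC k t c hc Q b z hQ hb).2.1
    have hP : (c • Q).IsPrime := hnpr.1
    have hPQ : Q.IsPrime := hQ.1
    have hlam : ∀ u : ℂ, u ∈ Lam (cjI m * cjI b) ↔ (starRingEnd ℂ) u ∈ Lam (m * b) := by
      intro u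
      rw [← o2, hLc]
    have hu' : ∀ u ∈ Lam (cjI m * cjI b), ¬ Qp (c • Q) (cjI b) ((starRingEnd ℂ) z + u) := by
      intro u hum hq
      refine hu _ ((hlam u).1 hum) ((hQpC k t c hc Q b (z + (starRingEnd ℂ) u) hQ hb).1.1 ?_)
      rw [map_add, Complex.conj_conj]
      exact hq
    obtain ⟨hk1, hun, hth⟩ := hThU k t (cjI m) (cjI b) hm' hb' (D5_pr (by norm_num) h6') (c • Q)
      hnpr hcQ'
    obtain ⟨-, -, -, hfac⟩ := hth _ hcz hu'
    -- the points of order prime to `3` are not in the kernel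
    have h3m : PrI (cjI m) (sN k t 3) := D5_pr (by norm_num) h6'
    have hnAb : ¬ Abv (c • Q) (cjI m) := by
      intro h
      have h1 : (1 : OO k t) ∈ cjI m ⊔ Ideal.span {((3 : ℕ) : OO k t)} := by
        rw [show cjI m ⊔ Ideal.span {((3 : ℕ) : OO k t)} = ⊤ from h3m]
        trivial
      obtain ⟨v, hv, y, hy, hvy⟩ := Submodule.mem_sup.1 h1
      obtain ⟨w, rfl⟩ := Ideal.mem_span_singleton.1 hy
      apply DI.MP.one_not (P := c • Q)
      rw [← toO_one (k := k) (t := t), ← hvy, toO_add, toO_mul, toO_nat]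
      refine (h v hv).add (DI.MP.mul_right ?_ (toO_VP w))
      exact_mod_cast hcQ.2.1
    have hcan := hk1 hnAb
    obtain ⟨c1, c2, -, c4, c5⟩ := hThC k t c hc b hb
    have hpb : pp k t * cjI b ≠ ⊥ := mul_ne_zero (hO4 k t).2.2.2.2.2.2.2.2.1 hb'
    obtain ⟨-, -, -, hUd, -⟩ := hR2 k t (cjI b) hb' (c • Q) hnpr
    obtain ⟨-, -, -, hUp, -⟩ := hR2 k t (pp k t * cjI b) hpb (c • Q) hnpr
    have hS := (hB14 k t m b hm hb (D5_pr (by norm_num) h6)).1
    refine (DI.UP.smul c).1 ?_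
    unfold Theta
    rw [map_prod]
    refine DI.UP.prod _ _ fun u hu => ?_
    obtain ⟨hu1, hu2⟩ := hS.mem u hu
    have hut : Tor k t u := tor_lam (mul_ne_zero hm hb) hu1
    have hu1' : (starRingEnd ℂ) u ∈ Lam (cjI m * cjI b) := by
      rw [hlam, Complex.conj_conj]
      exact hu1
    have hu2' : (starRingEnd ℂ) u ∉ Lam (cjI b) := by
      rw [hLc, Complex.conj_conj]
      exact hu2
    have hk := hcan _ hu1' hu2'
    have hxu := hun _ hu1' hu2' hk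
    have hdf := (hfac _ hu1' hu2').2 hk
    rw [mul_assoc, map_mul, c5 z u hz hut, ← mul_assoc]
    exact (D5_fac c1 c2 c4 (hUd hcQ').2 (hUp hcQ').1 hcQ.2.1 hxu.1).mul (hdf.pow 2).inv
  · exact D5_core hB14 hR2 hThU m b hm hb h6 Q hQ hQ' z hz hu

end Pool.Agent.DT
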