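import Pool.Agent.Lib.DT.D.SpecM

/-!
# Theorem DT, part D, module D6: congruences of theta
-/

set_option autoImplicit false

open scoped Pointwise nonZeroDivisors

noncomputable section

namespace Pool.Agent.DT

open Pool.Agent.MuZ Pool.Agent.FW NumberField IsDedekindDomain
open Pool.Agent.DI (io ofC io_inj exists_io io_ofC ofC_io VP MP UP TP ex)

/-- `x'` is congruent to `x ^ l`. -/
private def D6_C (Q : Ideal ZZ) (l : ℕ) (x' x : Om) : Prop := VP Q x' ∧ VP Q x ∧ MP Q (x' - x ^ l)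

private def D6_F (Q : Ideal ZZ) (l : ℕ) : Prop := ∀ x y : Om, VP Q x → VP Q y →
  MP Q ((x + y) ^ l - (x ^ l + y ^ l)) ∧ MP Q ((x - y) ^ l - (x ^ l - y ^ l))

section

variable {Q : Ideal ZZ} [hP : Q.IsPrime] {l : ℕ}

private theorem D6_mul {x' x y' y : Om} (hx : D6_C Q l x' x) (hy : D6_C Q l y' y) :
    D6_C Q l (x' * y') (x * y) := by
  refine ⟨hx.1.mul hy.1, hx.2.1.mul hy.2.1, ?_⟩
  have e : x' * y' - (x * y) ^ l = (x' - x ^ l) * y' + x ^ l * (y' - y ^ l) := by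
    rw [mul_pow]
    ring
  rw [e]
  exact (hx.2.2.mul_right hy.1).add (DI.MP.mul_left (hx.2.1.pow l) hy.2.2)

private theorem D6_sub (hF : D6_F Q l) {x' x y' y : Om} (hx : D6_C Q l x' x) (hy : D6_C Q l y' y) :
    D6_C Q l (x' - y') (x - y) := by
  refine ⟨hx.1.sub hy.1, hx.2.1.sub hy.2.1, ?_⟩
  have e : x' - y' - (x - y) ^ l =
      (x' - x ^ l) - (y' - y ^ l) - ((x - y) ^ l - (x ^ l - y ^ l)) := by ring
  rw [e]
  exact (hx.2.2.sub hy.2.2).sub (hF x y hx.2.1 hy.2.1).2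

private theorem D6_add (hF : D6_F Q l) {x' x y' y : Om} (hx : D6_C Q l x' x) (hy : D6_C Q l y' y) :
    D6_C Q l (x' + y') (x + y) := by
  refine ⟨hx.1.add hy.1, hx.2.1.add hy.2.1, ?_⟩
  have e : x' + y' - (x + y) ^ l =
      (x' - x ^ l) + (y' - y ^ l) - ((x + y) ^ l - (x ^ l + y ^ l)) := by ring
  rw [e]
  exact (hx.2.2.add hy.2.2).sub (hF x y hx.2.1 hy.2.1).1

private theorem D6_unit {x' x : Om} (hx : D6_C Q l x' x) (hU : UP Q x) : UP Q x' :=
  (hU.pow l).congr hx.2.2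

private theorem D6_inv {x' x : Om} (hx : D6_C Q l x' x) (hU : UP Q x) :
    D6_C Q l x'⁻¹ x⁻¹ := by
  have hU' := D6_unit hx hU
  refine ⟨hU'.inv.1, hU.inv.1, ?_⟩
  have e : x'⁻¹ - x⁻¹ ^ l = -(x' - x ^ l) * (x'⁻¹ * x⁻¹ ^ l) := by
    have h1 := hU'.ne_zero
    have h2 := hU.ne_zero
    rw [inv_pow]
    field_simp
    ring
  rw [e]
  exact hx.2.2.neg.mul_right (hU'.inv.1.mul (hU.inv.pow l).1)

private theorem D6_one : D6_C Q l 1 1 := by
  refine ⟨DI.VP.one, DI.VP.one, ?_⟩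
  rw [one_pow, sub_self]
  exact DI.MP.zero

private theorem D6_pow {x' x : Om} (hx : D6_C Q l x' x) (n : ℕ) : D6_C Q l (x' ^ n) (x ^ n) := by
  induction n with
  | zero =>
    rw [pow_zero, pow_zero]
    exact D6_one
  | succ n ih =>
    rw [pow_succ, pow_succ]
    exact D6_mul ih hx

private theorem D6_prod (S : Finset ℂ) (f g : ℂ → Om) (h : ∀ u ∈ S, D6_C Q l (f u) (g u)) :
    D6_C Q l (∏ u ∈ S, f u) (∏ u ∈ S, g u) := by
  classical
  induction S using Finset.induction_on with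
  | empty =>
    rw [Finset.prod_empty, Finset.prod_empty]
    exact D6_one
  | insert a T ha ih =>
    rw [Finset.prod_insert ha, Finset.prod_insert ha]
    exact D6_mul (h a (Finset.mem_insert_self a T))
      (ih fun u hu => h u (Finset.mem_insert_of_mem hu))

/-- One factor. -/
private theorem D6_fac (hF : D6_F Q l) {d' d x' x y' y : Om} (hd : D6_C Q l d' d)
    (hx : D6_C Q l x' x) (hy : D6_C Q l y' y) (hU : UP Q (x - y)) :
    D6_C Q l (d' * y' ^ 2 * ((x' - y') ^ 2)⁻¹) (d * y ^ 2 * ((x - y) ^ 2)⁻¹) :=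
  D6_mul (D6_mul hd (D6_pow hy 2)) (D6_inv (D6_pow (D6_sub hF hx hy) 2) (hU.pow 2))

private theorem D6_F1 : D6_F Q 1 := by
  intro x y _ _
  constructor
  · rw [pow_one, pow_one, pow_one, sub_self]
    exact DI.MP.zero
  · rw [pow_one, pow_one, pow_one, sub_self]
    exact DI.MP.zero

private theorem D6_refl1 {x : Om} (hx : VP Q x) : D6_C Q 1 x x := by
  refine ⟨hx, hx, ?_⟩
  rw [pow_one, sub_self]
  exact DI.MP.zero

/-- The binomial formula modulo `l`. -/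
private theorem D6_bin (hl : l.Prime) (hl2 : l ≠ 2) (hlM : MP Q (l : Om)) : D6_F Q l := by
  have hA : ∀ x y : Om, VP Q x → VP Q y → MP Q ((x + y) ^ l - (x ^ l + y ^ l)) := by
    intro x y hx hy
    have e : (x + y) ^ l - (x ^ l + y ^ l) = (l : Om) *
        ∑ j ∈ Finset.Ioo 0 l, x ^ j * y ^ (l - j) * ((l.choose j / l : ℕ) : Om) := by
      rw [add_pow_prime_eq' hl x y]
      ring
    rw [e]
    refine DI.MP.mul_right hlM (DI.VP.sum _ _ fun j _ => ?_)
    exact ((hx.pow _).mul (hy.pow _)).mul (DI.VP.nat _)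
  intro x y hx hy
  refine ⟨hA x y hx hy, ?_⟩
  have h1 := hA x (-y) hx hy.neg
  rw [(hl.odd_of_ne_two hl2).neg_pow] at h1
  have e : (x - y) ^ l - (x ^ l - y ^ l) = (x + -y) ^ l - (x ^ l + -y ^ l) := by ring
  rw [e]
  exact h1

end


private theorem D6_pr {k t : ℕ} {m : Ideal (OO k t)} {N M : ℕ} (h : M ∣ N) (hm : PrI m (sN k t N)) :
    PrI m (sN k t M) := by
  unfold PrI at hm ⊢
  rw [eq_top_iff, ← hm]
  refine sup_le_sup_left (Ideal.span_singleton_le_span_singleton.2 ?_) m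
  exact_mod_cast Nat.cast_dvd_cast h

theorem sD6 (hB14 : S_B14) (hR2 : S_R2) (hAbQ : S_AbQ) (hD1 : S_D1) (hD3 : S_D3) (hHsP : S_HsP)
    (hD8 : S_D8) (hThU : S_ThU) : S_D6 := by
  intro k t _ m b hm hb hm6 Q hQ h3 hQm z hz hzu
  have hP : Q.IsPrime := hQ.1
  have hm2 : PrI m (sN k t 2) := D6_pr (by norm_num) hm6
  have hm3 : PrI m (sN k t 3) := D6_pr (by norm_num) hm6
  have hab : ¬ AbPb k t Q := fun h => h3 h.2.1
  obtain ⟨hnk, hun, hth⟩ := hThU k t m b hm hb hm3 Q hQ hab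
  obtain ⟨hIz, hVz, -, hfac⟩ := hth z hz hzu
  obtain ⟨hH, -⟩ := hB14 k t m b hm hb hm2
  obtain ⟨-, -, -, -, -, hcong, -⟩ := hD1 k t b hb Q hQ hab
  have hnot : ∀ u ∈ hs m b, ¬ IK Q b u := fun u hu =>
    hnk hQm u (hH.mem u hu).1 (hH.mem u hu).2
  have hu3 : ∀ u ∈ hs m b, VP Q (xO b u) ∧ UP Q (xO b z - xO b u) := fun u hu =>
    ⟨(hun u (hH.mem u hu).1 (hH.mem u hu).2 (hnot u hu)).1,
      (hfac u (hH.mem u hu).1 (hH.mem u hu).2).2 (hnot u hu)⟩
  have hVd : VP Q (dlO b) := (hR2 k t b hb Q hQ).2.2.1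
  constructor
  · intro z' hz'
    have hc := hcong z z' hz hIz hz'
    have hx : D6_C Q 1 (xO b (z + z')) (xO b z) := by
      refine ⟨?_, hVz, by rwa [pow_one]⟩
      have e : xO b (z + z') = (xO b (z + z') - xO b z) + xO b z := by ring
      rw [e]
      exact hc.vp.add hVz
    have h : D6_C Q 1 (Theta m b (z + z')) (Theta m b z) := by
      unfold Theta
      refine D6_prod (hs m b) _ _ fun u hu => ?_
      obtain ⟨h4, h5⟩ := hu3 u hu
      exact D6_fac D6_F1 (D6_refl1 hVd) hx (D6_refl1 h4) h5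
    have h6 := h.2.2
    rwa [pow_one] at h6
  · intro q l hq hl2 hl3 hQq
    obtain ⟨-, -, hd3, hx3⟩ := hD3 k t q l hq hl2 hl3 Q hQ hQq b hb
    have hlM : MP Q (l : Om) := ((hAbQ k t).2.2.2.2.2 Q q l hQ hq hQq).1
    have hF : D6_F Q l := D6_bin hq.2.2.1 hl2 hlM
    have hqp : q.IsPrime := hq.1
    have hqm : q.IsMaximal := hqp.isMaximal hq.2.1
    have hsup : q ⊔ m = ⊤ := by
      by_contra hne
      have h3 : q ⊔ m = q := (hqm.eq_of_le hne le_sup_left).symm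
      have h4 : m ≤ q := h3 ▸ le_sup_right
      exact hQm fun v hv => hQq v (h4 hv)
    have hqb : q * b ≠ ⊥ := mul_ne_zero hq.2.1 hb
    have hHq : IsHalf m (q * b) (hs m b) := (hHsP k t m b hm hb hm2).2.2.1 q (hs m b) hq.2.1 hsup hH
    have hth := ((hD8 k t m (q * b) hm hqb hm6).1 (hs m b) hHq z).symm
    have hcd : D6_C Q l (dlO (q * b)) (dlO b) := by
      refine ⟨?_, hVd, hd3⟩
      have e : dlO (q * b) = (dlO (q * b) - dlO b ^ l) + dlO b ^ l := by ring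
      rw [e]
      exact hd3.vp.add (hVd.pow l)
    have hcx : ∀ u : ℂ, Tor k t u → ¬ IK Q b u → VP Q (xO b u) →
        D6_C Q l (xO (q * b) u) (xO b u) := by
      intro u hu hI hV
      have h3 := (hx3 u hu hI).2
      refine ⟨?_, hV, h3⟩
      have e : xO (q * b) u = (xO (q * b) u - xO b u ^ l) + xO b u ^ l := by ring
      rw [e]
      exact h3.vp.add (hV.pow l)
    have h : D6_C Q l (Theta m (q * b) z) (Theta m b z) := by
      rw [hth]
      unfold Theta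
      refine D6_prod (hs m b) _ _ fun u hu => ?_
      obtain ⟨h4, h5⟩ := hu3 u hu
      have hTu : Tor k t u := tor_lam (mul_ne_zero hm hb) (hH.mem u hu).1
      exact D6_fac hF hcd (hcx z hz hIz hVz) (hcx u hTu (hnot u hu) h4) h5
    exact h.2.2

end Pool.Agent.DT
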