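import Pool.Agent.Lib.DT.D.SpecK

/-!
# Theorem DT (`p = 3`), part D: `S_D7`, the constant in the distribution of `Theta`
-/

set_option autoImplicit false

open scoped Pointwise nonZeroDivisors

noncomputable section

namespace Pool.Agent.DT

open Pool.Agent.MuZ Pool.Agent.FW NumberField IsDedekindDomain
open Pool.Agent.DI (io ofC io_inj exists_io io_ofC ofC_io VP MP UP TP ex)

/-- A product of numbers congruent to `c`. -/
private theorem D7_prod {P : Ideal ZZ} [hP : P.IsPrime] {c : Om} (hc : VP P c) (R : Finset ℂ)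
    (f : ℂ → Om) (h : ∀ u ∈ R, MP P (f u - c)) :
    VP P (∏ u ∈ R, f u) ∧ MP P (∏ u ∈ R, f u - c ^ R.card) := by
  classical
  induction R using Finset.induction_on with
  | empty =>
    rw [Finset.prod_empty, Finset.card_empty, pow_zero, sub_self]
    exact ⟨VP.one, MP.zero⟩
  | insert a s ha ih =>
    obtain ⟨h1, h2⟩ := ih fun u hu => h u (Finset.mem_insert_of_mem hu)
    have h3 := h a (Finset.mem_insert_self a s)
    have h4 : VP P (f a) := by
      have h5 := h3.vp.add hc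
      rwa [sub_add_cancel] at h5
    rw [Finset.prod_insert ha, Finset.card_insert_of_notMem ha]
    refine ⟨h4.mul h1, ?_⟩
    have e : f a * ∏ u ∈ s, f u - c ^ (s.card + 1) =
        (f a - c) * ∏ u ∈ s, f u + c * (∏ u ∈ s, f u - c ^ s.card) := by
      ring
    rw [e]
    exact (MP.mul_right h3 h1).add (MP.mul_left hc h2)

theorem sD7 (hO6 : S_O6) (hL3 : S_L3) (hL6a : S_L6a) (hThT : S_ThT) (hFer : S_Fer) (hD3 : S_D3)
    (hD5 : S_D5) (hD6 : S_D6) (hDis : S_Dis) : S_D7 := by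
  intro k t _ l m b hl hm hb hm6 hlm
  obtain ⟨C, hC0, hC⟩ := hDis k t l m b hl hm hb hm6 hlm
  refine ⟨C, hC0, hC, ?_⟩
  intro p Q hlp hp2 hp3 hQ hQl
  have hQ1 : Q.IsPrime := hQ.1
  obtain ⟨-, -, -, hQ3, -, -, hN⟩ := hFer k t l p hlp hp2 hp3 Q hQ hQl
  -- coprimality with `3`
  have hl3 : PrI l (sN k t 3) :=
    hN 3 ((Nat.coprime_primes Nat.prime_three hlp.2.2.1).2 (Ne.symm hp3))
  have hm3 : PrI m (sN k t 3) := by
    refine (hO6 k t).2.2.2.1 m (sN k t 6) (sN k t 3) ?_ hm6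
    refine Ideal.span_singleton_le_span_singleton.2 ⟨((2 : ℕ) : OO k t), ?_⟩
    rw [← Nat.cast_mul]
  have hlm3 : PrI (l * m) (sN k t 3) := ((hO6 k t).1 l m (sN k t 3)).2 ⟨hl3, hm3⟩
  have hlm0 : l * m ≠ ⊥ := by
    intro h
    rcases Ideal.mul_eq_bot.1 h with h | h
    · exact hl h
    · exact hm h
  -- `Q` is not above `m`
  have hQm : ¬ Abv Q m := by
    intro h
    have h1 : (1 : OO k t) ∈ l ⊔ m := by
      rw [hlm]
      trivial
    obtain ⟨v, hv, v', hv', e⟩ := Submodule.mem_sup.1 h1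
    have h2 : MP Q (toO v + toO v') := (hQl v hv).add (h v' hv')
    rw [← toO_add, e, toO_one] at h2
    exact MP.one_not h2
  -- the point `z`
  obtain ⟨-, hzn, hz3, -, -⟩ := (hL6a k t b hb).1
  set z : ℂ := ptT b with hz
  have hzT : Tor k t z := (tor_iff hb).2 ⟨3, by norm_num, by exact_mod_cast hz3⟩
  have hQp : ∀ u ∈ Lam (m * b), ¬ Qp Q b (z + u) := by
    intro u hu h
    obtain ⟨h1, -, -, -, h2⟩ := hThT k t m b hm hb
    have hcop := (h1 hm3).2
    have h3 : (NI m : ℂ) * u ∈ Lam b := h2 u hu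
    have h4 : toC (((3 : ℕ) : OO k t) * (NI m : OO k t)) * (z + u) ∈ Lam b := by
      rw [toC_mul, toC_nat, toC_nat]
      have e : ((3 : ℕ) : ℂ) * (NI m : ℂ) * (z + u) =
          (NI m : ℂ) * (3 * z) + ((3 : ℕ) : ℂ) * ((NI m : ℂ) * u) := by
        push_cast
        ring
      rw [e]
      exact lam_add (lam_nat _ hz3) (lam_nat _ h3)
    have h5 : toC (NI m : OO k t) * (z + u) ∈ Lam b := by
      refine h ((3 : ℕ) : OO k t) (NI m : OO k t) ?_ h4
      rw [toO_nat]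
      exact_mod_cast hQ3
    rw [toC_nat] at h5
    have h6 : (NI m : ℂ) * z ∈ Lam b := by
      have e : (NI m : ℂ) * z = (NI m : ℂ) * (z + u) - (NI m : ℂ) * u := by ring
      rw [e]
      exact lam_sub h5 h3
    obtain ⟨x, y, hxy⟩ := Nat.isCoprime_iff_coprime.2 hcop
    apply hzn
    have e : z = toC ((x : ℤ) : OO k t) * ((NI m : ℂ) * z) + toC ((y : ℤ) : OO k t) * (3 * z) := by
      rw [toC_int, toC_int]
      have h7 : ((x : ℂ) * (NI m : ℂ) + (y : ℂ) * 3) = 1 := by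
        exact_mod_cast congrArg (Int.cast : ℤ → ℂ) hxy
      linear_combination (-z) * h7
    rw [e]
    exact lam_add (lam_mul _ h6) (lam_mul _ hz3)
  have hzl : z ∉ Lam (l * m * b) := fun h =>
    hzn (((hThT k t (l * m) b hlm0 hb).1 hlm3).1 z h hz3)
  -- the unit `Theta m b z`
  have hU : UP Q (Theta m b z) := hD5 k t m b hm hb hm6 Q hQ z hzT hQp
  obtain ⟨hT1, hT2⟩ := hD6 k t m b hm hb hm6 Q hQ hQ3 hQm z hzT hQp
  obtain ⟨R, hR, hRc⟩ := (hL3 k t l b hl hb).2.2
  have hRp : R.card = p := hRc.trans hlp.2.2.2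
  have hIK := (hD3 k t l p hlp hp2 hp3 Q hQ hQl b hb).1
  have h1 : MP Q (∏ v ∈ R, Theta m b (z + v) - Theta m b z ^ R.card) :=
    (D7_prod hU.1 R (fun v => Theta m b (z + v)) fun v hv => hT1 v (hIK v (hR.mem v hv))).2
  rw [hC R hR z hzT hzl, hRp] at h1
  have h2 : MP Q (Theta m (l * b) z - Theta m b z ^ p) := hT2 l p hlp hp2 hp3 hQl
  have hU2 : UP Q (Theta m (l * b) z) := (hU.pow p).congr h2
  have h3 := MP.mul_right (h1.sub h2) hU2.inv.1
  have e : (C * Theta m (l * b) z - Theta m b z ^ p - (Theta m (l * b) z - Theta m b z ^ p)) *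
      (Theta m (l * b) z)⁻¹ = C - 1 := by
    have h4 := mul_inv_cancel₀ hU2.ne_zero
    linear_combination (C - 1) * h4
  rwa [e] at h3

end Pool.Agent.DT
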