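import Pool.Agent.Lib.DT.D.SpecM

/-!
# Theorem DT, part D, module D8: theta is well defined
-/

set_option autoImplicit false

open scoped Pointwise nonZeroDivisors

noncomputable section

namespace Pool.Agent.DT

open Pool.Agent.MuZ Pool.Agent.FW NumberField IsDedekindDomain
open Pool.Agent.DI (io ofC io_inj exists_io io_ofC ofC_io VP MP UP TP ex)

variable {k t : ℕ}

/-- Torsion prime to `3`. -/
private theorem D8_three [SqT k t] {m b : Ideal (OO k t)} (hm : PrI m (sN k t 3)) {z : ℂ}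
    (hz : z ∈ Lam (m * b)) (h3 : 3 * z ∈ Lam b) : z ∈ Lam b := by
  have h1 : (1 : OO k t) ∈ m ⊔ Ideal.span {((3 : ℕ) : OO k t)} := by
    rw [show m ⊔ Ideal.span {((3 : ℕ) : OO k t)} = ⊤ from hm]
    trivial
  obtain ⟨v, hv, y, hy, hvy⟩ := Submodule.mem_sup.1 h1
  obtain ⟨w, rfl⟩ := Ideal.mem_span_singleton.1 hy
  have e : z = toC v * z + toC w * (3 * z) := by
    have e1 := congrArg (fun x : OO k t => toC x) hvy
    simp only [toC_add, toC_mul, toC_nat, toC_one] at e1
    push_cast at e1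
    linear_combination (-z) * e1
  rw [e]
  exact lam_add (lam_prod.1 hz v hv) (lam_mul w h3)

/-- The ideal generated by a divisor. -/
private theorem D8_le {N M : ℕ} (h : M ∣ N) : sN k t N ≤ sN k t M := by
  refine Ideal.span_singleton_le_span_singleton.2 ?_
  exact_mod_cast Nat.cast_dvd_cast h

private theorem D8_pr {m : Ideal (OO k t)} {N M : ℕ} (h : M ∣ N) (hm : PrI m (sN k t N)) :
    PrI m (sN k t M) := by
  unfold PrI at hm ⊢
  rw [eq_top_iff, ← hm]
  exact sup_le_sup_left (D8_le h) m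

theorem sD8 (hL6 : S_L6a) (hB14 : S_B14) (hX : S_XOm) (hH : S_HsP) : S_D8 := by
  classical
  intro k t _ m b hm hb hm6
  have hm2 : PrI m (sN k t 2) := D8_pr (by norm_num) hm6
  have hm3 : PrI m (sN k t 3) := D8_pr (by norm_num) hm6
  have key : ∀ S : Finset ℂ, IsHalf m b S → ∀ z : ℂ,
      ∏ u ∈ S, dlO b * xO b u ^ 2 * ((xO b z - xO b u) ^ 2)⁻¹ = Theta m b z := by
    intro S hS z
    obtain ⟨⟨hper, hneg, -⟩, -⟩ := hX k t b hb
    refine ((hH k t m b hm hb hm2).1 S (hs m b) hS (hB14 k t m b hm hb hm2).1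
      (fun u => dlO b * xO b u ^ 2 * ((xO b z - xO b u) ^ 2)⁻¹) fun u _ => ⟨?_, fun l hl => ?_⟩).1
    · simp only [hneg]
    · simp only [hper u l hl]
  refine ⟨key, fun z => ⟨?_, fun l hl => ?_⟩, fun α z hα => ?_, fun z hz hzm => ?_⟩
  · obtain ⟨⟨-, hneg, -⟩, -⟩ := hX k t b hb
    simp only [Theta, hneg]
  · obtain ⟨⟨hper, -⟩, -⟩ := hX k t b hb
    simp only [Theta, hper z l hl]
  · have hspα : sp α ≠ ⊥ := fun h => hα (Ideal.span_singleton_eq_bot.1 h)
    have hab : sp α * b ≠ ⊥ := mul_ne_zero hspα hb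
    have h1 := (hH k t m b hm hb hm2).2.1 α (hs m (sp α * b)) hα (hB14 k t m _ hm hab hm2).1
    have h2 := key _ h1 (toC α * z)
    obtain ⟨-, -, -, -, -, -, -, -, -, hhom⟩ := hX k t b hb
    obtain ⟨hx, -, -, hd, -⟩ := hhom α hα
    rw [← h2, Finset.prod_image (fun x _ y _ hxy => mul_left_cancel₀ (toC_ne hα) hxy)]
    simp only [Theta, hx, hd]
  · obtain ⟨⟨-, -, -, hS0, -, -, hd0⟩, hinj, -⟩ := hX k t b hb
    obtain ⟨-, ⟨-, hSn, hS3, -⟩, -⟩ := hL6 k t b hb
    have hzb : z ∉ Lam b := fun h => hzm (lam_mono h)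
    have htS : Tor k t (ptS b) := (tor_iff hb).2 ⟨3, by norm_num, by exact_mod_cast hS3⟩
    refine Finset.prod_ne_zero_iff.2 fun u hu => ?_
    obtain ⟨hu1, hu2⟩ := (hB14 k t m b hm hb hm2).1.mem u hu
    have htu : Tor k t u := tor_lam (mul_ne_zero hm hb) hu1
    have hxu : xO b u ≠ 0 := by
      intro h0
      rw [← hS0] at h0
      apply hu2
      apply D8_three hm3 hu1
      rcases (hinj u (ptS b) htu htS hu2 hSn).1 h0 with h3 | h3
      · have e : 3 * u = (u - ptS b) + (u - ptS b) + (u - ptS b) + 3 * ptS b := by ring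
        rw [e]
        exact lam_add (lam_add (lam_add h3 h3) h3) hS3
      · have e : 3 * u = (u + ptS b) + (u + ptS b) + (u + ptS b) - 3 * ptS b := by ring
        rw [e]
        exact lam_sub (lam_add (lam_add h3 h3) h3) hS3
    refine mul_ne_zero (mul_ne_zero hd0 (pow_ne_zero _ hxu))
      (inv_ne_zero (pow_ne_zero _ (sub_ne_zero.2 fun he => ?_)))
    rcases (hinj z u hz htu hzb hu2).1 he with h3 | h3
    · exact hzm ((lam_sub_iff (lam_mono h3)).2 hu1)
    · have h4 := lam_sub (lam_mono (a := m) h3) hu1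
      rw [add_sub_cancel_right] at h4
      exact hzm h4

end Pool.Agent.DT
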