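import Pool.Agent.Lib.DT.D.SpecA
import Pool.Agent.Lib.DI.Val

/-!
# Theorem DT, part D, module D9: the framing and `g` at the primes above `𝔭`
-/

set_option autoImplicit false

open scoped Pointwise nonZeroDivisors

noncomputable section

namespace Pool.Agent.DT

open Pool.Agent.MuZ Pool.Agent.FW NumberField IsDedekindDomain
open Pool.Agent.DI (io ofC io_inj exists_io io_ofC ofC_io VP MP UP TP ex)

variable {k t : ℕ}

private theorem D9_not {P : Ideal ZZ} (h : AbP k t P) : ¬ AbPb k t P := by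
  intro h'
  have := h.1.1
  have h1 := DI.MP.add h.2.2 h'.2.2
  rw [add_sub_cancel] at h1
  exact DI.MP.one_not h1

private theorem D9_top (n : Ideal (OO k t)) : PrI (⊤ : Ideal (OO k t)) n := by
  unfold PrI
  exact top_sup_eq _

private theorem D9_sN {N M : ℕ} (h : M ∣ N) : sN k t N ≤ sN k t M := by
  rw [Ideal.span_singleton_le_span_singleton]
  exact Nat.cast_dvd_cast h

open Classical in
/-- The last claim of `S_B12` in `Om`. -/
private theorem D9_fr [SqT k t] (h2 : S_O6) (h6 : S_B12) (h8 : S_R1) (h10 : S_R4) (h11 : S_R5)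
    (b : Ideal (OO k t)) (hb : b ≠ ⊥) (hbp : PrI b (ppb k t)) (a : Ideal (OO k t)) (ha : a ≠ ⊥)
    (hap : PrI a (ppb k t)) (R : Finset ℂ) (hR : IsSys a b R) :
    aO b * rO b (a * b) = NI a * aO b + 3 * ∑ u ∈ R, (if u ∈ Lam b then 0 else (xO b u)⁻¹) := by
  have hab : a * b ≠ ⊥ := mul_ne_zero ha hb
  have habp : PrI (a * b) (ppb k t) := ((h2 k t).1 a b _).2 ⟨hap, hbp⟩
  obtain ⟨f1, -, f3, -⟩ := h11 k t ⊤ b (a * b) top_ne_bot hb hab (D9_top _) hbp habp
  obtain ⟨-, -, -, -, -, -, -, g8⟩ := h6 k t b hb hbp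
  obtain ⟨-, g9⟩ := g8 a ha hap R hR
  have e1 := (h8 k t b hb).1
  apply io_inj
  rw [map_mul, map_add, map_mul, map_mul, map_natCast, map_ofNat, map_sum, e1, f3]
  have e2 : ∑ u ∈ R, io (if u ∈ Lam b then 0 else (xO b u)⁻¹) =
      ∑ u ∈ R, (if u ∈ Lam b then 0 else 1 / XC b u) := by
    refine Finset.sum_congr rfl fun u hu => ?_
    split_ifs
    · exact map_zero _
    · rw [map_inv₀, (h10.1 k t b hb).2 u (tor_lam hab (hR.mem u hu)), one_div]
  rw [e2, ← mul_div_assoc, g9, mul_div_cancel_left₀ _ f1]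

/-- The system `{0, T, -T}`. -/
private theorem D9_sys [SqT k t] (h5 : S_L6a) (b : Ideal (OO k t)) (hb : b ≠ ⊥) :
    IsSys (pp k t) b {0, ptT b, -ptT b} := by
  obtain ⟨⟨a1, a2, -, a4, a5⟩, -⟩ := h5 k t b hb
  refine ⟨?_, ?_, ?_⟩
  · intro u hu
    simp only [Finset.mem_insert, Finset.mem_singleton] at hu
    rcases hu with rfl | rfl | rfl
    · exact lam_zero _
    · exact a1
    · exact lam_neg a1
  · intro z hz
    rcases a5 z hz with h | h | h
    · exact ⟨0, by simp, by rw [sub_zero]; exact h⟩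
    · exact ⟨ptT b, by simp, h⟩
    · exact ⟨-ptT b, by simp, by rw [sub_neg_eq_add]; exact h⟩
  · intro u hu u' hu' h
    simp only [Finset.mem_insert, Finset.mem_singleton] at hu hu'
    rcases hu with rfl | rfl | rfl <;> rcases hu' with rfl | rfl | rfl
    · rfl
    · rw [zero_sub, lam_neg_iff] at h
      exact absurd h a2
    · rw [zero_sub, neg_neg] at h
      exact absurd h a2
    · rw [sub_zero] at h
      exact absurd h a2
    · rfl
    · rw [sub_neg_eq_add] at h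
      exact absurd h a4
    · rw [sub_zero, lam_neg_iff] at h
      exact absurd h a2
    · rw [← neg_add', lam_neg_iff] at h
      exact absurd h a4
    · rfl

/-- **D9.** The framing and `g` at the primes above `𝔭`. -/
theorem sD9 (h1 : S_O4) (h2 : S_O6) (_h3 : S_L2) (h4 : S_L3) (h5 : S_L6a) (h6 : S_B12) (h7 : S_B14)
    (h8 : S_R1) (h9 : S_R2) (h10 : S_R4) (h11 : S_R5) (_h12 : S_AbQ) (_h13 : S_ThT) (h14 : S_XOm)
    (_h15 : S_DUn) (h16 : S_KSep) (_h17 : S_D1) (h18 : S_D2) : S_D9 := by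
  classical
  intro k t _ P hP b hb hbp
  have hP1 := hP.1.1
  have hPb : ¬ AbPb k t P := D9_not hP
  obtain ⟨o1, -, -, -, -, o6, -, o8, o9, o10, -⟩ := h1 k t
  obtain ⟨q1, q2, -, q4, -⟩ := h2 k t
  obtain ⟨-, -, -, -, d5, d6, d7, -, d9⟩ := h18 k t b hb P hP
  -- `pp` is prime to `ppb`
  have hpp : PrI (pp k t) (ppb k t) := o8
  have hppb : pp k t * b ≠ ⊥ := mul_ne_zero o9 hb
  have hppbp : PrI (pp k t * b) (ppb k t) := (q1 _ _ _).2 ⟨hpp, hbp⟩
  have hle : sN k t 3 ≤ ppb k t := by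
    rw [← o1]
    exact (Ideal.mul_le_right : pp k t * ppb k t ≤ ppb k t)
  have hA : UP P (aO b) := ((h9 k t b hb P hP.1).2.2.2.2 hP).1
  have hA' : UP P (aO (pp k t * b)) := ((h9 k t (pp k t * b) hppb P hP.1).2.2.2.2 hP).1
  have hA0 := DI.UP.ne_zero hA
  have hA0' := DI.UP.ne_zero hA'
  -- (iii)
  have hiii : rO b (pp k t * b) * (aO (pp k t * b) + 6) = 3 * aO (pp k t * b) := by
    have e := D9_fr h2 h6 h8 h10 h11 b hb hbp (pp k t) o9 hpp _ (D9_sys h5 b hb)
    obtain ⟨⟨-, a2, -, a4, -⟩, -⟩ := h5 k t b hb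
    obtain ⟨⟨-, x2, -⟩, -, -, -, -, -, -, ⟨x3, x4, -⟩, -⟩ := h14 k t b hb
    have x5 := (h14 k t (pp k t * b) hppb).2.2.2.2.2.2.1.1
    have n1 : ptT b ≠ 0 := by
      intro h
      apply a2
      rw [h]
      exact lam_zero b
    have n2 : ptT b ≠ -ptT b := by
      intro h
      apply a4
      nth_rewrite 2 [h]
      rw [add_neg_cancel]
      exact lam_zero b
    have n3 : (0 : ℂ) ≠ -ptT b := by
      intro h
      apply n1
      rw [← neg_eq_zero]
      exact h.symm
    rw [Finset.sum_insert (by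
        simp only [Finset.mem_insert, Finset.mem_singleton, not_or]
        exact ⟨n1.symm, n3⟩), Finset.sum_insert (by
        simp only [Finset.mem_singleton]
        exact n2), Finset.sum_singleton, if_pos (lam_zero b), if_neg a2,
      if_neg (fun h => a2 (lam_neg_iff.1 h)), x2, x4, o6] at e
    obtain ⟨r, hr⟩ : ∃ r : Om, r = rhO (pp k t * b) := ⟨_, rfl⟩
    obtain ⟨w, hw⟩ : ∃ w : Om, w = rO b (pp k t * b) := ⟨_, rfl⟩
    rw [← hr, ← hw] at e
    rw [← hr] at x3 x5
    rw [← hw]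
    have e2 : (-r / 3)⁻¹ = -3 / r := by
      field_simp
    rw [e2] at e
    have e3 : aO b * w * r = 3 * (aO b * r) - 18 := by
      rw [e]
      field_simp
      push_cast
      ring
    have e4 : aO b * w * r = w * (aO b * r) := by ring
    rw [e4, x3] at e3
    rw [e3]
    ring
  refine ⟨?_, ?_, hiii, ?_⟩
  · -- (i)
    intro a ha ha3
    have hap : PrI a (ppb k t) := q4 a _ _ hle ha3
    obtain ⟨-, -, R, hR, -⟩ := h4 k t a b ha hb
    have e := D9_fr h2 h6 h8 h10 h11 b hb hbp a ha hap R hR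
    refine ⟨(aO b)⁻¹ * ∑ u ∈ R, (if u ∈ Lam b then 0 else (xO b u)⁻¹), ?_, ?_⟩
    · refine DI.VP.mul (DI.UP.inv hA).1 (DI.VP.sum _ _ fun u hu => ?_)
      split_ifs with hu'
      · exact DI.VP.zero
      · exact (DI.UP.inv (d9 a ha ha3 u (hR.mem u hu) hu')).1
    · have e2 : rO b (a * b) = (aO b)⁻¹ * (aO b * rO b (a * b)) := by
        rw [← mul_assoc, inv_mul_cancel₀ hA0, one_mul]
      rw [e2, e]
      field_simp
      ring
  · -- (ii)
    obtain ⟨f1, -, f3, -⟩ := h11 k t ⊤ b (pp k t * b) top_ne_bot hb hppb (D9_top _) hbp hppbp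
    obtain ⟨f4, -, f5, -⟩ := h11 k t ⊤ (pp k t * b) b top_ne_bot hppb hb (D9_top _) hppbp hbp
    have e1 : rO (pp k t * b) b * rO b (pp k t * b) = 1 := by
      apply io_inj
      rw [map_mul, map_one, f3, f5]
      field_simp
    refine ⟨2 * (aO (pp k t * b))⁻¹, DI.VP.mul (DI.VP.nat 2) (DI.UP.inv hA').1, ?_⟩
    have e2 : rO (pp k t * b) b * (rO b (pp k t * b) * (aO (pp k t * b) + 6)) =
        rO (pp k t * b) b * (3 * aO (pp k t * b)) := by rw [hiii]
    rw [← mul_assoc, e1, one_mul] at e2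
    have e3 : 3 * rO (pp k t * b) b - 1 =
        (rO (pp k t * b) b * (3 * aO (pp k t * b)) - aO (pp k t * b)) * (aO (pp k t * b))⁻¹ := by
      field_simp
    rw [e3, ← e2]
    ring
  · -- (iv)
    intro m hm hm6 z hz hQ
    have hm3 : PrI m (sN k t 3) := q4 m _ _ (D9_sN (by norm_num)) hm6
    have hm2 : PrI m (sN k t 2) := q4 m _ _ (D9_sN (by norm_num)) hm6
    obtain ⟨hH, -⟩ := h7 k t m b hm hb hm2
    have hmb : m * b ≠ ⊥ := mul_ne_zero hm hb
    have hzm : z ∉ Lam (m * b) := by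
      intro h
      apply hQ (-z) (lam_neg h)
      intro α β _ _
      rw [add_neg_cancel, mul_zero]
      exact lam_zero b
    have hz0 : ¬ Qp P b z := by
      have := hQ 0 (lam_zero _)
      rwa [add_zero] at this
    obtain ⟨z1, z2⟩ := d7 z hz hz0
    have z3 : VP P (vO b z) := d6 z hz z1 hbp
    have hg : gO m b z = ∑ u ∈ hs m b, vO b z * (aO b * (xO b z - xO b u))⁻¹ :=
      (((h11 k t m b b hm hb hb hm6 hbp hbp).2.2.2 z hz).2.2 hzm).2
    rw [hg]
    refine DI.VP.sum _ _ fun u hu => DI.VP.mul z3 ?_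
    obtain ⟨u1, u2⟩ := hH.mem u hu
    have hut : Tor k t u := tor_lam hmb u1
    have hxu : UP P (xO b u) := d9 m hm hm3 u u1 u2
    have hu3 : ¬ IK P b u := by
      rintro ⟨-, h | h⟩
      · exact u2 h
      · exact h hxu.1
    have hup : UP P (xO b z - xO b u) := by
      refine ⟨DI.VP.sub z2 hxu.1, fun h => ?_⟩
      rcases h16 k t b hb P hP.1 hPb z u hz hut z1 hu3 h with h' | h'
      · exact (d7 (z + u) (tor_add hz hut) (hQ u u1)).1 h'
      · have h'' := hQ (-u) (lam_neg u1)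
        rw [← sub_eq_add_neg] at h''
        exact (d7 (z - u) (tor_sub hz hut) h'').1 h'
    exact (DI.UP.inv (DI.UP.mul hA hup)).1

end Pool.Agent.DT
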