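import Pool.Agent.Lib.DT.D.SpecK

/-!
# Theorem DT (`p = 3`), part D, module Dis: distribution of `Theta` up to a constant
-/

set_option autoImplicit false

open scoped Pointwise nonZeroDivisors

noncomputable section

namespace Pool.Agent.DT

open Pool.Agent.MuZ Pool.Agent.FW NumberField IsDedekindDomain
open Pool.Agent.DI (io ofC io_inj exists_io io_ofC ofC_io VP MP UP TP ex)

variable {k t : ℕ}

/-- products over two systems of representatives -/
private theorem Dis_sys {a b : Ideal (OO k t)} {R R' : Finset ℂ} (h : IsSys a b R)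
    (h' : IsSys a b R') (F : ℂ → Om) (hF : ∀ z, ∀ l ∈ Lam b, F (z + l) = F z) :
    ∏ v ∈ R, F v = ∏ v ∈ R', F v := by
  classical
  choose! e he using h'.ex
  refine Finset.prod_bij (fun v _ => e v) (fun v hv => (he v (h.mem v hv)).1) ?_ ?_ ?_
  · intro v hv w hw hvw
    refine h.uni v hv w hw ?_
    have h1 := (he v (h.mem v hv)).2
    have h2 := (he w (h.mem w hw)).2
    have hvw' : e v = e w := hvw
    rw [← hvw'] at h2
    have h3 := lam_sub h1 h2
    rwa [sub_sub_sub_cancel_right] at h3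
  · intro w hw
    obtain ⟨v, hv, hvw⟩ := h.ex w (h'.mem w hw)
    refine ⟨v, hv, ?_⟩
    refine h'.uni _ (he v (h.mem v hv)).1 _ hw ?_
    have h1 := lam_neg (lam_add hvw (he v (h.mem v hv)).2)
    have e1 : -(w - v + (v - e v)) = e v - w := by ring
    rwa [e1] at h1
  · intro v hv
    have h1 := hF (e v) _ (he v (h.mem v hv)).2
    rw [add_sub_cancel] at h1
    exact h1

/-- a torsion point outside of a given lattice -/
private theorem Dis_pt [SqT k t] (c : Ideal (OO k t)) (hc : c ≠ ⊥) :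
    ∃ z : ℂ, Tor k t z ∧ z ∉ Lam c := by
  obtain ⟨n, hn, hnc⟩ := exists_nat hc
  have hn' : (n : ℂ) ≠ 0 := by exact_mod_cast hn.ne'
  refine ⟨toC (1 : OO k t) / (2 * n : ℕ), tor_div (by omega) 1, fun h => ?_⟩
  obtain ⟨u, hu⟩ := h _ hnc
  rw [toC_nat, toC_one] at hu
  have h1 : toC ((2 : OO k t) * u) = toC (1 : OO k t) := by
    rw [toC_mul, toC_two, ← hu, toC_one]
    push_cast
    field_simp
  have h2 := congrArg QuadraticAlgebra.re (toC_inj h1)
  rw [re_mul, re_one] at h2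
  have h3 : ((2 : OO k t)).re = 2 := by
    have := re_nat (k := k) (t := t) 2
    exact_mod_cast this
  have h4 : ((2 : OO k t)).im = 0 := by
    have := im_nat (k := k) (t := t) 2
    exact_mod_cast this
  rw [h3, h4, mul_zero, zero_mul, sub_zero] at h2
  omega

/-- the function `Theta` over `ℂ` -/
private theorem Dis_io (hB14 : S_B14) (hR4 : S_R4) [SqT k t] (m b : Ideal (OO k t)) (hm : m ≠ ⊥)
    (hb : b ≠ ⊥) (h2 : PrI m (sN k t 2)) (z : ℂ) (hz : Tor k t z) :
    io (Theta m b z) = (∏ u ∈ hs m b, io (dlO b * xO b u ^ 2)) *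
      ((∏ u ∈ hs m b, (XC b z - XC b u)) ^ 2)⁻¹ := by
  have hmb : m * b ≠ ⊥ := fun h => (Ideal.mul_eq_bot.1 h).elim hm hb
  have hS := (hB14 k t m b hm hb h2).1
  unfold Theta
  rw [map_prod, ← Finset.prod_pow, ← Finset.prod_inv_distrib, ← Finset.prod_mul_distrib]
  refine Finset.prod_congr rfl fun u hu => ?_
  rw [map_mul, map_inv₀, map_pow, map_sub, (hR4.1 k t b hb).2 z hz,
    (hR4.1 k t b hb).2 u (tor_lam hmb (hS.mem u hu).1)]

theorem sDis (hO6 : S_O6) (hL3 : S_L3) (hB14 : S_B14) (hB16 : S_B16) (hR4 : S_R4)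
    (hD8 : S_D8) : S_Dis := by
  intro k t _ l m b hl hm hb h6 hlm
  have h2 : PrI m (sN k t 2) := by
    refine (hO6 k t).2.2.2.1 m (sN k t 6) (sN k t 2) ?_ h6
    rw [Ideal.span_singleton_le_span_singleton]
    exact ⟨3, by push_cast; norm_num⟩
  have hlb : l * b ≠ ⊥ := fun h => (Ideal.mul_eq_bot.1 h).elim hl hb
  have hlm0 : l * m ≠ ⊥ := fun h => (Ideal.mul_eq_bot.1 h).elim hl hm
  have hlmb : l * m * b ≠ ⊥ := fun h => (Ideal.mul_eq_bot.1 h).elim hlm0 hb
  obtain ⟨R0, hR0, _⟩ := (hL3 k t l b hl hb).2.2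
  obtain ⟨z0, hz0, hz0m⟩ := Dis_pt (l * m * b) hlmb
  obtain ⟨_, t3, _, t5⟩ := hD8 k t m b hm hb h6
  obtain ⟨_, _, _, s5⟩ := hD8 k t m (l * b) hm hlb h6
  have htor : ∀ v ∈ R0, Tor k t v := fun v hv => tor_lam hlb (hR0.mem v hv)
  have e : m * (l * b) = l * m * b := by rw [← mul_assoc, mul_comm m l]
  -- nonvanishing
  have hne1 : ∀ z : ℂ, Tor k t z → z ∉ Lam (l * m * b) → Theta m (l * b) z ≠ 0 := by
    intro z hz hz'
    refine s5 z hz ?_
    rwa [e]
  have hne2 : ∀ z : ℂ, Tor k t z → z ∉ Lam (l * m * b) → ∏ v ∈ R0, Theta m b (z + v) ≠ 0 := by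
    intro z hz hz'
    refine Finset.prod_ne_zero_iff.2 fun v hv => t5 _ (tor_add hz (htor v hv)) fun h => hz' ?_
    have h1 : z + v ∈ Lam (l * m * b) := by
      have := lam_mono (a := l) h
      rwa [← mul_assoc] at this
    have h3 : v ∈ Lam (l * m * b) := by
      have := lam_mono (a := m) (hR0.mem v hv)
      rwa [e] at this
    have := lam_sub h1 h3
    rwa [add_sub_cancel_right] at this
  -- the product over `ℂ`
  obtain ⟨c, hc, hcz⟩ := hB16 k t l m b hl hm hb h2 hlm R0 hR0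
  have hL : ∀ z : ℂ, Tor k t z → z ∉ Lam (l * m * b) → io (∏ v ∈ R0, Theta m b (z + v)) =
      (∏ _v ∈ R0, ∏ u ∈ hs m b, io (dlO b * xO b u ^ 2)) *
        ((c * ∏ u ∈ hs m (l * b), (XC (l * b) z - XC (l * b) u)) ^ 2)⁻¹ := by
    intro z hz hz'
    rw [← hcz z hz', map_prod, ← Finset.prod_pow, ← Finset.prod_inv_distrib,
      ← Finset.prod_mul_distrib]
    refine Finset.prod_congr rfl fun v hv => ?_
    exact Dis_io hB14 hR4 m b hm hb h2 _ (tor_add hz (htor v hv))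
  have hR : ∀ z : ℂ, Tor k t z → io (Theta m (l * b) z) =
      (∏ u ∈ hs m (l * b), io (dlO (l * b) * xO (l * b) u ^ 2)) *
        ((∏ u ∈ hs m (l * b), (XC (l * b) z - XC (l * b) u)) ^ 2)⁻¹ := fun z hz =>
    Dis_io hB14 hR4 m (l * b) hm hlb h2 z hz
  refine ⟨(∏ v ∈ R0, Theta m b (z0 + v)) / Theta m (l * b) z0,
    div_ne_zero (hne2 z0 hz0 hz0m) (hne1 z0 hz0 hz0m), fun R hRs z hz hz' => ?_⟩
  have hsys : ∏ v ∈ R, Theta m b (z + v) = ∏ v ∈ R0, Theta m b (z + v) := by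
    refine Dis_sys hRs hR0 (fun v => Theta m b (z + v)) fun w y hy => ?_
    rw [← add_assoc]
    exact (t3 _).2 y hy
  have hcross : (∏ v ∈ R0, Theta m b (z + v)) * Theta m (l * b) z0 =
      (∏ v ∈ R0, Theta m b (z0 + v)) * Theta m (l * b) z := by
    apply io_inj
    rw [map_mul, map_mul, hL z hz hz', hL z0 hz0 hz0m, hR z hz, hR z0 hz0, mul_pow, mul_pow,
      mul_inv, mul_inv]
    ring
  rw [hsys, div_mul_eq_mul_div, eq_div_iff (hne1 z0 hz0 hz0m), hcross]

end Pool.Agent.DT
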