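import Pool.Agent.Lib.DT.D.SpecK

/-!
# Theorem DT, part D, module Fer: the theorem of Fermat modulo `Q`
-/

set_option autoImplicit false

open scoped Pointwise nonZeroDivisors

noncomputable section

namespace Pool.Agent.DT

open Pool.Agent.MuZ Pool.Agent.FW NumberField IsDedekindDomain
open Pool.Agent.DI (io ofC io_inj exists_io io_ofC ofC_io VP MP UP TP ex)

private theorem Fer_fermat (l : ℕ) (hl : l.Prime) (n : ℤ) : (l : ℤ) ∣ n ^ l - n := by
  have : Fact l.Prime := ⟨hl⟩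
  rw [← ZMod.intCast_zmod_eq_zero_iff_dvd]
  push_cast
  rw [ZMod.pow_card, sub_self]

/-- The binomial formula modulo `l`. -/
private theorem Fer_add {Q : Ideal ZZ} [Q.IsPrime] {l : ℕ} (hl : l.Prime) (hlM : MP Q (l : Om))
    {x y : Om} (hx : VP Q x) (hy : VP Q y) : MP Q ((x + y) ^ l - (x ^ l + y ^ l)) := by
  have e : (x + y) ^ l - (x ^ l + y ^ l) = (l : Om) *
      ∑ j ∈ Finset.Ioo 0 l, x ^ j * y ^ (l - j) * ((l.choose j / l : ℕ) : Om) := by
    rw [add_pow_prime_eq' hl x y]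
    ring
  rw [e]
  refine DI.MP.mul_right hlM (DI.VP.sum _ _ fun j _ => ?_)
  exact ((hx.pow _).mul (hy.pow _)).mul (DI.VP.nat _)

/-- **Fer.** -/
theorem sFer (hAbQ : S_AbQ) : S_Fer := by
  intro k t _ q l hq hl2 hl3 Q hQ hAb
  have : Q.IsPrime := hQ.1
  have hl : l.Prime := hq.2.2.1
  obtain ⟨hlM, hun⟩ := (hAbQ k t).2.2.2.2.2 Q q l hQ hq hAb
  have hlZ : ∀ n : ℤ, (l : ℤ) ∣ n → MP Q (n : Om) := by
    rintro n ⟨j, rfl⟩
    push_cast
    exact DI.MP.mul_right hlM (DI.VP.int j)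
  have hodd : Odd l := hl.odd_of_ne_two hl2
  have hM2 : ¬ MP Q 2 := by
    have h1 : ¬ (l : ℤ) ∣ 2 := by
      intro h
      have h2 : l ∣ 2 := by exact_mod_cast h
      rcases (Nat.dvd_prime Nat.prime_two).1 h2 with h3 | h3
      · exact hl.one_lt.ne' h3
      · exact hl2 h3
    have h2 := (hun 2 h1).2
    exact_mod_cast h2
  have hM3 : ¬ MP Q 3 := by
    have h1 : ¬ (l : ℤ) ∣ 3 := by
      intro h
      have h2 : l ∣ 3 := by exact_mod_cast h
      rcases (Nat.dvd_prime Nat.prime_three).1 h2 with h3 | h3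
      · exact hl.one_lt.ne' h3
      · exact hl3 h3
    have h2 := (hun 3 h1).2
    exact_mod_cast h2
  have hF : ∀ n : ℤ, MP Q ((n : Om) ^ l - n) := by
    intro n
    have h1 := hlZ _ (Fer_fermat l hl n)
    push_cast at h1
    exact h1
  refine ⟨?_, ?_, hM2, hM3, fun h => hM3 h.2.1, fun h => hM3 h.2.1, ?_⟩
  · intro n m hm
    have hu : UP Q (m : Om) := ⟨DI.VP.int m, hm⟩
    have hq0 := hu.ne_zero
    have e : ((n : Om) / m) ^ l - (n : Om) / m =
        (((n : Om) ^ l - n) * m - ((m : Om) ^ l - m) * n) * ((m : Om) * (m : Om) ^ l)⁻¹ := by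
      have hq1 : (m : Om) ^ l ≠ 0 := pow_ne_zero _ hq0
      rw [div_pow, ← div_eq_mul_inv, div_sub_div _ _ hq1 hq0,
        div_eq_div_iff (mul_ne_zero hq1 hq0) (mul_ne_zero hq0 hq1)]
      ring
    rw [e]
    exact DI.MP.mul_right ((DI.MP.mul_right (hF n) (DI.VP.int m)).sub
      (DI.MP.mul_right (hF m) (DI.VP.int n))) (hu.mul (hu.pow l)).inv.1
  · intro x y hx hy
    refine ⟨Fer_add hl hlM hx hy, ?_, ?_⟩
    · have h1 := Fer_add hl hlM hx hy.neg
      rw [hodd.neg_pow] at h1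
      have e : (x - y) ^ l - (x ^ l - y ^ l) = (x + -y) ^ l - (x ^ l + -y ^ l) := by ring
      rw [e]
      exact h1
    · intro hxy
      have h1 : x - y ∣ x ^ l - y ^ l := sub_dvd_pow_sub_pow x y l
      have e : x ^ l - y ^ l = (x - y) * ∑ i ∈ Finset.range l, x ^ i * y ^ (l - 1 - i) := by
        rw [← (Commute.all x y).geom_sum₂_mul l]
        ring
      rw [e]
      refine DI.MP.mul_right hxy (DI.VP.sum _ _ fun i _ => ?_)
      exact (hx.pow _).mul (hy.pow _)
  · intro N hN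
    have hmem : (l : OO k t) ∈ q := by
      have h1 : Nat.card (OO k t ⧸ q) • (1 : OO k t ⧸ q) = 0 := card_nsmul_eq_zero'
      have h2 : Nat.card (OO k t ⧸ q) = l := hq.2.2.2
      rw [h2, nsmul_one] at h1
      rw [← Ideal.Quotient.eq_zero_iff_mem, map_natCast]
      exact h1
    obtain ⟨x, y, hxy⟩ := Nat.isCoprime_iff_coprime.2 hN
    unfold PrI
    rw [Ideal.eq_top_iff_one]
    have e : (1 : OO k t) = (x : OO k t) * (N : OO k t) + (y : OO k t) * (l : OO k t) := by
      have h1 := congrArg (fun n : ℤ => (n : OO k t)) hxy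
      simp only [Int.cast_add, Int.cast_mul, Int.cast_natCast, Int.cast_one] at h1
      exact h1.symm
    rw [e, add_comm]
    exact Ideal.add_mem _ (Ideal.mem_sup_left (Ideal.mul_mem_left _ _ hmem))
      (Ideal.mem_sup_right (Ideal.mul_mem_left _ _ (Ideal.mem_span_singleton_self _)))

end Pool.Agent.DT
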