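import Pool.Agent.Lib.DT.D.SpecM

/-!
# Theorem DT, part D: products over half systems (module `HsP`)
-/

set_option autoImplicit false

open scoped Pointwise

noncomputable section

namespace Pool.Agent.DT

open Pool.Agent.MuZ Pool.Agent.FW NumberField
open Pool.Agent.DI (io ofC io_inj exists_io io_ofC ofC_io VP MP UP TP ex)

variable {k t : ℕ}

/-- congruence modulo sign and lattice -/
private def HsP_eq (b : Ideal (OO k t)) (z z' : ℂ) : Prop := z - z' ∈ Lam b ∨ z + z' ∈ Lam b

private theorem HsP_symm {b : Ideal (OO k t)} {z z' : ℂ} (h : HsP_eq b z z') : HsP_eq b z' z := by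
  rcases h with h | h
  · left
    rw [← neg_sub]
    exact lam_neg h
  · right
    rwa [add_comm]

private theorem HsP_trans {b : Ideal (OO k t)} {z z' z'' : ℂ} (h : HsP_eq b z z')
    (h' : HsP_eq b z' z'') : HsP_eq b z z'' := by
  rcases h with h | h <;> rcases h' with h' | h'
  · left
    have e : z - z'' = (z - z') + (z' - z'') := by ring
    rw [e]
    exact lam_add h h'
  · right
    have e : z + z'' = (z - z') + (z' + z'') := by ring
    rw [e]
    exact lam_add h h'
  · right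
    have e : z + z'' = (z + z') - (z' - z'') := by ring
    rw [e]
    exact lam_sub h h'
  · left
    have e : z - z'' = (z + z') - (z' + z'') := by ring
    rw [e]
    exact lam_sub h h'

private theorem HsP_1 (m b : Ideal (OO k t)) (S S' : Finset ℂ) (hS : IsHalf m b S)
    (hS' : IsHalf m b S') (F : ℂ → Om)
    (hF : ∀ z ∈ Lam (m * b), F (-z) = F z ∧ ∀ l ∈ Lam b, F (z + l) = F z) :
    ∏ u ∈ S, F u = ∏ u ∈ S', F u ∧ ∑ u ∈ S, F u = ∑ u ∈ S', F u := by
  classical
  have hex : ∀ u ∈ S, ∃ u' ∈ S', HsP_eq b u u' := fun u hu =>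
    hS'.ex u (hS.mem u hu).1 (hS.mem u hu).2
  choose! e he1 he2 using hex
  have h1 : ∀ u (_ : u ∈ S) u' (_ : u' ∈ S), e u = e u' → u = u' := by
    intro u hu u' hu' h
    apply hS.uni u hu u' hu'
    have h1 := he2 u hu
    have h2 := he2 u' hu'
    rw [← h] at h2
    exact HsP_trans h1 (HsP_symm h2)
  have h2 : ∀ u' ∈ S', ∃ u, ∃ _ : u ∈ S, e u = u' := by
    intro u' hu'
    obtain ⟨u, hu, h⟩ := hS.ex u' (hS'.mem u' hu').1 (hS'.mem u' hu').2
    refine ⟨u, hu, ?_⟩
    apply hS'.uni (e u) (he1 u hu) u' hu'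
    exact HsP_symm (HsP_trans h (he2 u hu))
  have h3 : ∀ u ∈ S, F u = F (e u) := by
    intro u hu
    have hm := (hS'.mem (e u) (he1 u hu)).1
    rcases he2 u hu with h | h
    · have h1 := (hF (e u) hm).2 _ h
      rwa [add_sub_cancel] at h1
    · have h1 := (hF (-e u) (lam_neg hm)).2 _ h
      have e1 : -e u + (u + e u) = u := by ring
      rw [e1] at h1
      rw [h1]
      exact (hF (e u) hm).1
  exact ⟨Finset.prod_bij (fun u _ => e u) he1 h1 h2 h3, Finset.sum_bij (fun u _ => e u) he1 h1 h2 h3⟩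

private theorem HsP_2 [SqT k t] (m b : Ideal (OO k t)) (α : OO k t) (S : Finset ℂ) (hα : α ≠ 0)
    (hS : IsHalf m (sp α * b) S) : IsHalf m b (S.image fun u => toC α * u) := by
  have hc : m * (sp α * b) = sp α * (m * b) := mul_left_comm _ _ _
  have hα' : toC α ≠ 0 := toC_ne hα
  refine ⟨?_, ?_, ?_⟩
  · intro z hz
    obtain ⟨u, hu, rfl⟩ := Finset.mem_image.1 hz
    obtain ⟨h1, h2⟩ := hS.mem u hu
    rw [hc, lam_sp] at h1
    rw [lam_sp] at h2
    exact ⟨h1, h2⟩
  · intro z hz hz'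
    have e : toC α * (z / toC α) = z := mul_div_cancel₀ z hα'
    obtain ⟨u, hu, h⟩ := hS.ex (z / toC α) (by rw [hc, lam_sp, e]; exact hz)
      (by rw [lam_sp, e]; exact hz')
    refine ⟨toC α * u, Finset.mem_image_of_mem _ hu, ?_⟩
    rw [lam_sp, lam_sp, mul_sub, mul_add, e] at h
    exact h
  · intro z hz z' hz' h
    obtain ⟨u, hu, rfl⟩ := Finset.mem_image.1 hz
    obtain ⟨u', hu', rfl⟩ := Finset.mem_image.1 hz'
    rw [← mul_sub, ← mul_add, ← lam_sp, ← lam_sp] at h
    rw [hS.uni u hu u' hu' h]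

private theorem HsP_split [SqT k t] (v v' : OO k t) (h : v + v' = 1) (z : ℂ) :
    z = toC v * z + toC v' * z := by
  rw [← add_mul, ← toC_add, h, toC_one, one_mul]

private theorem HsP_3 [SqT k t] (m b a : Ideal (OO k t)) (S : Finset ℂ) (ha : a ⊔ m = ⊤)
    (hS : IsHalf m b S) : IsHalf m (a * b) S := by
  have h1 : (1 : OO k t) ∈ a ⊔ m := by rw [ha]; exact trivial
  obtain ⟨v, hv, v', hv', hvv⟩ := Submodule.mem_sup.1 h1
  have hint : ∀ z : ℂ, z ∈ Lam (m * b) → z ∈ Lam (a * b) → z ∈ Lam b := by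
    intro z hz hz'
    rw [HsP_split v v' hvv z]
    exact lam_add (lam_prod.1 hz' v hv) (lam_prod.1 hz v' hv')
  have hc : m * (a * b) = a * (m * b) := mul_left_comm _ _ _
  refine ⟨?_, ?_, ?_⟩
  · intro u hu
    obtain ⟨h2, h3⟩ := hS.mem u hu
    refine ⟨?_, fun h4 => h3 (hint u h2 h4)⟩
    rw [hc]
    exact lam_mono h2
  · intro z hz hz'
    have h2 : toC v * z ∈ Lam (m * b) := by
      rw [hc] at hz
      exact lam_prod.1 hz v hv
    have h3 : toC v' * z ∈ Lam (a * b) := lam_prod.1 hz v' hv'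
    obtain ⟨u, hu, h⟩ := hS.ex (toC v * z) h2 (by
      intro h4
      apply hz'
      rw [HsP_split v v' hvv z]
      exact lam_add (lam_mono h4) h3)
    refine ⟨u, hu, ?_⟩
    rcases h with h | h
    · left
      have e : z - u = (toC v * z - u) + toC v' * z := by
        linear_combination HsP_split v v' hvv z
      rw [e]
      exact lam_add (lam_mono h) h3
    · right
      have e : z + u = (toC v * z + u) + toC v' * z := by
        linear_combination HsP_split v v' hvv z
      rw [e]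
      exact lam_add (lam_mono h) h3
  · intro u hu u' hu' h
    apply hS.uni u hu u' hu'
    have h2 := (hS.mem u hu).1
    have h3 := (hS.mem u' hu').1
    rcases h with h | h
    · exact Or.inl (hint _ (lam_sub h2 h3) h)
    · exact Or.inr (hint _ (lam_add h2 h3) h)

private theorem HsP_4 [SqT k t] (m b : Ideal (OO k t)) (v : OO k t) (S : Finset ℂ) (hv : sp v ⊔ m = ⊤)
    (hS : IsHalf m b S) : IsHalf m b (S.image fun u => toC v * u) := by
  have h1 : (1 : OO k t) ∈ sp v ⊔ m := by rw [hv]; exact trivial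
  obtain ⟨y, hy, v', hv', hvv⟩ := Submodule.mem_sup.1 h1
  obtain ⟨w, rfl⟩ := Ideal.mem_span_singleton'.1 hy
  have hspl : ∀ z : ℂ, z = toC w * (toC v * z) + toC v' * z := by
    intro z
    rw [← mul_assoc, ← toC_mul]
    exact HsP_split (w * v) v' hvv z
  have hinj : ∀ z : ℂ, z ∈ Lam (m * b) → toC v * z ∈ Lam b → z ∈ Lam b := by
    intro z hz hz'
    rw [hspl z]
    exact lam_add (lam_mul w hz') (lam_prod.1 hz v' hv')
  refine ⟨?_, ?_, ?_⟩
  · intro z hz
    obtain ⟨u, hu, rfl⟩ := Finset.mem_image.1 hz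
    obtain ⟨h2, h3⟩ := hS.mem u hu
    exact ⟨lam_mul v h2, fun h4 => h3 (hinj u h2 h4)⟩
  · intro z hz hz'
    have h3 : toC v' * z ∈ Lam b := lam_prod.1 hz v' hv'
    obtain ⟨u, hu, h⟩ := hS.ex (toC w * z) (lam_mul w hz) (by
      intro h4
      apply hz'
      have e : z = toC v * (toC w * z) + toC v' * z := by
        conv_lhs => rw [hspl z]
        ring
      rw [e]
      exact lam_add (lam_mul v h4) h3)
    refine ⟨toC v * u, Finset.mem_image_of_mem _ hu, ?_⟩
    rcases h with h | h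
    · left
      have e : z - toC v * u = toC v * (toC w * z - u) + toC v' * z := by
        linear_combination hspl z
      rw [e]
      exact lam_add (lam_mul v h) h3
    · right
      have e : z + toC v * u = toC v * (toC w * z + u) + toC v' * z := by
        linear_combination hspl z
      rw [e]
      exact lam_add (lam_mul v h) h3
  · intro z hz z' hz' h
    obtain ⟨u, hu, rfl⟩ := Finset.mem_image.1 hz
    obtain ⟨u', hu', rfl⟩ := Finset.mem_image.1 hz'
    have h2 := (hS.mem u hu).1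
    have h3 := (hS.mem u' hu').1
    rw [← mul_sub, ← mul_add] at h
    have : u = u' := by
      apply hS.uni u hu u' hu'
      rcases h with h | h
      · exact Or.inl (hinj _ (lam_sub h2 h3) h)
      · exact Or.inr (hinj _ (lam_add h2 h3) h)
    rw [this]

private theorem HsP_5 [SqT k t] (m b : Ideal (OO k t)) (hm : cjI (m * b) = cjI m * cjI b)
    (hL : ∀ z : ℂ, z ∈ Lam (cjI b) ↔ (starRingEnd ℂ) z ∈ Lam b)
    (hL' : ∀ z : ℂ, z ∈ Lam (cjI (m * b)) ↔ (starRingEnd ℂ) z ∈ Lam (m * b)) (S : Finset ℂ)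
    (hS : IsHalf m b S) : IsHalf (cjI m) (cjI b) (S.image fun u => (starRingEnd ℂ) u) := by
  refine ⟨?_, ?_, ?_⟩
  · intro z hz
    obtain ⟨u, hu, rfl⟩ := Finset.mem_image.1 hz
    obtain ⟨h1, h2⟩ := hS.mem u hu
    rw [← hm, hL', hL, Complex.conj_conj]
    exact ⟨h1, h2⟩
  · intro z hz hz'
    rw [← hm, hL'] at hz
    rw [hL] at hz'
    obtain ⟨u, hu, h⟩ := hS.ex _ hz hz'
    refine ⟨(starRingEnd ℂ) u, Finset.mem_image_of_mem _ hu, ?_⟩
    rw [hL, hL, map_sub, map_add, Complex.conj_conj]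
    exact h
  · intro z hz z' hz' h
    obtain ⟨u, hu, rfl⟩ := Finset.mem_image.1 hz
    obtain ⟨u', hu', rfl⟩ := Finset.mem_image.1 hz'
    rw [hL, hL, map_sub, map_add, Complex.conj_conj, Complex.conj_conj] at h
    rw [hS.uni u hu u' hu' h]

/-- **Products over half systems.** -/
theorem sHsP (h3 : S_O3) (h2 : S_L2) : S_HsP := by
  intro k t _ m b hm hb hm2
  refine ⟨fun S S' hS hS' F hF => HsP_1 m b S S' hS hS' F hF,
    fun α S hα hS => HsP_2 m b α S hα hS, fun a S _ ha hS => HsP_3 m b a S ha hS,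
    fun v S hv hS => HsP_4 m b v S hv hS, fun S hS => HsP_5 m b ((h3 k t).2.1 m b)
      (fun z => (h2 k t).2.2.2.2.2.2.2.1 b z) (fun z => (h2 k t).2.2.2.2.2.2.2.1 (m * b) z) S hS⟩

end Pool.Agent.DT
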