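import Pool.Agent.Lib.DT.D.SpecA

/-!
# Theorem DT, part D, module KN3: the kernel of reduction and the two isogenies of degree three
-/

set_option autoImplicit false

open scoped Pointwise

noncomputable section

namespace Pool.Agent.DT

open Pool.Agent.MuZ Pool.Agent.FW NumberField IsDedekindDomain
open Pool.Agent.DI (io ofC io_inj exists_io io_ofC ofC_io VP MP UP TP ex)

private theorem KN3_pp {k t : ℕ} {b : Ideal (OO k t)} [SqT k t] (hb : b ≠ ⊥) : pp k t * b ≠ ⊥ := by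
  have h1 : pp k t ≠ ⊥ := by
    intro h
    have h2 : (3 : OO k t) ∈ pp k t := Ideal.subset_span (by simp)
    rw [h, Ideal.mem_bot] at h2
    have h3 : ((3 : ℕ) : OO k t).re = (0 : OO k t).re := by
      rw [show ((3 : ℕ) : OO k t) = 3 by norm_num, h2]
    rw [re_nat] at h3
    have h4 : (0 : OO k t).re = 0 := rfl
    rw [h4] at h3
    norm_num at h3
  exact mul_ne_zero h1 hb

/-- Pure algebra: the isogeny of degree three with kernel generated by `S`. -/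
private theorem KN3_alg1 {Q : Ideal ZZ} (hP : Npr Q) {X X' A r : Om} (hX0 : X ≠ 0)
    (hX : MP Q X⁻¹) (hA : VP Q A) (hr : VP Q r)
    (h : X' * (r ^ 2 * X ^ 2) = X ^ 3 - (A + 3) * X ^ 2 + A * X + 1) : ¬ VP Q X' := by
  have := hP.1
  intro hv
  have e : X' * r ^ 2 * X⁻¹ = 1 - (A + 3) * X⁻¹ + A * X⁻¹ * X⁻¹ + X⁻¹ * X⁻¹ * X⁻¹ := by
    have e1 : X' * r ^ 2 * X⁻¹ = X' * (r ^ 2 * X ^ 2) * (X⁻¹) ^ 3 := by
      field_simp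
    rw [e1, h]
    field_simp
  have v3 : VP Q (3 : Om) := DI.VP.nat 3
  have vc : VP Q X⁻¹ := DI.MP.vp hX
  have h2 : MP Q (X' * r ^ 2 * X⁻¹) := DI.MP.mul_left (DI.VP.mul hv (DI.VP.pow hr 2)) hX
  have h3 : MP Q ((A + 3) * X⁻¹) := DI.MP.mul_left (DI.VP.add hA v3) hX
  have h4 : MP Q (A * X⁻¹ * X⁻¹) := DI.MP.mul_left (DI.VP.mul hA vc) hX
  have h5 : MP Q (X⁻¹ * X⁻¹ * X⁻¹) := DI.MP.mul_left (DI.VP.mul vc vc) hX
  have h6 : MP Q (X' * r ^ 2 * X⁻¹ + (A + 3) * X⁻¹ - A * X⁻¹ * X⁻¹ - X⁻¹ * X⁻¹ * X⁻¹) :=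
    DI.MP.sub (DI.MP.sub (DI.MP.add h2 h3) h4) h5
  have e2 : X' * r ^ 2 * X⁻¹ + (A + 3) * X⁻¹ - A * X⁻¹ * X⁻¹ - X⁻¹ * X⁻¹ * X⁻¹ = 1 := by
    rw [e]
    ring
  rw [e2] at h6
  exact DI.MP.one_not h6

/-- Pure algebra: the isogeny of degree three with kernel generated by `T`. -/
private theorem KN3_alg2 {Q : Ideal ZZ} (hP : Npr Q) {X X' A r : Om} (hX0 : X ≠ 0)
    (hX : MP Q X⁻¹) (hA : VP Q A) (hr : UP Q r)
    (h : X' * (3 * X + r) ^ 2 = X * (r ^ 2 * X ^ 2 + 3 * (A + 3) * X + 3 * r)) : ¬ VP Q X' := by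
  have := hP.1
  intro hv
  have e : X' * (3 + r * X⁻¹) ^ 2 * X⁻¹ =
      r ^ 2 + (3 * (A + 3) * X⁻¹ + 3 * r * X⁻¹ * X⁻¹) := by
    have e1 : X' * (3 + r * X⁻¹) ^ 2 * X⁻¹ = X' * (3 * X + r) ^ 2 * (X⁻¹) ^ 3 := by
      field_simp
    rw [e1, h]
    field_simp
    ring
  have v3 : VP Q (3 : Om) := DI.VP.nat 3
  have vc : VP Q X⁻¹ := DI.MP.vp hX
  have h2 : MP Q (X' * (3 + r * X⁻¹) ^ 2 * X⁻¹) :=
    DI.MP.mul_left (DI.VP.mul hv (DI.VP.pow (DI.VP.add v3 (DI.VP.mul hr.1 vc)) 2)) hX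
  have h3 : MP Q (3 * (A + 3) * X⁻¹ + 3 * r * X⁻¹ * X⁻¹) :=
    DI.MP.add (DI.MP.mul_left (DI.VP.mul v3 (DI.VP.add hA v3)) hX)
      (DI.MP.mul_left (DI.VP.mul (DI.VP.mul v3 hr.1) vc) hX)
  have h4 : UP Q (r ^ 2 + (3 * (A + 3) * X⁻¹ + 3 * r * X⁻¹ * X⁻¹)) := by
    refine DI.UP.congr (DI.UP.pow hr 2) ?_
    rw [add_sub_cancel_left]
    exact h3
  rw [e] at h2
  exact h4.2 h2

theorem sKN3 (h1 : S_XOm) (h2 : S_DUn) : S_KN3 := by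
  intro k t _ b hb Q hQ hA z hz
  have := hQ.1
  obtain ⟨ht, hz⟩ := hz
  rcases hz with hz | hz
  · exact ⟨⟨ht, Or.inl (lam_mono hz)⟩, ⟨ht, Or.inl (lam_mono hz)⟩⟩
  obtain ⟨hX0, hXi⟩ := DI.VP.not_iff.1 hz
  obtain ⟨-, -, -, -, -, -, ⟨-, -, -, -, hS⟩, ⟨-, -, -, -, hT⟩, -⟩ := h1 k t b hb
  obtain ⟨d1, d2, -, -, -, -⟩ := h2 k t b hb Q hQ hA
  obtain ⟨d1', d2', -, -, -, -⟩ := h2 k t (pp k t * b) (KN3_pp hb) Q hQ hA
  refine ⟨⟨ht, ?_⟩, ⟨ht, ?_⟩⟩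
  · by_cases h3 : z ∈ Lam (ppb k t * b)
    · exact Or.inl h3
    · exact Or.inr (KN3_alg1 hQ hX0 hXi d1 d2.1 (hS z ht h3))
  · by_cases h3 : z ∈ Lam (pp k t * b)
    · exact Or.inl h3
    · exact Or.inr (KN3_alg2 hQ hX0 hXi d1' d2' (hT z ht h3).2)

end Pool.Agent.DT
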