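import Pool.Agent.Lib.DT.D.SpecA

/-!
# Theorem DT, part D, module KNq: the kernel and isogenies of degree prime to three
-/

set_option autoImplicit false

open scoped Pointwise nonZeroDivisors

noncomputable section

namespace Pool.Agent.DT

open Pool.Agent.MuZ Pool.Agent.FW NumberField IsDedekindDomain
open Pool.Agent.DI (io ofC io_inj exists_io io_ofC ofC_io VP MP UP TP ex)

/-- The point `S` is in the kernel if its multiple by an integer prime to three is. -/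
private theorem KNq_third {k t : ℕ} [SqT k t] {Q : Ideal ZZ} {b : Ideal (OO k t)}
    (hK : (∀ z z' : ℂ, IK Q b z → IK Q b z' → IK Q b (z + z')) ∧ (∀ z : ℂ, IK Q b z → IK Q b (-z)) ∧
      (∀ z ∈ Lam b, IK Q b z) ∧ ∀ (n : ℕ) (z : ℂ), IK Q b z → IK Q b (n * z)) {n : ℕ}
    (hn : n.Coprime 3) {u : ℂ} (h3 : IK Q b (3 * u)) (hu : IK Q b ((n : ℂ) * u)) : IK Q b u := by
  have h3n : ¬ 3 ∣ n := by
    rw [Nat.coprime_comm, Nat.Prime.coprime_iff_not_dvd Nat.prime_three] at hn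
    exact hn
  have hcase : n = 3 * (n / 3) + 1 ∨ n = 3 * (n / 3) + 2 := by omega
  obtain ⟨m, hm⟩ : ∃ m : ℕ, m = n / 3 := ⟨_, rfl⟩
  rw [← hm] at hcase
  have h4 := hK.2.1 _ (hK.2.2.2 m _ h3)
  have h5 := hK.1 _ _ hu h4
  rcases hcase with h | h
  · have e : (n : ℂ) * u + -((m : ℂ) * (3 * u)) = u := by
      rw [h]
      push_cast
      ring
    rwa [e] at h5
  · have e : 3 * u + -((n : ℂ) * u + -((m : ℂ) * (3 * u))) = u := by
      rw [h]
      push_cast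
      ring
    have h6 := hK.1 _ _ h3 (hK.2.1 _ h5)
    rwa [e] at h6

theorem sKNq (h1 : S_L3) (h2 : S_ThT) (h3 : S_XOm) (_h4 : S_DUn) (h5 : S_KSub) (h6 : S_KRed)
    (h7 : S_KSep) (h8 : S_KTS) (h9 : S_PrC) : S_KNq := by
  intro k t _ a b ha hb ha3 Q hQ hQb
  have : Q.IsPrime := hQ.1
  have hab : a * b ≠ ⊥ := mul_ne_zero (M₀ := Ideal (OO k t)) ha hb
  have hK := h5 k t b hb Q hQ hQb
  obtain ⟨t1, -, -, -, t5⟩ := h2 k t a b ha hb
  have hcop := (t1 ha3).2
  obtain ⟨-, hTS, -, h3S, hnS, -⟩ := h8 k t b hb Q hQ hQb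
  have hxS : xO b (ptS b) = 0 := (h3 k t b hb).1.2.2.2.1
  have hone : ∀ u ∈ Lam (a * b), ¬ IK Q b u → UP Q (xO b u) := by
    intro u hu hnu
    have htu : Tor k t u := tor_lam hab hu
    have hv : VP Q (xO b u) := by
      by_contra h
      exact hnu ⟨htu, Or.inr h⟩
    refine ⟨hv, fun hm => hnS ?_⟩
    have e1 : MP Q (xO b u - xO b (ptS b)) := by
      rw [hxS, sub_zero]
      exact hm
    have hnu' : IK Q b ((NI a : ℂ) * u) := hK.2.2.1 _ (t5 u hu)
    have h3S' : IK Q b (3 * ptS b) := hK.2.2.1 _ h3S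
    refine KNq_third hK hcop h3S' ?_
    rcases h7 k t b hb Q hQ hQb u (ptS b) htu hTS hnu hnS e1 with h | h
    · have e2 := hK.1 _ _ (hK.2.2.2 (NI a) _ h) (hK.2.1 _ hnu')
      have e : (NI a : ℂ) * (u + ptS b) + -((NI a : ℂ) * u) = (NI a : ℂ) * ptS b := by ring
      rwa [e] at e2
    · have e2 := hK.1 _ _ hnu' (hK.2.1 _ (hK.2.2.2 (NI a) _ h))
      have e : (NI a : ℂ) * u + -((NI a : ℂ) * (u - ptS b)) = (NI a : ℂ) * ptS b := by ring
      rwa [e] at e2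
  refine ⟨hone, fun z hz => ?_⟩
  refine ⟨hz.1, ?_⟩
  by_cases hzl : z ∈ Lam (a * b)
  · exact Or.inl hzl
  refine Or.inr fun hv => ?_
  obtain ⟨R, hR, -⟩ := (h1 k t a b ha hb).2.2
  obtain ⟨C, hC3, -, hprod⟩ := (h9 k t a b ha hb).2.2 ha3 R hR
  have hp := hprod z hz.1 hzl
  have hCv : VP Q C := by
    refine DI.VP.of_pow (n := 3) (by norm_num) ?_
    rw [hC3]
    exact (DI.VP.one.neg).pow _
  have hVprod : VP Q (∏ u ∈ R, xO b (z + u)) := by
    rw [hp]
    exact hCv.mul hv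
  have hker : ∀ u ∈ R, IK Q b u → xO b (z + u) ≠ 0 ∧ MP Q (xO b (z + u))⁻¹ := by
    intro u hu hiu
    have e1 := hK.1 _ _ hz hiu
    have e2 : z + u ∉ Lam b := by
      intro h
      refine hzl ?_
      have e3 := lam_sub (lam_mono (a := a) h) (hR.mem u hu)
      rwa [add_sub_cancel_right] at e3
    rcases e1.2 with h | h
    · exact absurd h e2
    · exact DI.VP.not_iff.1 h
  have hinv : ∀ u ∈ R, xO b (z + u) ≠ 0 ∧ VP Q (xO b (z + u))⁻¹ := by
    intro u hu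
    by_cases hiu : IK Q b u
    · exact ⟨(hker u hu hiu).1, (hker u hu hiu).2.vp⟩
    · have e1 := hone u (hR.mem u hu) hiu
      have e2 := h6 k t b hb Q hQ hQb u z (tor_lam hab (hR.mem u hu)) hiu hz
      rw [add_comm u z] at e2
      have e3 := DI.UP.congr e1 e2
      exact ⟨e3.ne_zero, e3.inv.1⟩
  obtain ⟨u0, hu0, hu0'⟩ := hR.ex 0 (lam_zero _)
  have hu0l : u0 ∈ Lam b := by
    rw [zero_sub] at hu0'
    exact lam_neg_iff.1 hu0'
  have hm : MP Q (∏ u ∈ R, (xO b (z + u))⁻¹) := by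
    rw [← Finset.mul_prod_erase R _ hu0]
    exact DI.MP.mul_right (hker u0 hu0 (hK.2.2.1 _ hu0l)).2
      (DI.VP.prod _ _ fun u hu => (hinv u (Finset.mem_of_mem_erase hu)).2)
  have e1 := DI.MP.mul_left hVprod hm
  rw [← Finset.prod_mul_distrib, Finset.prod_congr rfl
    (fun u hu => mul_inv_cancel₀ (hinv u hu).1), Finset.prod_const_one] at e1
  exact DI.MP.one_not e1

end Pool.Agent.DT
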