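import Pool.Agent.Lib.DT.D.SpecA
import Pool.Agent.Lib.DI.Val

/-!
# Theorem DT, part D, module KQp: the kernel of reduction has only `Q`-primary torsion
-/

set_option autoImplicit false

open scoped Pointwise nonZeroDivisors

noncomputable section

namespace Pool.Agent.DT

open Pool.Agent.MuZ Pool.Agent.FW NumberField IsDedekindDomain
open Pool.Agent.DI (io ofC io_inj exists_io io_ofC ofC_io VP MP UP TP ex)

/-- **KQp.** The kernel has only `Q`-primary torsion. -/
theorem sKQp (hO4 : S_O4) (_ : S_L3) (hL4 : S_L4) (hL6 : S_L6a) (hA : S_AbQ) (hN : S_KNa)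
    (hS : S_KSub) (hT : S_KTS) (hU : S_LaU) : S_KQp := by
  intro k t _ b hb Q hQ hQ' z hz α β hα hab
  have := hQ.1
  by_contra hcon
  obtain ⟨a1, a2, a3, -⟩ := hS k t b hb Q hQ hQ'
  obtain ⟨-, b2⟩ := hN k t b hb Q hQ hQ'
  have hz' : IK Q b (toC β * z) := b2 β z hz
  obtain ⟨c, hc0, -, hc⟩ := (hL4 k t b hb).1 (toC β * z) hz'.1
  have hαc : α ∈ c := by
    rw [← hc, ← mul_assoc, ← toC_mul]
    exact hab
  have hct : c ≠ ⊤ := by
    intro h
    apply hcon
    have h1 : (1 : OO k t) ∈ c := by rw [h]; trivial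
    rw [← hc, toC_one, one_mul] at h1
    exact h1
  obtain ⟨l, hlm, hcl⟩ := Ideal.exists_le_maximal c hct
  obtain ⟨c', hcc⟩ := Ideal.dvd_iff_le.2 hcl
  have hl0 : l ≠ ⊥ := by
    rintro rfl
    exact hc0 (le_bot_iff.1 hcl)
  have hlt : l ≠ ⊤ := hlm.ne_top
  have hlp : l.IsPrime := hlm.isPrime
  have hnl : ¬ c' ≤ c := by
    intro h
    have h1 : c' = c := le_antisymm h (hcc ▸ Ideal.mul_le_right (I := l) (J := c'))
    rw [h1] at hcc
    have h2 : l * c = 1 * c := by rw [one_mul]; exact hcc.symm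
    have h3 : l = 1 := mul_right_cancel₀ (by exact hc0) h2
    exact hlt (by rw [h3, Ideal.one_eq_top])
  obtain ⟨v, hv, hvc⟩ := SetLike.not_le_iff_exists.1 hnl
  -- the point `z''`
  have hz2 : IK Q b (toC v * (toC β * z)) := b2 v _ hz'
  have hz3 : toC v * (toC β * z) ∉ Lam b := fun h => hvc ((hc v).1 h)
  have hz4 : toC v * (toC β * z) ∈ Lam (l * b) := by
    rw [lam_prod]
    intro w hw
    rw [← mul_assoc, ← toC_mul, hc, hcc]
    exact Ideal.mul_mem_mul hw hv
  have hAl : ¬ Abv Q l := fun h => hα (h α (hcl hαc))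
  set z'' : ℂ := toC v * (toC β * z) with hz''
  by_cases hl2 : PrI l (sN k t 3)
  · obtain ⟨-, c2, c3, -⟩ := hU k t l hl0 hl2 Q hQ hQ'
    exact (c2 hAl b hb).2 ((c3 b hb).1 ⟨z'', hz4, hz3, hz2⟩)
  · have h2 : sN k t 3 ≤ l := by
      by_contra h2
      apply hl2
      unfold PrI
      refine hlm.1.2 _ (lt_of_le_of_ne le_sup_left ?_)
      intro h5
      apply h2
      rw [h5]
      exact le_sup_right
    obtain ⟨o1, -, -, o4, o5, -, -, -, o9, o10, -⟩ := hO4 k t
    rw [← o1] at h2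
    -- translation by a lattice point
    have htr : ∀ u : ℂ, z'' - u ∈ Lam b ∨ z'' + u ∈ Lam b → IK Q b u := by
      intro u hu
      rcases hu with hu | hu
      · have e : u = z'' + -(z'' - u) := by ring
        rw [e]
        exact a1 _ _ hz2 (a3 _ (lam_neg hu))
      · have e : u = -z'' + (z'' + u) := by ring
        rw [e]
        exact a1 _ _ (a2 _ hz2) (a3 _ hu)
    obtain ⟨-, -, -, -, t3, -, -, t5, -⟩ := hT k t b hb Q hQ hQ'
    obtain ⟨⟨-, -, -, -, l1⟩, ⟨-, -, -, -, l2⟩, -⟩ := hL6 k t b hb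
    rcases hlp.mul_le.1 h2 with hw1 | hw1
    · -- `l = 𝔭`
      have hz5 : z'' ∈ Lam (pp k t * b) := lam_anti (Ideal.mul_mono_left hw1) hz4
      have hT1 : IK Q b (ptT b) := by
        rcases l1 z'' hz5 with h | h | h
        · exact absurd h hz3
        · exact htr _ (Or.inl h)
        · exact htr _ (Or.inr h)
      have h5 : MP Q 3 := by
        by_contra h5
        exact t5 h5 hT1
      obtain ⟨-, -, -, -, q5, -⟩ := hA k t
      obtain ⟨r1, -, -, r4⟩ := q5 Q
      rcases r4 hQ h5 with h6 | h6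
      · apply hAl
        have hmax : (pp k t).IsMaximal := o4.isMaximal o9
        have heq : pp k t = l := hmax.eq_of_le hlt hw1
        rw [← heq]
        exact (r1.1 h6).2
      · exact hQ' h6
    · -- `l = 𝔭̄`
      have hz5 : z'' ∈ Lam (ppb k t * b) := lam_anti (Ideal.mul_mono_left hw1) hz4
      rcases l2 z'' hz5 with h | h | h
      · exact hz3 h
      · exact t3 (htr _ (Or.inl h))
      · exact t3 (htr _ (Or.inr h))

end Pool.Agent.DT
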