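import Pool.Agent.Lib.DT.D.SpecA
import Pool.Agent.Lib.DT.Base
import Pool.Agent.Lib.DI.Val

/-!
# Theorem DT, module `KRed`: translation by the kernel does not change the reduction
-/

set_option autoImplicit false

open scoped Pointwise nonZeroDivisors

noncomputable section

namespace Pool.Agent.DT

open Pool.Agent.MuZ Pool.Agent.FW NumberField IsDedekindDomain
open Pool.Agent.DI (io ofC io_inj exists_io io_ofC ofC_io VP MP UP TP ex)

/-- `b W` with `b` in the maximal ideal, divided by a unit. -/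
private theorem KRed_div {Q : Ideal ZZ} (hP : Q.IsPrime) {y d b W : Om} (hb : MP Q b)
    (hW : VP Q W) (hd : UP Q d) (h : y * d = b * W) : MP Q y := by
  have := hP
  have h1 : y = b * W * d⁻¹ := by
    rw [← h, mul_assoc, mul_inv_cancel₀ hd.ne_zero, mul_one]
  rw [h1]
  exact DI.MP.mul_right (DI.MP.mul_right hb hW) hd.inv.1

/-- The algebraic part. -/
private theorem KRed_alg {Q : Ideal ZZ} (hP : Q.IsPrime) {b2 b4 b6 b8 X X' s t : Om}
    (v2 : VP Q b2) (v4 : VP Q b4) (v6 : VP Q b6) (v8 : VP Q b8) (hX : VP Q X) (hX' : ¬ VP Q X')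
    (h1 : (s + t) * (X - X') ^ 2 = 2 * X * X' * (X + X') + b2 * X * X' + b4 * (X + X') + b6)
    (h2 : s * t * (X - X') ^ 2 = X ^ 2 * X' ^ 2 - b4 * X * X' - b6 * (X + X') - b8) :
    MP Q (s - X) := by
  have := hP
  obtain ⟨h0, hb⟩ := DI.VP.not_iff.1 hX'
  obtain ⟨b, hbe⟩ : ∃ b, b = X'⁻¹ := ⟨_, rfl⟩
  rw [← hbe] at hb
  have hbX : b * X' = 1 := by rw [hbe, inv_mul_cancel₀ h0]
  have hbv := hb.vp
  have v2' : VP Q 2 := by simpa using DI.VP.nat (P := Q) 2
  have v3' : VP Q 3 := by simpa using DI.VP.nat (P := Q) 3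
  obtain ⟨d, hd⟩ : ∃ d, d = (b * X - 1) ^ 2 := ⟨_, rfl⟩
  have hdu : UP Q d := by
    refine DI.UP.congr DI.UP.one ?_
    have e : d - 1 = b * (X * (b * X - 2)) := by rw [hd]; ring
    rw [e]
    exact DI.MP.mul_right hb (hX.mul ((hbv.mul hX).sub v2'))
  have hS : (s + t) * d = 2 * X * (b * X + 1) + b2 * X * b + b4 * (X * b ^ 2 + b) +
      b6 * b ^ 2 := by
    rw [hd]
    have e : (s + t) * (b * X - 1) ^ 2 = b ^ 2 * ((s + t) * (X - X') ^ 2) := by
      linear_combination (-(s + t) * (b * X' - 1 + 2 - 2 * b * X)) * hbX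
    rw [e, h1]
    linear_combination (2 * X * b * X + 2 * X * (b * X' + 1) + b2 * X * b + b4 * b) * hbX
  have hT : s * t * d = X ^ 2 - b4 * X * b - b6 * (X * b ^ 2 + b) - b8 * b ^ 2 := by
    rw [hd]
    have e : s * t * (b * X - 1) ^ 2 = b ^ 2 * (s * t * (X - X') ^ 2) := by
      linear_combination (-(s * t) * (b * X' - 1 + 2 - 2 * b * X)) * hbX
    rw [e, h2]
    linear_combination (X ^ 2 * (b * X' + 1) - b4 * X * b - b6 * b) * hbX
  have m1 : MP Q (s + t - 2 * X) := by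
    refine KRed_div hP hb (W := 2 * X * (3 * X - b * X ^ 2) + b2 * X + b4 * (X * b + 1) + b6 * b)
      ?_ hdu ?_
    · exact ((((v2'.mul hX).mul ((v3'.mul hX).sub (hbv.mul (hX.pow 2)))).add (v2.mul hX)).add
        (v4.mul ((hX.mul hbv).add DI.VP.one))).add (v6.mul hbv)
    · rw [sub_mul, hS, hd]
      ring
  have m2 : MP Q (s * t - X ^ 2) := by
    refine KRed_div hP hb (W := X ^ 2 * (2 * X - b * X ^ 2) - b4 * X - b6 * (X * b + 1) - b8 * b)
      ?_ hdu ?_
    · exact ((((hX.pow 2).mul ((v2'.mul hX).sub (hbv.mul (hX.pow 2)))).sub (v4.mul hX)).sub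
        (v6.mul ((hX.mul hbv).add DI.VP.one))).sub (v8.mul hbv)
    · rw [sub_mul, hT, hd]
      ring
  have vS : VP Q (s + t) := by
    have h3 := m1.vp.add (v2'.mul hX)
    rwa [sub_add_cancel] at h3
  have vT : VP Q (s * t) := by
    have h3 := m2.vp.add (hX.pow 2)
    rwa [sub_add_cancel] at h3
  have vs : VP Q s := by
    by_contra hs
    obtain ⟨hs0, hc⟩ := DI.VP.not_iff.1 hs
    have h3 := (DI.MP.mul_left vS hc).sub (DI.MP.mul_left vT (DI.MP.mul_left hc.vp hc))
    have e : (s + t) * s⁻¹ - s * t * (s⁻¹ * s⁻¹) = 1 := by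
      field_simp
      ring
    rw [e] at h3
    exact DI.MP.one_not h3
  refine DI.MP.of_pow (n := 2) ?_
  have e : (s - X) ^ 2 = (s + t - 2 * X) * s - (s * t - X ^ 2) := by ring
  rw [e]
  exact (DI.MP.mul_right m1 vs).sub m2

theorem sKRed (h1 : S_XOm) (h2 : S_DUn) : S_KRed := by
  intro k t _ b hb Q hQ hn z z' hz hnz hk
  have hP : Q.IsPrime := hQ.1
  obtain ⟨⟨per, neg, -⟩, -, add, -⟩ := h1 k t b hb
  have hA : VP Q (aO b) := (h2 k t b hb Q hQ hn).1
  obtain ⟨hz', hk⟩ := hk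
  have hL : z ∉ Lam b := fun hL => hnz ⟨hz, Or.inl hL⟩
  have hV : VP Q (xO b z) := by
    by_contra hV
    exact hnz ⟨hz, Or.inr hV⟩
  by_cases hL' : z' ∈ Lam b
  · rw [per z z' hL', sub_self]
    exact DI.MP.zero
  · have hV' : ¬ VP Q (xO b z') := hk.resolve_left hL'
    have hp : z + z' ∉ Lam b := by
      intro hv
      apply hV'
      have e : z' = -z + (z + z') := by ring
      rw [e, per _ _ hv, neg]
      exact hV
    have hm : z - z' ∉ Lam b := by
      intro hv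
      apply hV'
      have e : z' = z + -(z - z') := by ring
      rw [e, per _ _ (lam_neg hv)]
      exact hV
    obtain ⟨h3, h4⟩ := add z z' hz hz' hL hL' hp hm
    refine KRed_alg hP (t := xO b (z - z')) (b2 := aO b ^ 2) (b4 := aO b) (b6 := 1) (b8 := 0)
      (hA.pow 2) hA DI.VP.one DI.VP.zero hV hV' ?_ ?_
    · rw [h3]
    · rw [h4]
      ring

end Pool.Agent.DT
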