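import Pool.Agent.Lib.DT.D.SpecA

/-!
# Theorem DT, part D: the reduction is injective modulo the sign and the kernel (module `KSep`)
-/

set_option autoImplicit false

open scoped Pointwise

noncomputable section

namespace Pool.Agent.DT

open Pool.Agent.MuZ Pool.Agent.FW NumberField IsDedekindDomain
open Pool.Agent.DI (io ofC io_inj exists_io io_ofC ofC_io VP MP UP TP ex)

private theorem KSep_not {k t : ℕ} {Q : Ideal ZZ} {b : Ideal (OO k t)} {z : ℂ} (hz : Tor k t z)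
    (h : ¬ IK Q b z) : z ∉ Lam b ∧ VP Q (xO b z) := by
  constructor
  · intro h1
    exact h ⟨hz, Or.inl h1⟩
  · by_contra h1
    exact h ⟨hz, Or.inr h1⟩

/-- **The reduction is injective modulo the sign and the kernel.** -/
theorem sKSep (h1 : S_XOm) (h2 : S_DUn) : S_KSep := by
  intro k t _ b hb Q hQ hnb z z' tz tz' nz nz' hm
  have hP : Q.IsPrime := hQ.1
  obtain ⟨-, -, hadd, -⟩ := h1 k t b hb
  obtain ⟨vA, -, -, -, -, bez⟩ := h2 k t b hb Q hQ hnb
  by_contra hcon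
  rw [not_or] at hcon
  obtain ⟨ha, hb'⟩ := hcon
  obtain ⟨lz, vz⟩ := KSep_not tz nz
  obtain ⟨lz', vz'⟩ := KSep_not tz' nz'
  obtain ⟨la, va⟩ := KSep_not (tor_add tz tz') ha
  obtain ⟨lb, vb⟩ := KSep_not (tor_sub tz tz') hb'
  obtain ⟨e1, e2⟩ := hadd z z' tz tz' lz lz' la lb
  have v2 : VP Q (2 : Om) := DI.VP.nat 2
  have v6 : VP Q (6 : Om) := DI.VP.nat 6
  have v1 : VP Q (1 : Om) := DI.VP.one
  have hD2 : MP Q ((xO b z - xO b z') ^ 2) := by
    rw [pow_two]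
    exact DI.MP.mul_left (DI.MP.vp hm) hm
  have hG : MP Q (4 * xO b z ^ 3 + (aO b * xO b z + 1) ^ 2) := by
    have e : 4 * xO b z ^ 3 + (aO b * xO b z + 1) ^ 2 =
        (xO b (z + z') + xO b (z - z')) * (xO b z - xO b z') ^ 2 +
          (6 * xO b z ^ 2 - 2 * xO b z * (xO b z - xO b z') + aO b ^ 2 * xO b z + aO b) *
            (xO b z - xO b z') := by
      linear_combination -e1
    rw [e]
    refine DI.MP.add (DI.MP.mul_left (DI.VP.add va vb) hD2) (DI.MP.mul_left ?_ hm)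
    exact DI.VP.add (DI.VP.add (DI.VP.sub (DI.VP.mul v6 (DI.VP.pow vz 2))
      (DI.VP.mul (DI.VP.mul v2 vz) (DI.VP.sub vz vz'))) (DI.VP.mul (DI.VP.pow vA 2) vz)) vA
  refine bez (xO b z) vz hG ?_
  have e : xO b z ^ 4 - aO b * xO b z ^ 2 - 2 * xO b z =
      (xO b (z + z') * xO b (z - z')) * (xO b z - xO b z') ^ 2 +
        (2 * xO b z ^ 3 - xO b z ^ 2 * (xO b z - xO b z') - aO b * xO b z - 1) *
          (xO b z - xO b z') := by
    linear_combination -e2
  rw [e]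
  refine DI.MP.add (DI.MP.mul_left (DI.VP.mul va vb) hD2) (DI.MP.mul_left ?_ hm)
  exact DI.VP.sub (DI.VP.sub (DI.VP.sub (DI.VP.mul v2 (DI.VP.pow vz 3))
    (DI.VP.mul (DI.VP.pow vz 2) (DI.VP.sub vz vz'))) (DI.VP.mul vA vz)) v1

end Pool.Agent.DT
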