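import Pool.Agent.Lib.DT.D.SpecA

/-!
# Theorem DT, part D, module KTS: the points `S`, `T`
-/

set_option autoImplicit false

open scoped Pointwise

noncomputable section

namespace Pool.Agent.DT

open Pool.Agent.MuZ Pool.Agent.FW NumberField IsDedekindDomain
open Pool.Agent.DI (io ofC io_inj exists_io io_ofC ofC_io VP MP UP TP ex)

private theorem KTS_pp {k t : ℕ} {b : Ideal (OO k t)} [SqT k t] (hb : b ≠ ⊥) : pp k t * b ≠ ⊥ := by
  have h1 : pp k t ≠ ⊥ := by
    intro h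
    have h2 : (3 : OO k t) ∈ pp k t := Ideal.subset_span (by simp)
    rw [h, Ideal.mem_bot] at h2
    have h3 : ((3 : ℕ) : OO k t).re = (0 : OO k t).re := by
      rw [show ((3 : ℕ) : OO k t) = 3 by norm_num, h2]
    rw [re_nat] at h3
    have h4 : (0 : OO k t).re = 0 := rfl
    rw [h4] at h3
    norm_num at h3
  exact mul_ne_zero h1 hb

/-- A root of a quadratic equation over the valuation ring is in it. -/
private theorem KTS_int {Q : Ideal ZZ} (hP : Npr Q) {y y' : Om} (hs : VP Q (y + y'))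
    (hp : VP Q (y * y')) : VP Q y := by
  have := hP.1
  by_contra hv
  obtain ⟨hy0, hy⟩ := DI.VP.not_iff.1 hv
  have e : (y + y') * y⁻¹ - y * y' * y⁻¹ * y⁻¹ = 1 := by
    field_simp
    ring
  have h1 : MP Q ((y + y') * y⁻¹ - y * y' * y⁻¹ * y⁻¹) :=
    DI.MP.sub (DI.MP.mul_left hs hy) (DI.MP.mul_left (DI.VP.mul hp (DI.MP.vp hy)) hy)
  rw [e] at h1
  exact DI.MP.one_not h1

theorem sKTS (h1 : S_L6a) (h2 : S_XOm) (h3 : S_DUn) (h4 : S_KSub) : S_KTS := by
  intro k t _ b hb Q hQ hQb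
  have hP : Q.IsPrime := hQ.1
  obtain ⟨⟨-, hT, h3T, -, -⟩, ⟨-, hS, h3S, -, -⟩, ⟨-, -, hST, hSmT, -⟩, -⟩ := h1 k t b hb
  obtain ⟨⟨hper, hpar, -, hxS, -, -, -⟩, -, -, -, htr, -, -, ⟨-, hxT, -, -, -⟩, -⟩ := h2 k t b hb
  obtain ⟨vA, -, -, -, hcase, -⟩ := h3 k t b hb Q hQ hQb
  obtain ⟨-, ur, -, -, -, -⟩ := h3 k t (pp k t * b) (KTS_pp hb) Q hQ hQb
  obtain ⟨kadd, kneg, -, -⟩ := h4 k t b hb Q hQ hQb
  have htor : ∀ z : ℂ, 3 * z ∈ Lam b → Tor k t z := fun z hz =>
    (tor_iff hb).2 ⟨3, three_pos, by exact_mod_cast hz⟩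
  have tT := htor _ h3T
  have tS := htor _ h3S
  have v3 : VP Q (3 : Om) := DI.VP.nat 3
  have hn3 : (3 : Om) ≠ 0 := by norm_num
  have hIS : ¬ IK Q b (ptS b) := by
    intro h
    rcases h.2 with h5 | h5
    · exact hS h5
    · rw [hxS] at h5
      exact h5 DI.VP.zero
  have hxT3 : 3 * xO b (ptT b) = -rhO (pp k t * b) := by
    rw [hxT]
    field_simp
  have hIT : AbP k t Q → IK Q b (ptT b) := by
    intro h
    refine ⟨tT, Or.inr fun h5 => ?_⟩
    have h6 : MP Q (3 * xO b (ptT b)) := DI.MP.mul_right h.2.1 h5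
    rw [hxT3] at h6
    have h7 := DI.MP.neg h6
    rw [neg_neg] at h7
    exact ur.2 h7
  have uT : ¬ MP Q 3 → UP Q (xO b (ptT b)) := by
    intro h
    rw [hxT]
    exact DI.UP.div (DI.UP.neg ur) ⟨v3, h⟩
  have hpair : ¬ MP Q 3 → VP Q (xO b (ptT b + ptS b)) ∧ VP Q (xO b (ptT b - ptS b)) := by
    intro h
    have u := uT h
    have l1 : ptT b + ptS b ∉ Lam b := by
      rw [add_comm]
      exact hST
    have l2 : ptT b - ptS b ∉ Lam b := by
      rw [← neg_sub, lam_neg_iff]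
      exact hSmT
    obtain ⟨n0, e1, e2⟩ := htr (ptT b) tT hT l1 l2
    have uv : VP Q (xO b (ptT b))⁻¹ := (DI.UP.inv u).1
    have hp : VP Q (xO b (ptT b + ptS b) * xO b (ptT b - ptS b)) := by
      have e : xO b (ptT b + ptS b) * xO b (ptT b - ptS b) = -(xO b (ptT b))⁻¹ := by
        field_simp
        linear_combination e1
      rw [e]
      exact uv.neg
    have hs : VP Q (xO b (ptT b + ptS b) + xO b (ptT b - ptS b)) := by
      have e : xO b (ptT b + ptS b) + xO b (ptT b - ptS b) =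
          (aO b * xO b (ptT b) + 1) * (xO b (ptT b))⁻¹ ^ 2 := by
        rw [← e2]
        field_simp
      rw [e]
      exact DI.VP.mul (DI.VP.add (DI.VP.mul vA u.1) DI.VP.one) (DI.VP.pow uv 2)
    refine ⟨KTS_int hQ hs hp, KTS_int hQ (y' := xO b (ptT b + ptS b)) ?_ ?_⟩
    · rw [add_comm]
      exact hs
    · rw [mul_comm]
      exact hp
  refine ⟨tT, tS, h3T, h3S, hIS, fun h => ?_, fun h => ?_, fun h3 h => ?_, hIT⟩
  · rcases hcase with hc | hc
    · rcases h.2 with h5 | h5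
      · exact hST h5
      · rw [add_comm] at h5
        exact h5 (hpair hc).1
    · have h6 := kadd _ _ h (kneg _ (hIT hc))
      rw [add_neg_cancel_right] at h6
      exact hIS h6
  · rcases hcase with hc | hc
    · rcases h.2 with h5 | h5
      · exact hSmT h5
      · rw [← neg_sub, hpar] at h5
        exact h5 (hpair hc).2
    · have h6 := kadd _ _ h (hIT hc)
      rw [sub_add_cancel] at h6
      exact hIS h6
  · rcases h.2 with h5 | h5
    · exact hT h5
    · exact h5 (uT h3).1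

end Pool.Agent.DT
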