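import Pool.Agent.Lib.DT.D.SpecA

/-!
# Theorem DT, part D, module LaU: the numbers `laO a b`
-/

set_option autoImplicit false

open scoped Pointwise nonZeroDivisors

noncomputable section

namespace Pool.Agent.DT

open Pool.Agent.MuZ Pool.Agent.FW NumberField IsDedekindDomain
open Pool.Agent.DI (io ofC io_inj exists_io io_ofC ofC_io VP MP UP TP ex)

open Classical in
/-- `laO a b` is a unit times the product of the inverses of the `x(u)`. -/
private theorem LaU_form (hL3 : S_L3) (hPrC : S_PrC) {k t : ℕ} [SqT k t] {a b : Ideal (OO k t)}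
    (ha : a ≠ ⊥) (hb : b ≠ ⊥) (ha3 : PrI a (sN k t 3)) {Q : Ideal ZZ} (hQ : Npr Q) :
    ∃ R : Finset ℂ, IsSys a b R ∧ ∃ C : Om, UP Q C ∧
      laO a b = C * ∏ u ∈ R, (if u ∈ Lam b then 1 else xO b u)⁻¹ := by
  have := hQ.1
  obtain ⟨-, -, R, hR, -⟩ := hL3 k t a b ha hb
  obtain ⟨-, hla, hC⟩ := hPrC k t a b ha hb
  obtain ⟨C, hC3, hC, -⟩ := hC ha3 R hR
  have hU : UP Q (C ^ 3) := by
    rw [hC3]
    exact (DI.UP.one.neg).pow _
  have hCU : UP Q C := DI.UP.of_pow (n := 3) (by norm_num) hU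
  have hP0 : ∏ u ∈ R, (if u ∈ Lam b then 1 else xO b u) ≠ 0 := by
    intro h
    rw [h, mul_zero] at hC
    exact hCU.ne_zero hC
  refine ⟨R, hR, C, hCU, ?_⟩
  rw [Finset.prod_inv_distrib, hC, mul_assoc, mul_inv_cancel₀ hP0, mul_one]

/-- The inverse of `x(u)`, `u` a point of `Lam (a b)`. -/
private theorem LaU_inv (hKNq : S_KNq) {k t : ℕ} [SqT k t] {a b : Ideal (OO k t)}
    (ha : a ≠ ⊥) (hb : b ≠ ⊥) (ha3 : PrI a (sN k t 3)) {Q : Ideal ZZ} (hQ : Npr Q)
    (hQb : ¬ AbPb k t Q) {u : ℂ} (hu : u ∈ Lam (a * b)) (hub : u ∉ Lam b) :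
    (IK Q b u ∧ MP Q (xO b u)⁻¹) ∨ (¬ IK Q b u ∧ UP Q (xO b u)⁻¹) := by
  have := hQ.1
  by_cases h : IK Q b u
  · left
    exact ⟨h, (DI.VP.not_iff.1 (h.2.resolve_left hub)).2⟩
  · right
    exact ⟨h, ((hKNq k t a b ha hb ha3 Q hQ hQb).1 u hu h).inv⟩

/-- The telescoping product. -/
private theorem LaU_tele {k t : ℕ} [SqT k t] {a b : Ideal (OO k t)}
    (h : ∀ i : ℕ, laO a (a ^ i * b) ≠ 0 ∧
      io (laO a (a ^ i * b)) = r2 (a * (a ^ i * b)) / r2 (a ^ i * b)) (n : ℕ) :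
    io (∏ i ∈ Finset.range n, laO a (a ^ i * b)) * r2 b = r2 (a ^ n * b) := by
  induction n with
  | zero => rw [Finset.range_zero, Finset.prod_empty, map_one, one_mul, pow_zero, one_mul]
  | succ n ih =>
    have h0 : r2 (a ^ n * b) ≠ 0 := by
      intro h1
      have h2 := (h n).2
      rw [h1, div_zero] at h2
      exact (h n).1 (io_inj (by rw [h2, map_zero]))
    rw [Finset.prod_range_succ, map_mul, mul_right_comm, ih, (h n).2, mul_div_cancel₀ _ h0,
      pow_succ', mul_assoc]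

theorem sLaU (h1 : S_O5) (h2 : S_L3) (h3 : S_B7) (h4 : S_AbQ) (h5 : S_PrC) (h6 : S_KNq) :
    S_LaU := by
  classical
  intro k t _ a ha ha3 Q hQ hQb
  have := hQ.1
  have hpow : ∀ i : ℕ, a ^ i ≠ ⊥ := fun i => pow_ne_zero (M₀ := Ideal (OO k t)) i ha
  have hpb : ∀ (b : Ideal (OO k t)), b ≠ ⊥ → ∀ i : ℕ, a ^ i * b ≠ ⊥ := fun b hb i =>
    mul_ne_zero (M₀ := Ideal (OO k t)) (hpow i) hb
  have hr2 : ∀ b : Ideal (OO k t), b ≠ ⊥ → r2 b ≠ 0 := by
    intro b hb h
    obtain ⟨e1, e2, -⟩ := h5 k t a b ha hb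
    rw [h, div_zero] at e1
    exact e2 (io_inj (by rw [e1, map_zero]))
  -- periodicity, from the product formula for the unit ideal
  have hper : ∀ b : Ideal (OO k t), b ≠ ⊥ → ∀ z w : ℂ, Tor k t z → z ∉ Lam b → w ∈ Lam b →
      xO b (z + w) = xO b z := by
    intro b hb z w hz hzb hw
    obtain ⟨e1, -, e3⟩ := h5 k t ⊤ b top_ne_bot hb
    have hsys : IsSys (⊤ : Ideal (OO k t)) b {w} := by
      refine ⟨?_, ?_, ?_⟩
      · intro u hu
        rw [Finset.mem_singleton.1 hu, Ideal.top_mul]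
        exact hw
      · intro z' hz'
        rw [Ideal.top_mul] at hz'
        exact ⟨w, Finset.mem_singleton_self w, lam_sub hz' hw⟩
      · intro u hu u' hu' _
        rw [Finset.mem_singleton.1 hu, Finset.mem_singleton.1 hu']
    obtain ⟨C, -, hC, hprod⟩ := e3 (top_sup_eq _) {w} hsys
    have e4 := hprod z hz (by rw [Ideal.top_mul]; exact hzb)
    have hla : laO (⊤ : Ideal (OO k t)) b = 1 := by
      apply io_inj
      rw [e1, Ideal.top_mul, div_self (hr2 b hb), map_one]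
    rw [Finset.prod_singleton, if_pos hw, mul_one, hla] at hC
    rw [Finset.prod_singleton, hC, one_mul, Ideal.top_mul] at e4
    exact e4
  have hVP : ∀ b : Ideal (OO k t), b ≠ ⊥ → VP Q (laO a b) := by
    intro b hb
    obtain ⟨R, hR, C, hC, hla⟩ := LaU_form h2 h5 ha hb ha3 hQ
    rw [hla]
    refine hC.1.mul (DI.VP.prod _ _ fun u hu => ?_)
    by_cases hub : u ∈ Lam b
    · rw [if_pos hub, inv_one]
      exact DI.VP.one
    · rw [if_neg hub]
      rcases LaU_inv h6 ha hb ha3 hQ hQb (hR.mem u hu) hub with h | h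
      · exact h.2.vp
      · exact h.2.1
  have htele : ∀ b : Ideal (OO k t), b ≠ ⊥ → ∃ (h : ℕ) (la : OO k t), 0 < h ∧ a ^ h = sp la ∧
      la ≠ 0 ∧ ∏ i ∈ Finset.range h, laO a (a ^ i * b) = toO la ^ 2 := by
    intro b hb
    obtain ⟨h, la, hh, hla, he⟩ := h1 k t a ha
    refine ⟨h, la, hh, he, hla, io_inj ?_⟩
    apply mul_right_cancel₀ (hr2 b hb)
    rw [LaU_tele (fun i => ⟨(h5 k t a _ ha (hpb b hb i)).2.1,
      (h5 k t a _ ha (hpb b hb i)).1⟩) h, he, map_pow, io_toO]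
    exact ((h3 k t b hb).1 la hla).2.2.2.2.2
  refine ⟨hVP, ?_, ?_, htele⟩
  · intro hA b hb
    obtain ⟨h, la, hh, he, hla, hprod⟩ := htele b hb
    obtain ⟨q, hqp, -, -, hq⟩ := (h4 k t).1 Q hQ
    have e1 : ¬ MP Q (toO la) := by
      intro e2
      apply hA
      have e3 : Abv Q (sp la) := ((h4 k t).2.2.2.1 Q hQ la).2 e2
      rw [← he, hq] at e3
      exact (hq a).2 (Ideal.IsPrime.le_of_pow_le e3)
    have e2 : UP Q (toO la) := ⟨toO_VP la, e1⟩
    refine ⟨hVP b hb, fun e3 => ?_⟩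
    apply (e2.pow 2).2
    rw [← hprod]
    obtain ⟨j, rfl⟩ : ∃ j, h = j + 1 := ⟨h - 1, by omega⟩
    rw [Finset.prod_range_succ', pow_zero, one_mul]
    exact DI.MP.mul_left (DI.VP.prod _ _ fun i _ => hVP _ (hpb b hb (i + 1))) e3
  · intro b hb
    obtain ⟨R, hR, C, hC, hla⟩ := LaU_form h2 h5 ha hb ha3 hQ
    constructor
    · rintro ⟨u, hu, hub, hIK⟩
      obtain ⟨v, hvR, huv⟩ := hR.ex u hu
      have hvb : v ∉ Lam b := fun h => hub ((lam_sub_iff huv).2 h)
      have hx : xO b u = xO b v := by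
        have e1 := hper b hb v (u - v) (tor_lam (mul_ne_zero (M₀ := Ideal (OO k t)) ha hb)
          (hR.mem v hvR)) hvb huv
        rwa [add_sub_cancel] at e1
      have hv : MP Q (xO b v)⁻¹ := by
        rw [← hx]
        exact (DI.VP.not_iff.1 (hIK.2.resolve_left hub)).2
      rw [hla]
      refine DI.MP.mul_left hC.1 ?_
      rw [← Finset.mul_prod_erase R _ hvR, if_neg hvb]
      refine DI.MP.mul_right hv (DI.VP.prod _ _ fun w hw => ?_)
      have hwR := Finset.mem_of_mem_erase hw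
      by_cases hwb : w ∈ Lam b
      · rw [if_pos hwb, inv_one]
        exact DI.VP.one
      · rw [if_neg hwb]
        rcases LaU_inv h6 ha hb ha3 hQ hQb (hR.mem w hwR) hwb with h | h
        · exact h.2.vp
        · exact h.2.1
    · intro hno
      rw [hla]
      refine hC.mul (DI.UP.prod _ _ fun u hu => ?_)
      by_cases hub : u ∈ Lam b
      · rw [if_pos hub, inv_one]
        exact DI.UP.one
      · rw [if_neg hub]
        rcases LaU_inv h6 ha hb ha3 hQ hQb (hR.mem u hu) hub with h | h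
        · exact absurd h.1 (hno u (hR.mem u hu) hub)
        · exact h.2

end Pool.Agent.DT
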