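import Pool.Agent.Lib.DT.D.SpecA

/-!
# Theorem DT, part D, module PrC: the product formula and its constant
-/

set_option autoImplicit false

open scoped Pointwise nonZeroDivisors

noncomputable section

namespace Pool.Agent.DT

open Pool.Agent.MuZ Pool.Agent.FW NumberField IsDedekindDomain
open Pool.Agent.DI (io ofC io_inj exists_io io_ofC ofC_io VP MP UP TP ex)

variable {k t : ℕ}

open Classical in
/-- The product formula in `Om`. -/
private theorem PrC_form (hB8 : S_B8) (hR4 : S_R4) [SqT k t] {a b : Ideal (OO k t)} (ha : a ≠ ⊥)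
    (hb : b ≠ ⊥) (hab : a * b ≠ ⊥) {R : Finset ℂ} (hR : IsSys a b R)
    (hla : io (laO a b) = r2 (a * b) / r2 b) {S : ℂ} (hS : S ∉ Lam (a * b))
    (h0 : XC b S = 0) (h0' : XC (a * b) S = 0) :
    ∀ z : ℂ, Tor k t z → z ∉ Lam (a * b) →
      ∏ u ∈ R, xO b (z + u) =
        (laO a b * ∏ u ∈ R, (if u ∈ Lam b then 1 else xO b u)) * xO (a * b) z := by
  have hu : ∀ u ∈ R, Tor k t u := fun u hu => tor_lam hab (hR.mem u hu)
  obtain ⟨h1, -⟩ := hB8 k t a b ha hb R hR S hS
  rw [h0, h0'] at h1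
  simp only [sub_zero] at h1
  have hio : ∀ z : ℂ, Tor k t z → io (xO b z) = XC b z := fun z hz => (hR4.1 k t b hb).2 z hz
  have hio' : ∀ z : ℂ, Tor k t z → io (xO (a * b) z) = XC (a * b) z :=
    fun z hz => (hR4.1 k t (a * b) hab).2 z hz
  intro z hz hzL
  apply io_inj
  have e1 : io (∏ u ∈ R, xO b (z + u)) = ∏ u ∈ R, XC b (z + u) := by
    rw [map_prod]
    refine Finset.prod_congr rfl fun u huR => ?_
    rw [hio _ (tor_add hz (hu u huR))]
  have e2 : io (∏ u ∈ R, (if u ∈ Lam b then 1 else xO b u)) =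
      ∏ u ∈ R, (if u ∈ Lam b then 1 else XC b u) := by
    rw [map_prod]
    refine Finset.prod_congr rfl fun u huR => ?_
    split_ifs
    · exact map_one io
    · rw [hio u (hu u huR)]
  rw [e1, h1 z hzL, map_mul, map_mul, hla, e2, hio' z hz]

theorem sPrC (h1 : S_L2) (h2 : S_L6a) (h3 : S_L6) (h4 : S_ThT) (h5 : S_B1) (h6 : S_B8)
    (h7 : S_XOm) (h8 : S_R4) (h9 : S_R5a) : S_PrC := by
  classical
  intro k t _ a b ha hb
  have hab : a * b ≠ ⊥ := by
    rw [Ne, Ideal.mul_eq_bot]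
    rintro (h | h)
    · exact ha h
    · exact hb h
  have hs0 : r2 b ≠ 0 := (h5 k t b hb).2.2.1
  have hs0' : r2 (a * b) ≠ 0 := (h5 k t (a * b) hab).2.2.1
  have hla : io (laO a b) = r2 (a * b) / r2 b := io_ofC _ (h9 k t b (a * b) hb hab)
  have hla0 : laO a b ≠ 0 := by
    intro h
    rw [h, map_zero] at hla
    exact div_ne_zero hs0' hs0 hla.symm
  refine ⟨hla, hla0, fun ha3 R hR => ?_⟩
  have hthr := ((h4 k t a b ha hb).1 ha3).1
  have hcard : R.card = NI a := (h4 k t a b ha hb).2.1 R hR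
  -- the points of order three
  obtain ⟨⟨-, hTn, hT3, -, -⟩, ⟨-, hSn, hS3, -, -⟩, ⟨-, -, hSTn, hSTn', -⟩, -⟩ := h2 k t b hb
  have hpS := ((h3 k t b hb).2.2.1 a ha ha3).2.1
  have htor : ∀ z : ℂ, 3 * z ∈ Lam b → Tor k t z := fun z hz =>
    (tor_iff hb).2 ⟨3, three_pos, by exact_mod_cast hz⟩
  have hnab : ∀ z : ℂ, 3 * z ∈ Lam b → z ∉ Lam b → z ∉ Lam (a * b) := fun z h1 h2 h3 =>
    h2 (hthr z h3 h1)
  have hTt := htor _ hT3
  have hSt := htor _ hS3
  have hTS3 : 3 * (ptT b + ptS b) ∈ Lam b := by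
    rw [mul_add]
    exact lam_add hT3 hS3
  have hTS3' : 3 * (ptT b - ptS b) ∈ Lam b := by
    rw [mul_sub]
    exact lam_sub hT3 hS3
  have hTSn : ptT b + ptS b ∉ Lam b := by rwa [add_comm]
  have hTSn' : ptT b - ptS b ∉ Lam b := by
    intro h
    apply hSTn'
    have := lam_neg h
    rwa [neg_sub] at this
  have nT := hnab _ hT3 hTn
  have nS := hnab _ hS3 hSn
  have nTS := hnab _ hTS3 hTSn
  have nTS' := hnab _ hTS3' hTSn'
  -- the values of the coordinates at `S`
  have h0 : XC b (ptS b) = 0 := (h5 k t b hb).2.2.2.2.2.2.2.2.2.2.2.1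
  have h0' : XC (a * b) (ptS b) = 0 := by
    obtain ⟨pe, pa, -, -, -, -, -, -, -, -, -, x0, -⟩ := h5 k t (a * b) hab
    rcases hpS with h | h
    · have h1 := (pe (ptS b) _ h).2.2
      rw [add_sub_cancel, x0] at h1
      exact h1.symm
    · have h1 := (pe (-ptS b) _ h).2.2
      rw [neg_add_eq_sub, add_sub_cancel_right, x0, (pa (ptS b)).2.2] at h1
      exact h1.symm
  have fS := PrC_form h6 h8 ha hb hab hR hla nS h0 h0'
  refine ⟨laO a b * ∏ u ∈ R, (if u ∈ Lam b then 1 else xO b u), ?_, rfl, fS⟩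
  obtain ⟨C, hC⟩ : ∃ c, c = laO a b * ∏ u ∈ R, (if u ∈ Lam b then 1 else xO b u) := ⟨_, rfl⟩
  rw [← hC] at fS ⊢
  have f1 := fS _ hTt nT
  have f2 := fS _ (tor_add hTt hSt) nTS
  have f3 := fS _ (tor_sub hTt hSt) nTS'
  -- the left side
  have hL : (∏ u ∈ R, xO b (ptT b + u)) * (∏ u ∈ R, xO b (ptT b + ptS b + u)) *
      (∏ u ∈ R, xO b (ptT b - ptS b + u)) = (-1) ^ NI a := by
    rw [← Finset.prod_mul_distrib, ← Finset.prod_mul_distrib, ← hcard, ← Finset.prod_const]
    refine Finset.prod_congr rfl fun u hu => ?_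
    have huL := hR.mem u hu
    have hnu : ∀ z : ℂ, z ∉ Lam (a * b) → z + u ∉ Lam b := by
      intro z hz h
      apply hz
      have h1 := lam_sub (lam_mono (a := a) h) huL
      rwa [add_sub_cancel_right] at h1
    have e1 : ptT b + ptS b + u = ptT b + u + ptS b := by ring
    have e2 : ptT b - ptS b + u = ptT b + u - ptS b := by ring
    have n2 := hnu _ nTS
    have n3 := hnu _ nTS'
    rw [e1] at n2
    rw [e2] at n3
    rw [e1, e2]
    exact ((h7 k t b hb).2.2.2.2.1 (ptT b + u) (tor_add hTt (tor_lam hab huL)) (hnu _ nT) n2 n3).2.1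
  -- the right side
  have hRt : xO (a * b) (ptT b) * xO (a * b) (ptT b + ptS b) * xO (a * b) (ptT b - ptS b) = -1 := by
    obtain ⟨⟨xper, -, -, -, -, -, -⟩, -, -, -, tr, -⟩ := h7 k t (a * b) hab
    rcases hpS with h | h
    · have e1 : ptT b + ptS (a * b) = ptT b + ptS b + (ptS (a * b) - ptS b) := by ring
      have e2 : ptT b - ptS (a * b) = ptT b - ptS b + -(ptS (a * b) - ptS b) := by ring
      have n1 : ptT b + ptS (a * b) ∉ Lam (a * b) := by
        intro h1
        apply nTS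
        have h2 := lam_sub h1 h
        rwa [e1, add_sub_cancel_right] at h2
      have n2 : ptT b - ptS (a * b) ∉ Lam (a * b) := by
        intro h1
        apply nTS'
        have h2 := lam_add h1 h
        rwa [e2, neg_add_cancel_right] at h2
      have h3 := (tr _ hTt nT n1 n2).2.1
      rwa [e1, e2, xper _ _ h, xper _ _ (lam_neg h)] at h3
    · have e1 : ptT b + ptS (a * b) = ptT b - ptS b + (ptS (a * b) + ptS b) := by ring
      have e2 : ptT b - ptS (a * b) = ptT b + ptS b + -(ptS (a * b) + ptS b) := by ring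
      have n1 : ptT b + ptS (a * b) ∉ Lam (a * b) := by
        intro h1
        apply nTS'
        have h2 := lam_sub h1 h
        rwa [e1, add_sub_cancel_right] at h2
      have n2 : ptT b - ptS (a * b) ∉ Lam (a * b) := by
        intro h1
        apply nTS
        have h2 := lam_add h1 h
        rwa [e2, neg_add_cancel_right] at h2
      have h3 := (tr _ hTt nT n1 n2).2.1
      rw [e1, e2, xper _ _ h, xper _ _ (lam_neg h)] at h3
      linear_combination h3
  rw [f1, f2, f3] at hL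
  rw [pow_succ]
  linear_combination (-1 : Om) * hL + C ^ 3 * hRt

end Pool.Agent.DT
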