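import Pool.Agent.Lib.DT.D.SpecM

/-!
# Theorem DT, part D, module QpC: complex conjugation of primary points
-/

set_option autoImplicit false

open scoped Pointwise nonZeroDivisors

noncomputable section

namespace Pool.Agent.DT

open Pool.Agent.MuZ Pool.Agent.FW NumberField IsDedekindDomain
open Pool.Agent.DI (io ofC io_inj exists_io io_ofC ofC_io VP MP UP TP ex)

variable {k t : ℕ}

/-- Conjugation of the elements of `O`. -/
private theorem QpC_toO [SqT k t] {c : Gal(Om/ℚ)} (hc : ∀ x : Om, io (c x) = (starRingEnd ℂ) (io x))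
    (v : OO k t) : c (toO v) = toO (cjO v) := by
  apply io_inj
  rw [hc, io_toO, io_toO, conj_toC]

/-- Conjugation of the torsion points. -/
private theorem QpC_tor1 {z : ℂ} (h : Tor k t z) : Tor k t ((starRingEnd ℂ) z) := by
  obtain ⟨v, n, hn, rfl⟩ := h
  exact ⟨cjO v, n, hn, by rw [map_div₀, conj_toC, map_natCast]⟩

private theorem QpC_tor {z : ℂ} : Tor k t ((starRingEnd ℂ) z) ↔ Tor k t z :=
  ⟨fun h => by simpa using QpC_tor1 h, QpC_tor1⟩

/-- Conjugation of the primes of `ZZ`. -/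
private theorem QpC_npr (c : Gal(Om/ℚ)) {Q : Ideal ZZ} (h : Npr Q) : Npr (c • Q) := by
  obtain ⟨h1, h2⟩ := h
  refine ⟨inferInstance, fun h3 => h2 ?_⟩
  rw [Ideal.ext_iff] at h3
  rw [eq_bot_iff]
  intro x hx
  have h4 : c • x ∈ c • Q := (DI.smul_mem_smul_iff c x).2 hx
  rw [h3, Ideal.mem_bot] at h4
  have h5 : x = c⁻¹ • (c • x) := (inv_smul_smul c x).symm
  rw [Ideal.mem_bot, h5, h4, smul_zero]

/-- MODULE `QpC`. -/
theorem sQpC (h3 : S_O3) (hL2 : S_L2) : S_QpC := by
  intro k t _ c hc Q b z hQ hb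
  obtain ⟨hcj, -, hcc, -, -, -⟩ := h3 k t
  obtain ⟨-, -, -, -, -, -, -, hLc, -⟩ := hL2 k t
  have hMP : ∀ v : OO k t, MP (c • Q) (toO (cjO v)) ↔ MP Q (toO v) := fun v => by
    rw [← QpC_toO hc v, DI.MP.smul]
  have hLam : ∀ y : ℂ, (starRingEnd ℂ) y ∈ Lam (cjI b) ↔ y ∈ Lam b := fun y => by
    rw [hLc b _, Complex.conj_conj]
  refine ⟨?_, QpC_npr c hQ, QpC_toO hc, ?_, QpC_tor, ?_⟩
  · constructor
    · intro h α β hα hz
      have h1 := h (cjO α) (cjO β) (by rw [hMP]; exact hα) (by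
        rw [← cjO_mul, ← conj_toC, ← map_mul, hLam]
        exact hz)
      rw [← conj_toC, ← map_mul, hLam] at h1
      exact h1
    · intro h α β hα hz
      have h1 := h (cjO α) (cjO β) (by rw [← hMP, cjO_cjO]; exact hα) (by
        rw [← hLam, map_mul, conj_toC, cjO_mul, cjO_cjO, cjO_cjO]
        exact hz)
      rw [← hLam, map_mul, conj_toC, cjO_cjO] at h1
      exact h1
  · intro a
    constructor
    · intro h v hv
      rw [← hMP]
      exact h _ ((hcj a _).2 (by rwa [cjO_cjO]))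
    · intro h v hv
      have h1 := h _ ((hcj a v).1 hv)
      rwa [← hMP, cjO_cjO] at h1
  · intro c' hc'
    refine ⟨AlgEquiv.ext fun x => io_inj (by rw [hc, hc']), fun x => io_inj ?_⟩
    rw [hc, hc, Complex.conj_conj]

end Pool.Agent.DT
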