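import Pool.Agent.Lib.DT.D.SpecM

/-!
# Theorem DT, part D, module ThC: complex conjugation of the factors of theta
-/

set_option autoImplicit false

open scoped Pointwise nonZeroDivisors

noncomputable section

namespace Pool.Agent.DT

open Pool.Agent.MuZ Pool.Agent.FW NumberField IsDedekindDomain
open Pool.Agent.DI (io ofC io_inj exists_io io_ofC ofC_io VP MP UP TP ex)

/-- The quotient of squares. -/
private theorem ThC_alg {x y a b T κ : Om} (hκ : κ ≠ 0) (hx : x * κ = a - T) (hy : y * κ = b - T) :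
    y ^ 2 * ((x - y) ^ 2)⁻¹ = (b - T) ^ 2 * ((a - b) ^ 2)⁻¹ := by
  have e1 : a - b = (x - y) * κ := by linear_combination hy - hx
  rw [← hy, e1, mul_pow, mul_pow, mul_inv]
  have h2 : κ ^ 2 ≠ 0 := pow_ne_zero 2 hκ
  field_simp

theorem sThC (hO3 : S_O3) (hB7 : S_B7) (hR1 : S_R1) (hR4 : S_R4) (hX : S_XOm) : S_ThC := by
  intro k t _ c hc b hb
  obtain ⟨hR4a, c0, hc0, hc1⟩ := hR4
  have hcc : c = c0 := by
    ext x
    apply io_inj
    rw [hc, hc0]
  subst hcc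
  obtain ⟨e2, -, -⟩ := hc1 k t b hb
  have hb' : cjI b ≠ ⊥ := (hO3 k t).2.2.2.2.2.2.1 b hb
  obtain ⟨⟨-, -, -, -, -, hκ, -⟩, -, -, -, -, -, -, ⟨-, hT, hδρ, -, -⟩, -⟩ := hX k t (cjI b) hb'
  obtain ⟨iA, -, iδ, -, -, -, δ3⟩ := hR1 k t b hb
  obtain ⟨iA', -, iδ', -, -, -, δ3'⟩ := hR1 k t (cjI b) hb'
  have iκ := (hR4a k t (cjI b) hb').1
  obtain ⟨-, -, -, -, h27, -, -⟩ := hB7 k t (cjI b) hb'
  obtain ⟨-, -, -, -, -, -, hcj⟩ := hB7 k t b hb
  have hpb : pp k t * cjI b ≠ ⊥ := by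
    intro h
    rcases Ideal.mul_eq_bot.1 h with h1 | h1
    · have h2 : (3 : OO k t) ∈ pp k t := Ideal.subset_span (by simp)
      rw [h1, Ideal.mem_bot] at h2
      have h3 := congrArg (fun x : OO k t => toC x) h2
      simp only [toC_three, toC_zero] at h3
      norm_num at h3
    · exact hb' h1
  obtain ⟨iAp, -, -, -, -, -, -⟩ := hR1 k t (pp k t * cjI b) hpb
  refine ⟨?_, ?_, hκ, ?_, ?_⟩
  · rw [hδρ]
    apply io_inj
    simp only [map_pow, map_mul, map_neg, map_sub, map_ofNat, iκ, iAp]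
    linear_combination h27
  · apply io_inj
    rw [map_mul, map_pow, map_pow, map_pow, hc, iδ, iκ, iδ']
    have h1 : dlC b ^ 3 = AC b ^ 3 - 27 := by
      rw [← iδ, ← iA, ← map_pow, δ3, map_sub, map_pow, map_ofNat]
    have h2 : dlC (cjI b) ^ 3 = AC (cjI b) ^ 3 - 27 := by
      rw [← iδ', ← iA', ← map_pow, δ3', map_sub, map_pow, map_ofNat]
    rw [h2, ← hcj, ← h1, map_pow]
  · rw [hT]
    ring
  · intro z u hz hu
    simp only [map_pow, map_mul, map_inv₀, map_sub]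
    exact ThC_alg hκ (e2 z hz) (e2 u hu)

end Pool.Agent.DT
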