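import Pool.Agent.Lib.DT.D.SpecA

/-!
# Theorem DT, part D, module ThT: torsion prime to `3`
-/

set_option autoImplicit false

open scoped Pointwise nonZeroDivisors

noncomputable section

namespace Pool.Agent.DT

open Pool.Agent.MuZ Pool.Agent.FW NumberField IsDedekindDomain
open Pool.Agent.DI (io ofC io_inj exists_io io_ofC ofC_io VP MP UP TP ex)

private theorem ThT_le {k t : ℕ} {a b : Ideal (OO k t)} {R R' : Finset ℂ} (h : IsSys a b R)
    (h' : IsSys a b R') : R.card ≤ R'.card := by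
  classical
  have h1 : ∀ u : ℂ, ∃ u' : ℂ, u ∈ R → u' ∈ R' ∧ u - u' ∈ Lam b := by
    intro u
    by_cases hu : u ∈ R
    · obtain ⟨u', hu', h2⟩ := h'.ex u (h.mem u hu)
      exact ⟨u', fun _ => ⟨hu', h2⟩⟩
    · exact ⟨0, fun h2 => absurd h2 hu⟩
  choose f hf using h1
  refine Finset.card_le_card_of_injOn f (fun u hu => (hf u hu).1) ?_
  intro u hu v hv huv
  refine h.uni u hu v hv ?_
  have h2 := (hf u hu).2
  have h3 := (hf v hv).2
  rw [← huv] at h3
  have h4 : u - v = (u - f u) - (v - f u) := by ring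
  rw [h4]
  exact lam_sub h2 h3

/-- Torsion prime to `3`. -/
theorem sThT (h1 : S_O6) (_h2 : S_L2) (h3 : S_L3) : S_ThT := by
  intro k t _ a b ha hb
  obtain ⟨-, -, R0, hR0, hc0⟩ := h3 k t a b ha hb
  have hpos : 0 < NI a := by
    rw [← hc0, Finset.card_pos]
    obtain ⟨u, hu, -⟩ := hR0.ex 0 (lam_zero _)
    exact ⟨u, hu⟩
  have hmem : (NI a : OO k t) ∈ a := by
    have h4 : (NI a) • (1 : OO k t ⧸ a) = 0 := card_nsmul_eq_zero'
    rw [← Ideal.Quotient.eq_zero_iff_mem, map_natCast]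
    rw [nsmul_eq_mul, mul_one] at h4
    exact h4
  refine ⟨fun hp => ⟨?_, ((h1 k t).2.2.2.2.1 3 a).1 hp⟩, ?_, hpos, hmem, ?_⟩
  · intro z hz hz3
    have h5 : (1 : OO k t) ∈ a ⊔ Ideal.span {((3 : ℕ) : OO k t)} := by
      have h6 : a ⊔ Ideal.span {((3 : ℕ) : OO k t)} = ⊤ := hp
      rw [h6]
      exact Submodule.mem_top
    obtain ⟨v, hv, y, hy, hvy⟩ := Submodule.mem_sup.1 h5
    obtain ⟨u, hu⟩ := Ideal.mem_span_singleton'.1 hy
    have h7 : toC v + toC u * 3 = 1 := by
      have h8 := congrArg toC hvy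
      rw [toC_add, ← hu, toC_mul, toC_nat, toC_one] at h8
      exact_mod_cast h8
    have h9 : z = toC v * z + toC u * (3 * z) := by
      linear_combination (-z) * h7
    rw [h9]
    exact lam_add (lam_prod.1 hz v hv) (lam_mul u hz3)
  · intro R hR
    rw [← hc0]
    exact le_antisymm (ThT_le hR hR0) (ThT_le hR0 hR)
  · intro z hz
    have h5 := lam_prod.1 hz _ hmem
    rwa [toC_nat] at h5

end Pool.Agent.DT
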