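import Pool.Agent.Lib.DT.D.SpecM

/-!
# Theorem DT, part D, module ThU: the factors of theta are units
-/

set_option autoImplicit false

open scoped Pointwise nonZeroDivisors

noncomputable section

namespace Pool.Agent.DT

open Pool.Agent.MuZ Pool.Agent.FW NumberField IsDedekindDomain
open Pool.Agent.DI (io ofC io_inj exists_io io_ofC ofC_io VP MP UP TP ex)

/-- The case of a point of the kernel. -/
private theorem ThU_alg {Q : Ideal ZZ} [hP : Q.IsPrime] {X x : Om} (hX : ¬ VP Q X) (hx : VP Q x) :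
    UP Q (X ^ 2 * ((x - X) ^ 2)⁻¹) := by
  obtain ⟨hX0, ha⟩ := DI.VP.not_iff.1 hX
  have w3 : UP Q (1 - x * X⁻¹) := by
    refine DI.UP.congr DI.UP.one ?_
    have e : 1 - x * X⁻¹ - 1 = -(x * X⁻¹) := by ring
    rw [e]
    exact (DI.MP.mul_left hx ha).neg
  have e : X ^ 2 * ((x - X) ^ 2)⁻¹ = ((1 - x * X⁻¹) ^ 2)⁻¹ := by
    have e1 : (x - X) ^ 2 = X ^ 2 * (1 - x * X⁻¹) ^ 2 := by
      rw [← mul_pow, mul_sub, mul_one, mul_comm x, mul_inv_cancel_left₀ hX0]
      ring
    rw [e1, mul_inv, mul_inv_cancel_left₀ (pow_ne_zero 2 hX0)]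
  rw [e]
  exact (w3.pow 2).inv

theorem sThU (hL6 : S_L6a) (hX : S_XOm) (hD1 : S_D1) : S_ThU := by
  intro k t _ m b hm hb hm3 Q hQ hn
  have hP : Q.IsPrime := hQ.1
  obtain ⟨⟨-, -, -, hS0, -, -, -⟩, -⟩ := hX k t b hb
  obtain ⟨d1a, d1l, d1v, -, d1q, -, d1s⟩ := hD1 k t b hb Q hQ hn
  obtain ⟨-, ⟨-, hSn, hS3, -⟩, -⟩ := hL6 k t b hb
  have htS : Tor k t (ptS b) := (tor_iff hb).2 ⟨3, by norm_num, by exact_mod_cast hS3⟩
  have hmb : m * b ≠ ⊥ := mul_ne_zero hm hb
  -- an element of `m` which is `1` modulo `3`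
  obtain ⟨v, hv, w, hvw⟩ : ∃ v ∈ m, ∃ w : OO k t, v + ((3 : ℕ) : OO k t) * w = 1 := by
    have h1 : (1 : OO k t) ∈ m ⊔ Ideal.span {((3 : ℕ) : OO k t)} := by
      rw [show m ⊔ Ideal.span {((3 : ℕ) : OO k t)} = ⊤ from hm3]
      trivial
    obtain ⟨v, hv, y, hy, hvy⟩ := Submodule.mem_sup.1 h1
    obtain ⟨w, rfl⟩ := Ideal.mem_span_singleton.1 hy
    exact ⟨v, hv, w, hvy⟩
  -- `3 u` in the kernel
  have h3u : ∀ u ∈ Lam (m * b), IK Q b (3 * u) → IK Q b u := by
    intro u hu h3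
    have e : u = toC v * u + toC w * (3 * u) := by
      have e1 := congrArg (fun x : OO k t => toC x) hvw
      simp only [toC_add, toC_mul, toC_nat, toC_one] at e1
      push_cast at e1
      linear_combination (-u) * e1
    rw [e]
    exact d1a _ _ (d1l _ (lam_prod.1 hu v hv)) (d1v w _ h3)
  have split : ∀ y : ℂ, Tor k t y → ¬ IK Q b y → y ∉ Lam b ∧ VP Q (xO b y) := by
    intro y hy h
    constructor
    · intro h1
      exact h ⟨hy, Or.inl h1⟩
    · by_contra h1
      exact h ⟨hy, Or.inr h1⟩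
  have hkS : ¬ IK Q b (ptS b) := by
    intro h
    rcases h.2 with h1 | h1
    · exact hSn h1
    · rw [hS0] at h1
      exact h1 DI.VP.zero
  have hun : ∀ u ∈ Lam (m * b), u ∉ Lam b → ¬ IK Q b u → UP Q (xO b u) := by
    intro u hu hub hku
    have tu : Tor k t u := tor_lam hmb hu
    refine ⟨(split u tu hku).2, fun h => ?_⟩
    have h' : MP Q (xO b u - xO b (ptS b)) := by
      rw [hS0, sub_zero]
      exact h
    apply hku
    apply h3u u hu
    rcases d1s u (ptS b) tu htS hku hkS h' with h1 | h1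
    · have e : 3 * u = (u + ptS b) + (u + ptS b) + (u + ptS b) + -(3 * ptS b) := by ring
      rw [e]
      exact d1a _ _ (d1a _ _ (d1a _ _ h1 h1) h1) (d1l _ (lam_neg hS3))
    · have e : 3 * u = (u - ptS b) + (u - ptS b) + (u - ptS b) + 3 * ptS b := by ring
      rw [e]
      exact d1a _ _ (d1a _ _ (d1a _ _ h1 h1) h1) (d1l _ hS3)
  refine ⟨?_, hun, ?_⟩
  · intro hQm u hu hub hI
    unfold Abv at hQm
    push Not at hQm
    obtain ⟨α, hα, hαQ⟩ := hQm
    have h5 := d1q u hI α 1 hαQ (by rw [mul_one]; exact lam_prod.1 hu α hα)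
    rw [toC_one, one_mul] at h5
    exact hub h5
  · intro z htz hz
    have hnk : ∀ u ∈ Lam (m * b), ¬ IK Q b (z + u) := fun u hu h => hz u hu (d1q _ h)
    have hkz : ¬ IK Q b z := by
      have h := hnk 0 (lam_zero _)
      rwa [add_zero] at h
    have hxz := (split z htz hkz).2
    refine ⟨hkz, hxz, ?_, ?_⟩
    · intro h
      refine hnk (-z) (lam_neg h) ?_
      rw [add_neg_cancel]
      exact d1l _ (lam_zero _)
    · intro u hu hub
      have tu : Tor k t u := tor_lam hmb hu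
      by_cases hku : IK Q b u
      · exact ⟨ThU_alg (hku.2.resolve_left hub) hxz, fun h => absurd hku h⟩
      · have hXu : UP Q (xO b u) := hun u hu hub hku
        have hd : UP Q (xO b z - xO b u) := by
          refine ⟨hxz.sub hXu.1, fun h => ?_⟩
          rcases d1s z u htz tu hkz hku h with h1 | h1
          · exact hnk u hu h1
          · rw [sub_eq_add_neg] at h1
            exact hnk (-u) (lam_neg hu) h1
        exact ⟨(hXu.pow 2).mul (hd.pow 2).inv, fun _ => hd⟩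

end Pool.Agent.DT
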