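import Pool.Agent.Lib.DT.D.SpecA

/-!
# Theorem DT, part D, module XOm: the formulas in `Om`
-/

set_option autoImplicit false

open scoped Pointwise nonZeroDivisors

noncomputable section

namespace Pool.Agent.DT

open Pool.Agent.MuZ Pool.Agent.FW NumberField IsDedekindDomain
open Pool.Agent.DI (io ofC io_inj exists_io io_ofC ofC_io VP MP UP TP ex)

private theorem XOm_of {x : ℂ} {y : Om} (h : x = io y) : ofC x = y := by rw [h, ofC_io]

private theorem XOm_three {k t : ℕ} [SqT k t] : (3 : OO k t) ≠ 0 := by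
  intro h
  have h1 := congrArg toC h
  have h2 := toC_nat (k := k) (t := t) 3
  rw [toC_zero] at h1
  push_cast at h2
  rw [h1] at h2
  norm_num at h2

private theorem XOm_pp {k t : ℕ} [SqT k t] {b : Ideal (OO k t)} (hb : b ≠ ⊥) : pp k t * b ≠ ⊥ := by
  intro h
  rcases Ideal.mul_eq_bot.1 h with h1 | h1
  · have h2 : (3 : OO k t) ∈ pp k t := Ideal.subset_span (by simp)
    rw [h1] at h2
    exact XOm_three ((Submodule.mem_bot (OO k t)).1 h2)
  · exact hb h1

private theorem XOm_ppb {k t : ℕ} [SqT k t] {b : Ideal (OO k t)} (hb : b ≠ ⊥) :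
    ppb k t * b ≠ ⊥ := by
  intro h
  rcases Ideal.mul_eq_bot.1 h with h1 | h1
  · have h2 : (3 : OO k t) ∈ ppb k t := Ideal.subset_span (by simp)
    rw [h1] at h2
    exact XOm_three ((Submodule.mem_bot (OO k t)).1 h2)
  · exact hb h1

set_option linter.unusedSimpArgs false in
theorem sXOm (_ : S_L2) (hL6 : S_L6a) (hB1 : S_B1) (hB3 : S_B3) (hB4 : S_B4) (hB5 : S_B5) (hB6 : S_B6)
    (hB7 : S_B7) (hB7k : S_B7k) (hR1 : S_R1) (hR4 : S_R4) : S_XOm := by
  intro k t _ b hb
  have hx : ∀ b' : Ideal (OO k t), b' ≠ ⊥ → ∀ z : ℂ, Tor k t z → io (xO b' z) = XC b' z :=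
    fun b' hb' z hz => (hR4.1 k t b' hb').2 z hz
  have hk : io (kpO b) = kpC b := (hR4.1 k t b hb).1
  have ha : ∀ b' : Ideal (OO k t), b' ≠ ⊥ → io (aO b') = AC b' := fun b' hb' => (hR1 k t b' hb').1
  have hr : ∀ b' : Ideal (OO k t), b' ≠ ⊥ → io (rhO b') = rhC b' :=
    fun b' hb' => (hR1 k t b' hb').2.1
  have hl : ∀ b' : Ideal (OO k t), b' ≠ ⊥ → io (dlO b') = dlC b' :=
    fun b' hb' => (hR1 k t b' hb').2.2.1
  obtain ⟨p1, p2, p3, p4, p5, p6, p7, p8, p9, p10, p11, p12, p13, p14⟩ := hB1 k t b hb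
  have hpp := XOm_pp hb
  have hppb := XOm_ppb hb
  have hS : Tor k t (ptS b) := (tor_iff hb).2 ⟨3, by norm_num, by
    have := (hL6 k t b hb).2.1.2.2.1
    push_cast
    exact this⟩
  have hT : Tor k t (ptT b) := (tor_iff hb).2 ⟨3, by norm_num, by
    have := (hL6 k t b hb).1.2.2.1
    push_cast
    exact this⟩
  have h2z : ∀ z : ℂ, Tor k t z → Tor k t (2 * z) := by
    intro z hz
    rw [two_mul]
    exact tor_add hz hz
  have h4z : ∀ z : ℂ, Tor k t z → Tor k t (4 * z) := by
    intro z hz
    have e : 4 * z = (z + z) + (z + z) := by ring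
    rw [e]
    exact tor_add (tor_add hz hz) (tor_add hz hz)
  obtain ⟨-, h7, h7b, -, -, -⟩ := hB7 k t b hb
  obtain ⟨s1, s2, s3, s4, s5⟩ := hB5 k t b hb
  obtain ⟨t1, t2, t3, t4, t5, t6, t7, t8⟩ := hB6 k t b hb
  refine ⟨⟨?_, ?_, ?_, ?_, ?_, ?_, ?_⟩, ?_, ?_, ?_, ?_, ?_, ⟨?_, ?_, ?_, ?_, ?_⟩,
    ⟨?_, ?_, ?_, ?_, ?_⟩, ?_, ?_⟩
  · intro z l hl'
    unfold xO
    rw [(p1 z l hl').2.2]
  · intro z
    unfold xO
    rw [(p2 z).2.2]
  · intro z hz
    apply XOm_of
    rw [(p11 z hz).1]
    simp only [map_div₀, map_neg, map_add, map_one, map_mul, map_ofNat, map_pow]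
    rw [ha b hb]
  · apply XOm_of
    rw [p12, map_zero]
  · intro h
    apply p5
    rw [← ha b hb]
    have h1 := congrArg io h
    simpa only [map_sub, map_one, map_mul, map_pow, map_ofNat, map_zero] using h1
  · intro h
    apply h7b
    rw [← hk, h, map_zero]
  · intro h
    have h1 : dlC b = 0 := by rw [← hl b hb, h, map_zero]
    apply p5
    rw [← t6, h1]
    ring
  · intro z z' hz hz' h1 h2
    rw [← p8 z z' h1 h2, ← hx b hb z hz, ← hx b hb z' hz']
    exact io_inj.eq_iff.symm
  · intro z z' hz hz' h1 h2 h3 h4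
    obtain ⟨q1, q2, -⟩ := (hB3 k t b hb).1 z z' h1 h2 h3 h4
    rw [← hx b hb z hz, ← hx b hb z' hz', ← hx b hb (z + z') (tor_add hz hz'),
      ← hx b hb (z - z') (tor_sub hz hz'), ← ha b hb] at q1 q2
    constructor
    · apply io_inj
      simp only [map_div₀, map_neg, map_add, map_sub, map_one, map_mul, map_ofNat, map_pow]
      exact q1
    · apply io_inj
      simp only [map_div₀, map_neg, map_add, map_sub, map_one, map_mul, map_ofNat, map_pow]
      exact q2
  · intro z hz h2
    have q := (hB3 k t b hb).2 z h2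
    unfold WC2 at q
    rw [← hx b hb z hz, ← hx b hb (2 * z) (h2z z hz), ← ha b hb] at q
    apply io_inj
    unfold W2
    simp only [map_div₀, map_neg, map_add, map_sub, map_one, map_mul, map_ofNat, map_pow]
    exact q
  · intro z hz h1 h2 h3
    obtain ⟨q1, q2, q3, -⟩ := (hB4 k t b hb).1 z h1 h2 h3
    rw [← hx b hb z hz, ← hx b hb (z + ptS b) (tor_add hz hS),
      ← hx b hb (z - ptS b) (tor_sub hz hS)] at q2 q3
    rw [← ha b hb] at q3
    refine ⟨?_, ?_, ?_⟩
    · intro h
      apply q1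
      rw [← hx b hb z hz, h, map_zero]
    · apply io_inj
      simp only [map_div₀, map_neg, map_add, map_sub, map_one, map_mul, map_ofNat, map_pow]
      exact q2
    · apply io_inj
      simp only [map_div₀, map_neg, map_add, map_sub, map_one, map_mul, map_ofNat, map_pow]
      exact q3
  · intro z hz h1
    have hz' : Tor k t z := tor_lam (mul_ne_zero (pow_ne_zero 2 (by
      intro h
      exact XOm_ppb (b := (⊤ : Ideal (OO k t))) top_ne_bot (by rw [Ideal.mul_top]; exact h))) hb) hz
    obtain ⟨q1, q2, q3, q4⟩ := (hB4 k t b hb).2 z hz h1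
    rw [← hx b hb z hz'] at q1 q2 q3 q4
    rw [← hx b hb (4 * z) (h4z z hz')] at q1
    rw [← hx b hb (2 * z) (h2z z hz')] at q2
    refine ⟨?_, ?_, ?_, ?_⟩
    · apply io_inj
      simp only [map_div₀, map_neg, map_add, map_sub, map_one, map_mul, map_ofNat, map_pow]
      exact q1
    · apply io_inj
      simp only [map_div₀, map_neg, map_add, map_sub, map_one, map_mul, map_ofNat, map_pow]
      exact q2
    · intro h
      apply q3
      rw [h, map_zero]
    · intro h
      apply q4
      rw [h, map_one]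
  · intro h
    apply s1
    rw [← hr b hb, h, map_zero]
  · apply io_inj
    simp only [map_add, map_sub, map_one, map_mul, map_ofNat, map_pow]
    rw [hr b hb, ha b hb]
    exact s2
  · apply io_inj
    simp only [map_add, map_sub, map_one, map_mul, map_ofNat, map_pow]
    rw [hr b hb, ha b hb, ha _ hppb]
    exact s3
  · apply io_inj
    simp only [map_add, map_sub, map_one, map_mul, map_ofNat, map_pow]
    rw [hr b hb, ha b hb, hl _ hppb]
    exact s4
  · intro z hz h1
    have q := (s5.2 z h1).1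
    apply io_inj
    simp only [map_add, map_sub, map_one, map_mul, map_ofNat, map_pow]
    rw [hr b hb, ha b hb, hx b hb z hz, hx _ hppb z hz]
    exact q
  · apply io_inj
    simp only [map_add, map_sub, map_one, map_mul, map_ofNat, map_pow]
    rw [hr _ hpp, ha b hb, ha _ hpp]
    exact t3
  · apply io_inj
    simp only [map_div₀, map_neg, map_ofNat]
    rw [hr _ hpp, hx b hb _ hT]
    exact t4
  · apply io_inj
    simp only [map_add, map_sub, map_one, map_mul, map_ofNat, map_pow]
    rw [hr _ hpp, hl b hb, ha _ hpp]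
    exact t5
  · apply io_inj
    simp only [map_add, map_sub, map_one, map_mul, map_ofNat, map_pow]
    rw [hl b hb, ha b hb]
    exact t6
  · intro z hz h1
    obtain ⟨q1, q2, -⟩ := t8 z h1
    constructor
    · intro h
      apply q1
      rw [← hr _ hpp, ← hx b hb z hz]
      have h3 := congrArg io h
      simpa only [map_add, map_one, map_mul, map_ofNat, map_zero] using h3
    · apply io_inj
      simp only [map_add, map_sub, map_one, map_mul, map_ofNat, map_pow]
      rw [hr _ hpp, ha _ hpp, hx b hb z hz, hx _ hpp z hz]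
      exact q2
  · intro z hz h1
    have hz' : Tor k t z := tor_lam (mul_ne_zero (pow_ne_zero 2 (by
      intro h
      exact XOm_pp (b := (⊤ : Ideal (OO k t))) top_ne_bot (by rw [Ideal.mul_top]; exact h))) hb) hz
    obtain ⟨q1, q2⟩ := hB7k k t b hb z hz h1
    rw [← hx b hb z hz', ← hx b hb (4 * z) (h4z z hz'), ← hx b hb (2 * z) (h2z z hz'),
      ← hx b hb (ptT b) hT, ← hk] at q2
    rw [← hx b hb (4 * z) (h4z z hz'), ← hx b hb (2 * z) (h2z z hz')] at q1
    constructor
    · intro h
      apply q1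
      rw [h]
    · apply io_inj
      simp only [map_add, map_sub, map_one, map_mul, map_ofNat, map_pow]
      exact q2
  · intro α hα
    obtain ⟨q1, q2, q3, q4, q5, -⟩ := (hB7 k t b hb).1 α hα
    refine ⟨?_, ?_, ?_, ?_, ?_⟩
    · intro z
      unfold xO
      rw [(q1 z).1]
    · unfold aO
      rw [q2]
    · unfold rhO
      rw [q3]
    · unfold dlO
      rw [q4]
    · unfold kpO
      rw [q5]

end Pool.Agent.DT
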