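import Pool.Agent.Lib.DT.HB
import Pool.Agent.Lib.DT.O.All
import Pool.Agent.Lib.DT.D.D1
import Pool.Agent.Lib.DT.D.D2
import Pool.Agent.Lib.DT.D.D3
import Pool.Agent.Lib.DT.D.D3a
import Pool.Agent.Lib.DT.D.D3b
import Pool.Agent.Lib.DT.D.D4
import Pool.Agent.Lib.DT.D.D5
import Pool.Agent.Lib.DT.D.D6
import Pool.Agent.Lib.DT.D.D7
import Pool.Agent.Lib.DT.D.D8
import Pool.Agent.Lib.DT.D.D9
import Pool.Agent.Lib.DT.D.DUn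
import Pool.Agent.Lib.DT.D.Dis
import Pool.Agent.Lib.DT.D.Fer
import Pool.Agent.Lib.DT.D.HsP
import Pool.Agent.Lib.DT.D.KN3
import Pool.Agent.Lib.DT.D.KNa
import Pool.Agent.Lib.DT.D.KNq
import Pool.Agent.Lib.DT.D.KQp
import Pool.Agent.Lib.DT.D.KRed
import Pool.Agent.Lib.DT.D.KSep
import Pool.Agent.Lib.DT.D.KSub
import Pool.Agent.Lib.DT.D.KTS
import Pool.Agent.Lib.DT.D.LaU
import Pool.Agent.Lib.DT.D.PrC
import Pool.Agent.Lib.DT.D.Ptt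
import Pool.Agent.Lib.DT.D.QpC
import Pool.Agent.Lib.DT.D.Ref
import Pool.Agent.Lib.DT.D.ThC
import Pool.Agent.Lib.DT.D.ThT
import Pool.Agent.Lib.DT.D.ThU
import Pool.Agent.Lib.DT.D.XOm
import Pool.Agent.Lib.DT.R.AbQ
import Pool.Agent.Lib.DT.R.R0
import Pool.Agent.Lib.DT.R.R0O
import Pool.Agent.Lib.DT.R.R1
import Pool.Agent.Lib.DT.R.R2
import Pool.Agent.Lib.DT.R.R3
import Pool.Agent.Lib.DT.R.R4
import Pool.Agent.Lib.DT.R.R4a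
import Pool.Agent.Lib.DT.R.R5
import Pool.Agent.Lib.DT.R.R5a
import Pool.Agent.Lib.DT.R.RB
import Pool.Agent.Lib.DT.R.RC

/-!
# Theorem DT, parts R and D: assembly, given Part B

`HB` : the statements of Part B. `aR1 (B : HB) : S_R1`, .., `aD1 (B : HB) : S_D1`, ...
-/

set_option autoImplicit false

noncomputable section

namespace Pool.Agent.DT

theorem aRB : S_RB := sRB
theorem aR0 (B : HB) : S_R0 := sR0 aO4 aO5 B.b1 B.b5 B.b6 B.b7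
theorem aR1 (B : HB) : S_R1 := sR1 aRB (aR0 B)
theorem aRC : S_RC := sRC aRB
theorem aR0O (B : HB) : S_R0O := sR0O (aR0 B) (aR1 B)
theorem aR2 (B : HB) : S_R2 := sR2 aO4 aRB aRC (aR0O B) (aR1 B) B.b6 B.b7
theorem aR3 (B : HB) : S_R3 := sR3 aO4 aO5 B.b6 B.b7 (aR1 B) (aR2 B)
theorem aR4a (B : HB) : S_R4a := sR4a aL2 aL3 B.b1 B.b2 B.b3 (aR1 B)
theorem aR4 (B : HB) : S_R4 := sR4 aO3 aL2 aL6a B.b7 (aR1 B) (aR4a B)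
theorem aAbQ : S_AbQ := sAbQ aO4
theorem aR5a (B : HB) : S_R5a := sR5a aL2 aL3 aL6a B.b1 B.b6 B.b9 (aR4a B)
theorem aR5 (B : HB) : S_R5 :=
  sR5 aO4 aO6 aL2 B.b1 B.b2 B.b11 B.b12 B.b14 aAbQ (aR1 B) (aR2 B) (aR4 B) (aR5a B)
theorem aXOm (B : HB) : S_XOm := sXOm aL2 aL6a B.b1 B.b3 B.b4 B.b5 B.b6 B.b7 B.b7k (aR1 B) (aR4 B)
theorem aDUn (B : HB) : S_DUn := sDUn (aXOm B) aAbQ (aR1 B) (aR2 B)
theorem aKSub (B : HB) : S_KSub := sKSub (aXOm B) (aDUn B)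
theorem aKRed (B : HB) : S_KRed := sKRed (aXOm B) (aDUn B)
theorem aKSep (B : HB) : S_KSep := sKSep (aXOm B) (aDUn B)
theorem aKN3 (B : HB) : S_KN3 := sKN3 (aXOm B) (aDUn B)
theorem aThT : S_ThT := sThT aO6 aL2 aL3
theorem aKTS (B : HB) : S_KTS := sKTS aL6a (aXOm B) (aDUn B) (aKSub B)
theorem aPrC (B : HB) : S_PrC := sPrC aL2 aL6a aL6 aThT B.b1 B.b8 (aXOm B) (aR4 B) (aR5a B)
theorem aKNq (B : HB) : S_KNq :=
  sKNq aL3 aThT (aXOm B) (aDUn B) (aKSub B) (aKRed B) (aKSep B) (aKTS B) (aPrC B)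
theorem aKNa (B : HB) : S_KNa := sKNa aO4 aO6 (aXOm B) (aKN3 B) (aKNq B)
theorem aLaU (B : HB) : S_LaU := sLaU aO5 aL3 B.b7 aAbQ (aPrC B) (aKNq B)
theorem aKQp (B : HB) : S_KQp := sKQp aO4 aL3 aL4 aL6a aAbQ (aKNa B) (aKSub B) (aKTS B) (aLaU B)
theorem aD1 (B : HB) : S_D1 := sD1 (aKSub B) (aKRed B) (aKSep B) (aKNa B) (aKQp B)
theorem aD2 (B : HB) : S_D2 := sD2 aO6 aL6a (aR5 B) aAbQ aThT (aXOm B) (aDUn B) (aKTS B) (aKNq B) (aD1 B)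
theorem aFer : S_Fer := sFer aAbQ
theorem aD3a (B : HB) : S_D3a := sD3a aL3 (aD1 B) (aPrC B) (aKNq B) (aLaU B) aFer
theorem aPtt (B : HB) : S_Ptt := sPtt aL6a aL6 aThT (aXOm B) (aDUn B) (aKTS B) (aD1 B)
theorem aD3b : S_D3b := sD3b
theorem aD3 (B : HB) : S_D3 := sD3 aL3 aThT (aD1 B) (aPrC B) aFer (aD3a B) (aPtt B) aD3b
theorem aRef (B : HB) : S_Ref := sRef (aXOm B) (aDUn B)
theorem aD4 (B : HB) : S_D4 := sD4 aL3 B.b1 B.b7 (aPrC B) aFer (aD3a B) (aRef B)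
theorem aThU (B : HB) : S_ThU := sThU aL6a (aXOm B) (aD1 B)
theorem aQpC : S_QpC := sQpC aO3 aL2
theorem aThC (B : HB) : S_ThC := sThC aO3 B.b7 (aR1 B) (aR4 B) (aXOm B)
theorem aD5 (B : HB) : S_D5 := sD5 aO3 aL2 aO4 B.b14 (aR2 B) (aR4 B) aAbQ (aThU B) aQpC (aThC B)
theorem aHsP : S_HsP := sHsP aO3 aL2
theorem aD8 (B : HB) : S_D8 := sD8 aL6a B.b14 (aXOm B) aHsP
theorem aD6 (B : HB) : S_D6 := sD6 B.b14 (aR2 B) aAbQ (aD1 B) (aD3 B) aHsP (aD8 B) (aThU B)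
theorem aDis (B : HB) : S_Dis := sDis aO6 aL3 B.b14 B.b16 (aR4 B) (aD8 B)
theorem aD7 (B : HB) : S_D7 := sD7 aO6 aL3 aL6a aThT aFer (aD3 B) (aD5 B) (aD6 B) (aDis B)
theorem aD9 (B : HB) : S_D9 :=
  sD9 aO4 aO6 aL2 aL3 aL6a B.b12 B.b14 (aR1 B) (aR2 B) (aR4 B) (aR5 B) aAbQ aThT (aXOm B) (aDUn B)
    (aKSep B) (aD1 B) (aD2 B)

end Pool.Agent.DT
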