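import Pool.Agent.Lib.DT.D.HsP
import Pool.Agent.Lib.DT.D.QpC
import Pool.Agent.Lib.DT.D.D8
import Pool.Agent.Lib.DT.D.ThU
import Pool.Agent.Lib.DT.D.ThC
import Pool.Agent.Lib.DT.D.D5
import Pool.Agent.Lib.DT.D.D6

/-!
# Theorem DT, part D: theta units, assembly
-/

set_option autoImplicit false

noncomputable section

namespace Pool.Agent.DT

/-- The theta part of part D. -/
theorem allM (hO3 : S_O3) (hO4 : S_O4) (hL2 : S_L2) (hL6a : S_L6a) (hB7 : S_B7) (hB14 : S_B14)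
    (hR1 : S_R1) (hR2 : S_R2) (hR4 : S_R4) (hAbQ : S_AbQ) (hX : S_XOm) (hD1 : S_D1) (hD3 : S_D3) :
    S_HsP ∧ S_QpC ∧ S_D8 ∧ S_ThU ∧ S_ThC ∧ S_D5 ∧ S_D6 := by
  have hHsP : S_HsP := sHsP hO3 hL2
  have hQpC : S_QpC := sQpC hO3 hL2
  have hD8 : S_D8 := sD8 hL6a hB14 hX hHsP
  have hThU : S_ThU := sThU hL6a hX hD1
  have hThC : S_ThC := sThC hO3 hB7 hR1 hR4 hX
  exact ⟨hHsP, hQpC, hD8, hThU, hThC, sD5 hO3 hL2 hO4 hB14 hR2 hR4 hAbQ hThU hQpC hThC,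
    sD6 hB14 hR2 hAbQ hD1 hD3 hHsP hD8 hThU⟩

end Pool.Agent.DT
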