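import Pool.Agent.Lib.DT.D.SpecA
import Pool.Agent.Lib.DI.Val

/-!
# Theorem DT, part D, module DUn: units at `Q`
-/

set_option autoImplicit false

open scoped Pointwise nonZeroDivisors

noncomputable section

namespace Pool.Agent.DT

open Pool.Agent.MuZ Pool.Agent.FW NumberField IsDedekindDomain
open Pool.Agent.DI (io ofC io_inj exists_io io_ofC ofC_io VP MP UP TP ex)

theorem sDUn (_ : S_XOm) (h2 : S_AbQ) (h3 : S_R1) (h4 : S_R2) : S_DUn := by
  intro k t _ b hb Q hQ hn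
  have hP : Q.IsPrime := hQ.1
  obtain ⟨va, -, -, hU, -⟩ := h4 k t b hb Q hQ
  obtain ⟨ur, ul⟩ := hU hn
  have hΔ : UP Q (aO b ^ 3 - 27) := by
    rw [← (h3 k t b hb).2.2.2.2.2.2]
    exact ul.pow 3
  refine ⟨va, ur, ul, hΔ, ?_, ?_⟩
  · by_cases h : MP Q 3
    · rcases ((h2 k t).2.2.2.2.1 Q).2.2.2 hQ h with h5 | h5
      · exact Or.inr h5
      · exact absurd h5 hn
    · exact Or.inl h
  · intro x vx hG hF
    apply hΔ.2
    have vn : ∀ n : ℕ, VP Q (n : Om) := fun n => DI.VP.nat n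
    have v12 : VP Q (12 : Om) := by exact_mod_cast vn 12
    have v10 : VP Q (10 : Om) := by exact_mod_cast vn 10
    have v27 : VP Q (27 : Om) := by exact_mod_cast vn 27
    have v48 : VP Q (48 : Om) := by exact_mod_cast vn 48
    have v8 : VP Q (8 : Om) := by exact_mod_cast vn 8
    have v32 : VP Q (32 : Om) := by exact_mod_cast vn 32
    have e : aO b ^ 3 - 27 =
        (12 * x ^ 3 - aO b ^ 2 * x ^ 2 - 10 * aO b * x + aO b ^ 3 - 27) *
          (4 * x ^ 3 + (aO b * x + 1) ^ 2) -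
        (48 * x ^ 2 + 8 * aO b ^ 2 * x + 32 * aO b - aO b ^ 4) * (x ^ 4 - aO b * x ^ 2 - 2 * x) := by
      ring
    rw [e]
    refine DI.MP.sub (DI.MP.mul_left ?_ hG) (DI.MP.mul_left ?_ hF)
    · exact (((((v12.mul (vx.pow 3)).sub ((va.pow 2).mul (vx.pow 2))).sub
        ((v10.mul va).mul vx)).add (va.pow 3)).sub v27)
    · exact (((v48.mul (vx.pow 2)).add ((v8.mul (va.pow 2)).mul vx)).add (v32.mul va)).sub (va.pow 4)

end Pool.Agent.DT
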