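import Pool.Agent.Lib.DT.D.SpecK

/-!
# Theorem DT (`p = 3`), part D, module Ptt (helper87): the points `ptT b`, `ptt b` on the curve of `a b`
-/

set_option autoImplicit false

open scoped Pointwise nonZeroDivisors

noncomputable section

namespace Pool.Agent.DT

open Pool.Agent.MuZ Pool.Agent.FW NumberField IsDedekindDomain
open Pool.Agent.DI (io ofC io_inj exists_io io_ofC ofC_io VP MP UP TP ex)

variable {k t : ℕ}

private theorem Ptt_three_pp : (3 : OO k t) ∈ pp k t := Ideal.subset_span (by simp)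

private theorem Ptt_three_ppb : (3 : OO k t) ∈ ppb k t := Ideal.subset_span (by simp)

private theorem Ptt_pp_ne [SqT k t] : pp k t ≠ ⊥ := by
  intro h
  have h1 := Ptt_three_pp (k := k) (t := t)
  rw [h, Ideal.mem_bot] at h1
  have h2 : toC (3 : OO k t) = 0 := by rw [h1, toC_zero]
  rw [toC_three] at h2
  norm_num at h2

/-- A value of an even periodic function. -/
private theorem Ptt_per {c : Ideal (OO k t)}
    (h1 : ∀ z l : ℂ, l ∈ Lam c → xO c (z + l) = xO c z) (h2 : ∀ z : ℂ, xO c (-z) = xO c z)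
    {z z' : ℂ} (h : z - z' ∈ Lam c ∨ z + z' ∈ Lam c) : xO c z = xO c z' := by
  rcases h with h | h
  · have := h1 z' _ h
    rwa [add_sub_cancel] at this
  · have := h1 (-z') _ h
    rw [h2] at this
    rw [← this]
    congr 1
    ring

private theorem Ptt_lam {c : Ideal (OO k t)} {z z' : ℂ} (h : z - z' ∈ Lam c ∨ z + z' ∈ Lam c) :
    z ∈ Lam c ↔ z' ∈ Lam c := by
  rcases h with h | h
  · exact lam_sub_iff h
  · rw [← lam_neg_iff (z := z')]
    refine lam_sub_iff ?_
    rwa [sub_neg_eq_add]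

/-- Step (1). -/
private theorem Ptt_one [SqT k t] (hL6a : S_L6a) (hThT : S_ThT) {a b : Ideal (OO k t)} (ha : a ≠ ⊥)
    (hb : b ≠ ⊥) (hab : PrI a (sN k t 3)) (j : ℤ) :
    (j : ℂ) * ptt b ∈ Lam (a * b) ↔ (9 : ℤ) ∣ j := by
  obtain ⟨-, -, -, -, -, h9, -⟩ := hL6a k t b hb
  obtain ⟨hT1, -, -, -, hT5⟩ := hThT k t a b ha hb
  constructor
  · intro h
    have h1 := hT5 _ h
    have h2 : (((NI a : ℤ) * j : ℤ) : ℂ) * ptt b ∈ Lam b := by
      push_cast
      rwa [mul_assoc]
    have h3 := (h9 _).1 h2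
    have h4 : IsCoprime (9 : ℤ) (NI a : ℤ) := by
      have h5 : (9 : ℕ).Coprime (NI a) := by
        have := ((hT1 hab).2).symm
        exact Nat.Coprime.pow_left 2 this
      exact_mod_cast Nat.isCoprime_iff_coprime.2 h5
    exact h4.dvd_of_dvd_mul_left h3
  · intro h
    exact lam_mono ((h9 j).2 h)

theorem sPtt (hL6a : S_L6a) (hL6 : S_L6) (hThT : S_ThT) (hXOm : S_XOm) (hDUn : S_DUn)
    (hKTS : S_KTS) (hD1 : S_D1) : S_Ptt := by
  intro k t _ a b ha hb hab
  have h1 := Ptt_one hL6a hThT ha hb hab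
  obtain ⟨⟨-, -, hT3, -, -⟩, -, -, htt, -, h9, -⟩ := hL6a k t b hb
  obtain ⟨-, -, hL63, -⟩ := hL6 k t b hb
  obtain ⟨hcT, hcS, -⟩ := hL63 a ha hab
  have hc : a * b ≠ ⊥ := mul_ne_zero ha hb
  obtain ⟨⟨hper, hev, -⟩, -, -, -, hXtr, hX9, -, ⟨hXp1, hXp2, hXp3, -, -⟩, -⟩ := hXOm k t (a * b) hc
  have htorT : Tor k t (ptT b) := (tor_iff hb).2 ⟨3, by norm_num, by exact_mod_cast hT3⟩
  have htort : Tor k t (ptt b) := by
    refine (tor_iff hb).2 ⟨9, by norm_num, ?_⟩
    have := (h9 9).2 (dvd_refl 9)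
    exact_mod_cast this
  have htorj : ∀ j : ℤ, Tor k t (j * ptt b) := by
    intro j
    have := tor_mul (j : OO k t) htort
    rwa [toC_int] at this
  -- step (2)
  have hin : ptt b ∈ Lam (ppb k t ^ 2 * (a * b)) := by
    have := lam_mono (a := a) htt
    rwa [mul_left_comm] at this
  have hout : ptt b ∉ Lam (ppb k t * (a * b)) := by
    intro h
    have h2 := lam_prod.1 h 3 Ptt_three_ppb
    rw [toC_three] at h2
    have h3 : ((3 : ℤ) : ℂ) * ptt b ∈ Lam (a * b) := by exact_mod_cast h2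
    have h4 := (h1 3).1 h3
    norm_num at h4
  obtain ⟨r1, r2, -, -⟩ := hX9 _ hin hout
  -- step (3)
  have hnot : ∀ j : ℤ, ¬ (9 : ℤ) ∣ j → (j : ℂ) * ptt b ∉ Lam (a * b) := fun j hj h => hj ((h1 j).1 h)
  have n1 : ptt b ∉ Lam (a * b) := by
    have := hnot 1 (by norm_num)
    rwa [Int.cast_one, one_mul] at this
  have n4 : 4 * ptt b ∉ Lam (a * b) := by
    have := hnot 4 (by norm_num)
    exact_mod_cast this
  have n2 : 2 * ptt b ∉ Lam (a * b) := by
    have := hnot 2 (by norm_num)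
    exact_mod_cast this
  have hSdef : ptS b = 3 * ptt b := rfl
  have hr3 : (xO (a * b) (4 * ptt b) + xO (a * b) (2 * ptt b)) * xO (a * b) (ptt b) ^ 2 =
      aO (a * b) * xO (a * b) (ptt b) + 1 := by
    rcases hcS with h | h
    · have e1 : ptt b + ptS (a * b) - 4 * ptt b ∈ Lam (a * b) := by
        rw [hSdef] at h
        convert h using 1
        ring
      have e2 : ptt b - ptS (a * b) + 2 * ptt b ∈ Lam (a * b) := by
        rw [hSdef] at h
        have := lam_neg h
        convert this using 1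
        ring
      have m1 : ptt b + ptS (a * b) ∉ Lam (a * b) := fun hh => n4 ((Ptt_lam (Or.inl e1)).1 hh)
      have m2 : ptt b - ptS (a * b) ∉ Lam (a * b) := fun hh => n2 ((Ptt_lam (Or.inr e2)).1 hh)
      obtain ⟨-, -, hh⟩ := hXtr (ptt b) htort n1 m1 m2
      rwa [Ptt_per hper hev (Or.inl e1), Ptt_per hper hev (Or.inr e2)] at hh
    · have e1 : ptt b + ptS (a * b) + 2 * ptt b ∈ Lam (a * b) := by
        rw [hSdef] at h
        convert h using 1
        ring
      have e2 : ptt b - ptS (a * b) - 4 * ptt b ∈ Lam (a * b) := by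
        rw [hSdef] at h
        have := lam_neg h
        convert this using 1
        ring
      have m1 : ptt b + ptS (a * b) ∉ Lam (a * b) := fun hh => n2 ((Ptt_lam (Or.inr e1)).1 hh)
      have m2 : ptt b - ptS (a * b) ∉ Lam (a * b) := fun hh => n4 ((Ptt_lam (Or.inl e2)).1 hh)
      obtain ⟨-, -, hh⟩ := hXtr (ptt b) htort n1 m1 m2
      rw [Ptt_per hper hev (Or.inr e1), Ptt_per hper hev (Or.inl e2), add_comm] at hh
      exact hh
  -- step (4)
  have hT : xO (a * b) (ptT (a * b)) = xO (a * b) (ptT b) := Ptt_per hper hev hcT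
  -- step (5)
  have hd : dlO (a * b) * xO (a * b) (ptT b) = aO (a * b) * xO (a * b) (ptT b) + 3 := by
    rw [← hT, hXp2]
    linear_combination (-1 / 3 : Om) * hXp3 + (1 / 3 : Om) * hXp1
  refine ⟨h1, r1, r2, hr3, hT.symm, htorT, htort, hd, ?_⟩
  intro Q hQ hQ3
  have := hQ.1
  have hQb : ¬ AbPb k t Q := fun h => hQ3 h.2.1
  obtain ⟨-, -, -, -, hQp, -, -⟩ := hD1 k t (a * b) hc Q hQ hQb
  have hno : ∀ j : ℤ, ¬ (9 : ℤ) ∣ j → ¬ IK Q (a * b) (j * ptt b) ∧ VP Q (xO (a * b) (j * ptt b)) := by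
    intro j hj
    have hK : ¬ IK Q (a * b) (j * ptt b) := by
      intro hK
      have hq := hQp _ hK (9 : OO k t) 1 ?_ ?_
      · rw [toC_one, one_mul] at hq
        exact hnot j hj hq
      · have e : toO (9 : OO k t) = 3 * 3 := by
          have := toO_nat (k := k) (t := t) 9
          norm_num at this ⊢
          exact_mod_cast this
        rw [e]
        intro h
        rcases MP.mul_cases (VP.nat 3) (VP.nat 3) (by exact_mod_cast h) with h' | h'
        · exact hQ3 (by exact_mod_cast h')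
        · exact hQ3 (by exact_mod_cast h')
      · rw [mul_one]
        have e : toC (9 : OO k t) = 9 := by
          have := toC_nat (k := k) (t := t) 9
          exact_mod_cast this
        rw [e]
        have h2 := (h1 (9 * j)).2 (dvd_mul_right 9 j)
        push_cast at h2
        rwa [mul_assoc] at h2
    refine ⟨hK, ?_⟩
    by_contra hV
    exact hK ⟨htorj j, Or.inr hV⟩
  have v1 : VP Q (xO (a * b) (ptt b)) := by
    have := (hno 1 (by norm_num)).2
    rwa [Int.cast_one, one_mul] at this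
  have v2 : VP Q (xO (a * b) (2 * ptt b)) := by
    have := (hno 2 (by norm_num)).2
    exact_mod_cast this
  have v4 : VP Q (xO (a * b) (4 * ptt b)) := by
    have := (hno 4 (by norm_num)).2
    exact_mod_cast this
  have u1 : UP Q (1 - xO (a * b) (ptt b)) := by
    refine ⟨VP.one.sub v1, ?_⟩
    intro h
    have h2 := MP.mul_left v4 h
    rw [r1] at h2
    exact MP.one_not h2
  have u2 : UP Q (xO (a * b) (ptt b)) := by
    refine ⟨v1, ?_⟩
    intro h
    have h2 := MP.mul_left v2 h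
    rw [r2] at h2
    apply u1.2
    have h3 := h2.neg
    rwa [neg_sub] at h3
  obtain ⟨-, -, -, -, -, -, -, hKT, -⟩ := hKTS k t (a * b) hc Q hQ hQb
  have hKT' : ¬ IK Q (a * b) (ptT b) := by
    rintro ⟨-, h⟩
    apply hKT hQ3
    refine ⟨?_, ?_⟩
    · rcases hcT with h' | h'
      · have h2 := tor_add (tor_lam hc h') htorT
        rwa [sub_add_cancel] at h2
      · have h2 := tor_sub (tor_lam hc h') htorT
        rwa [add_sub_cancel_right] at h2
    · rw [hT]
      exact h.imp_left (Ptt_lam hcT).2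
  have hppc : pp k t * (a * b) ≠ ⊥ := mul_ne_zero Ptt_pp_ne hc
  obtain ⟨-, hrho, -⟩ := hDUn k t (pp k t * (a * b)) hppc Q hQ hQb
  have hU3 : UP Q (3 : Om) := ⟨by exact_mod_cast VP.nat 3, hQ3⟩
  refine ⟨hno, hKT', ?_, u2, u1⟩
  rw [← hT, hXp2]
  exact hrho.neg.div hU3

end Pool.Agent.DT
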