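import Pool.Agent.Lib.DT.R.Spec

/-!
# Theorem DT (`p = 3`), part D, first half (formulas in `Om`, kernel of reduction, framing): statements of the
modules with proofs (helper46)

Every statement `S_..` is proved in the file `DT/D/<name>.lean` as `theorem s<name> (hypotheses) : S_<name>`:
hypotheses exactly the statements named after (from ..), in that order. Read `DT/Defs.lean`, `DT/Iface.lean`,
`DT/IfaceO.lean`, `DT/Base.lean` first; facts on `VP`, `MP`, `UP`: `DI/Val.lean` (namespace `Pool.Agent.DI`). Models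
(PORTS of the module of the same name): `DK/D/*.lean`.

NOTATION. `Q` a nonzero prime of `ZZ` NOT above `𝔭̄` (`¬ AbPb k t Q`): so `3` is a unit at `Q`, or `Q` is above `𝔭`
(`Q` above `2` is allowed); `V`, `m` the valuation ring and its maximal ideal (`VP Q`, `MP Q`); `x z = xO b z`,
`A = aO b` (in `V`), `ρ = rhO b`, `δ = dlO b` (units); the Kummer line: `b2 = A ^ 2`, `b4 = A`, `b6 = 1`, `b8 = 0`;
`W2 b z = 4 x ^ 3 + (A x + 1) ^ 2`. `IK Q b z`: kernel of reduction. A system: `IsSys`.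
-/

set_option autoImplicit false

open scoped Pointwise nonZeroDivisors

noncomputable section

namespace Pool.Agent.DT

open Pool.Agent.MuZ Pool.Agent.FW NumberField IsDedekindDomain
open Pool.Agent.DI (io ofC io_inj exists_io io_ofC ofC_io VP MP UP TP ex)

/-- The quotient `r²(a b) / r²(b)` in `Om`. -/
def laO {k t : ℕ} (a b : Ideal (OO k t)) : Om := ofC (r2 (a * b) / r2 b)

/-! ## 1. The formulas in `Om` -/

/-- MODULE `XOm` (150 lines; from `S_L2`, `S_L6a`, `S_B1`, `S_B3`, `S_B4`, `S_B5`, `S_B6`, `S_B7`, `S_B7k`, `S_R1`, `S_R4`; PORT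
of `DK/D/XOm`): `S_XOm` of `DT/IfaceX.lean`. THE FORMULAS IN `Om`. PROOF. Apply the injective map `io` (`io_inj`; `io (xO b z) = XC b z` for
torsion points: `S_R4`, `io (kpO b) = kpC b`; `io (aO b) = AC b`, `io (rhO b) = rhC b`, `io (dlO b) = dlC b`: `S_R1`). The periodicity, the
parity and the homogeneity hold for all `z` because `xO b z = ofC (XC b z)`. The points `ptS b`, `ptT b` are torsion points (`3 * ptS b`,
`3 * ptT b ∈ Lam b`: `S_L6a`, `tor_iff`), as are the points of `Lam (ppb k t ^ 2 * b)`, `Lam (pp k t ^ 2 * b)` (`tor_lam`), multiples and sums of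
torsion points (`tor_mul`, `tor_add`). `dlO b ≠ 0`: `dlC ^ 3 = AC ^ 3 - 27 ≠ 0`. -/
abbrev M_XOm : Prop := S_XOm

/-- MODULE `DUn` (60 lines; from `S_XOm`, `S_AbQ`, `S_R1`, `S_R2`). UNITS AT `Q`. PROOF. `S_R2`; `aO b ^ 3 - 27 = dlO b ^ 3`
(`S_R1`). If `MP Q 3` then `AbP k t Q` (`S_AbQ`). Last claim: with `G = 4 x ^ 3 + (A x + 1) ^ 2`, `F = x ^ 4 - A x ^ 2 - 2 x`:
`(12 x ^ 3 - A ^ 2 x ^ 2 - 10 A x + A ^ 3 - 27) G - (48 x ^ 2 + 8 A ^ 2 x + 32 A - A ^ 4) F = A ^ 3 - 27` (`ring`), a unit. -/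
def S_DUn : Prop :=
  ∀ (k t : ℕ) [SqT k t] (b : Ideal (OO k t)), b ≠ ⊥ → ∀ Q : Ideal ZZ, Npr Q → ¬ AbPb k t Q →
    VP Q (aO b) ∧ UP Q (rhO b) ∧ UP Q (dlO b) ∧ UP Q (aO b ^ 3 - 27) ∧ (¬ MP Q 3 ∨ AbP k t Q) ∧
    ∀ x : Om, VP Q x → MP Q (4 * x ^ 3 + (aO b * x + 1) ^ 2) →
      ¬ MP Q (x ^ 4 - aO b * x ^ 2 - 2 * x)

/-! ## 2. The kernel of reduction -/

/-- MODULE `KSub` (150 lines; from `S_XOm`, `S_DUn`; PORT of `DK/D/KSub`). THE KERNEL IS CLOSED UNDER ADDITION. PROOF. As in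
`DK/D/KSub.lean` (the private lemmas `KSub_dbl`, `KSub_add` are pure algebra: copy them) with `b2 = A ^ 2`, `b4 = A`, `b6 = 1`, `b8 = 0`. -/
def S_KSub : Prop :=
  ∀ (k t : ℕ) [SqT k t] (b : Ideal (OO k t)), b ≠ ⊥ → ∀ Q : Ideal ZZ, Npr Q → ¬ AbPb k t Q →
    (∀ z z' : ℂ, IK Q b z → IK Q b z' → IK Q b (z + z')) ∧ (∀ z : ℂ, IK Q b z → IK Q b (-z)) ∧
    (∀ z ∈ Lam b, IK Q b z) ∧ ∀ (n : ℕ) (z : ℂ), IK Q b z → IK Q b (n * z)

/-- MODULE `KRed` (120 lines; from `S_XOm`, `S_DUn`; PORT of `DK/D/KRed`). TRANSLATION BY THE KERNEL DOES NOT CHANGE THE REDUCTION.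
PROOF. As in `DK/D/KRed.lean` (`KRed_alg` is pure algebra). -/
def S_KRed : Prop :=
  ∀ (k t : ℕ) [SqT k t] (b : Ideal (OO k t)), b ≠ ⊥ → ∀ Q : Ideal ZZ, Npr Q → ¬ AbPb k t Q →
    ∀ z z' : ℂ, Tor k t z → ¬ IK Q b z → IK Q b z' → MP Q (xO b (z + z') - xO b z)

/-- MODULE `KSep` (90 lines; from `S_XOm`, `S_DUn`; PORT of `DK/D/KSep`). THE REDUCTION IS INJECTIVE MODULO SIGN AND KERNEL. PROOF.
As in `DK/D/KSep.lean`: modulo `m`, with `x' = x`, `x = xO b z`, the two addition formulas give `4 x ^ 3 + (A x + 1) ^ 2 ∈ m` and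
`x ^ 4 - A x ^ 2 - 2 x ∈ m` if both `x (z ± z')` are in `V`: a contradiction to the last claim of `S_DUn`. -/
def S_KSep : Prop :=
  ∀ (k t : ℕ) [SqT k t] (b : Ideal (OO k t)), b ≠ ⊥ → ∀ Q : Ideal ZZ, Npr Q → ¬ AbPb k t Q →
    ∀ z z' : ℂ, Tor k t z → Tor k t z' → ¬ IK Q b z → ¬ IK Q b z' → MP Q (xO b z - xO b z') →
      IK Q b (z + z') ∨ IK Q b (z - z')

/-- MODULE `KTS` (80 lines; from `S_L6a`, `S_XOm`, `S_DUn`, `S_KSub`; compare `DK/D/KTST`). THE POINTS `S`, `T`. PROOF. `x S = 0 ∈ V`,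
`ptS b ∉ Lam b`: `¬ IK S`. `3 x T = - rhO (pp b)`, a unit (`S_DUn` for `pp b`), so `x T ∈ V` iff `3` is a unit (`ptT b ∉ Lam b`). `S ± T`: if
`AbP k t Q`, `T` is in the kernel, so `S ± T` is not (`S_KSub`). If `3` is a unit at `Q`: `x T` is a unit, `T`, `T ± S` are not in `Lam b`, and
(`S_XOm`, translation by `S`, `z = T`) `x (T + S) x (T - S) = - 1/x T` and `x (T + S) + x (T - S)` are in `V`, so both are in `V` (if `y ∉ V`,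
`y + y' ∈ V` then `y' ∉ V`, and `y y' ∉ V`: `VP.not_iff`); `x (S - T) = x (T - S)`. -/
def S_KTS : Prop :=
  ∀ (k t : ℕ) [SqT k t] (b : Ideal (OO k t)), b ≠ ⊥ → ∀ Q : Ideal ZZ, Npr Q → ¬ AbPb k t Q →
    Tor k t (ptT b) ∧ Tor k t (ptS b) ∧ 3 * ptT b ∈ Lam b ∧ 3 * ptS b ∈ Lam b ∧
    ¬ IK Q b (ptS b) ∧ ¬ IK Q b (ptS b + ptT b) ∧
    ¬ IK Q b (ptS b - ptT b) ∧ (¬ MP Q 3 → ¬ IK Q b (ptT b)) ∧ (AbP k t Q → IK Q b (ptT b))

/-- MODULE `KN3` (120 lines; from `S_XOm`, `S_DUn`; compare `DK/D/KN2`). THE KERNEL AND THE TWO ISOGENIES OF DEGREE THREE. PROOF.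
Let `X = x z ∉ V`, `c = X⁻¹ ∈ m` (for `z ∈ Lam b` everything is clear: `lam_mono`). (1) `z ∉ Lam (ppb b)`:
`X' ρ ^ 2 = X (1 - (A + 3) c + A c ^ 2 + c ^ 3)`, so `X'⁻¹ = c ρ ^ 2 (1 - (A + 3) c + ..)⁻¹ ∈ m` (`ρ` and the bracket are units; `X' ≠ 0`): `X' ∉ V`.
(2) `z ∉ Lam (pp b)`, `ρ' = rhO (pp b)`, `A' = aO (pp b)`: `X' (3 + ρ' c) ^ 2 = X (ρ' ^ 2 + 3 (A' + 3) c + 3 ρ' c ^ 2)`, the bracket is a unit, so
`X' ≠ 0` and `X'⁻¹ = c (3 + ρ' c) ^ 2 (..)⁻¹ ∈ m`. -/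
def S_KN3 : Prop :=
  ∀ (k t : ℕ) [SqT k t] (b : Ideal (OO k t)), b ≠ ⊥ → ∀ Q : Ideal ZZ, Npr Q → ¬ AbPb k t Q →
    ∀ z : ℂ, IK Q b z → IK Q (ppb k t * b) z ∧ IK Q (pp k t * b) z

/-- MODULE `ThT` (70 lines; from `S_O6`, `S_L2`, `S_L3`; compare `DK/D/OddT`). TORSION PRIME TO `3`. PROOF. `1 = v + 3 u`, `v ∈ a`.
(1) `z = toC v z + toC u (3 z)`. (2) `S_O6` (5). (3) Two systems have the same cardinality (map `u` to the `u' ∈ R'` with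
`u - u' ∈ Lam b`; injective by `uni`); `S_L3`. (4) `(NI a) v' ∈ a`-type: `NI a` kills `O/a` (`Nat.card` of a finite group; `card_nsmul_eq_zero`-type), so
`(NI a : OO k t) ∈ a`, `S_L2` (2). -/
def S_ThT : Prop :=
  ∀ (k t : ℕ) [SqT k t] (a b : Ideal (OO k t)), a ≠ ⊥ → b ≠ ⊥ →
    (PrI a (sN k t 3) → (∀ z ∈ Lam (a * b), 3 * z ∈ Lam b → z ∈ Lam b) ∧ (NI a).Coprime 3) ∧
    (∀ R : Finset ℂ, IsSys a b R → R.card = NI a) ∧ 0 < NI a ∧ (NI a : OO k t) ∈ a ∧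
    ∀ z ∈ Lam (a * b), (NI a : ℂ) * z ∈ Lam b

open Classical in
/-- MODULE `PrC` (140 lines; from `S_L2`, `S_L6a`, `S_L6`, `S_ThT`, `S_B1`, `S_B8`, `S_XOm`, `S_R4`, `S_R5a`; compare
`DK/D/PrC`). THE PRODUCT FORMULA AND ITS CONSTANT. PROOF. `laO a b` is algebraic (`S_R5a`), so `io (laO a b) = r2 (a b)/r2 b ≠ 0`.
`S = ptS b`, `T = ptT b`; `S`, `T`, `T ± S` are not in `Lam (a b)`: three times them is in `Lam b` (`S_L6a`), `S_ThT`. `ptS (a b) ± S ∈ Lam (a b)`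
(`S_L6`), so `XC (a b) S = 0`. `S_B8` with `v = S` (`XC b S = 0`): `∏ XC b (z + u) = C * XC (a b) z`, `C` as stated (`io`: the points of `R` and `z + u`
are torsion points). `C ^ 3`: the formula at `z = T`, `T + S`, `T - S` (torsion points, not in `Lam (a b)`; so `T + u`, `T + u ± S` are not in `Lam b` for
`u ∈ R`): by `S_XOm` (translation) the product of the three left sides is `∏ u (xO b (T + u) * xO b (T + u + S) * xO b (T + u - S)) = (-1) ^ R.card`, the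
product of the right sides is `C ^ 3 * (-1)` (`S_XOm` for `a b`, `T` with `ptS (a b) = ± S` modulo `Lam (a b)`). `R.card = NI a` (`S_ThT`). -/
def S_PrC : Prop :=
  ∀ (k t : ℕ) [SqT k t] (a b : Ideal (OO k t)), a ≠ ⊥ → b ≠ ⊥ →
    io (laO a b) = r2 (a * b) / r2 b ∧ laO a b ≠ 0 ∧
    (PrI a (sN k t 3) → ∀ R : Finset ℂ, IsSys a b R → ∃ C : Om, C ^ 3 = (-1) ^ (NI a + 1) ∧
      C = laO a b * ∏ u ∈ R, (if u ∈ Lam b then 1 else xO b u) ∧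
      ∀ z : ℂ, Tor k t z → z ∉ Lam (a * b) → ∏ u ∈ R, xO b (z + u) = C * xO (a * b) z)

/-- MODULE `KNq` (130 lines; from `S_L3`, `S_ThT`, `S_XOm`, `S_DUn`, `S_KSub`, `S_KRed`, `S_KSep`, `S_KTS`, `S_PrC`; PORT of
`DK/D/KNq`). ISOGENIES OF DEGREE PRIME TO `3`. PROOF. `C` is a unit (`C ^ 6 = 1`, `UP.of_pow`). (1) `u ∈ Lam (a b)`, `¬ IK u`: `x u ∈ V`; if it is in
`m`, then `x u - x S ∈ m` (`S = ptS b`), so `u + S` or `u - S` is in the kernel (`S_KSep`), hence `n u ± n S` is, `n = NI a` (`S_KSub`), `n u ∈ Lam b` (`S_ThT`), so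
`n S` is in the kernel; `3 S ∈ Lam b` and `n` is prime to `3`, so `S` is in the kernel (`1 = n i + 3 j`), a contradiction (`S_KTS`).
(2) Let `z` be in the kernel (of `b`), `z ∉ Lam (a b)` (otherwise clear), `R` a system, and suppose `xO (a b) z ∈ V`; so the product of the
`x (z + u)` is in `V`. If `IK u` then `IK (z + u)`, `z + u ∉ Lam b`, so `x (z + u) ∉ V`, its inverse is in `m`; if `¬ IK u` then `x (z + u)` is
congruent to `x u` (`S_KRed`), a unit. The inverse of the product is a product of elements of `V`, one of them in `m` (the `u ∈ R ∩ Lam b`):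
so `1 ∈ m`. -/
def S_KNq : Prop :=
  ∀ (k t : ℕ) [SqT k t] (a b : Ideal (OO k t)), a ≠ ⊥ → b ≠ ⊥ → PrI a (sN k t 3) →
    ∀ Q : Ideal ZZ, Npr Q → ¬ AbPb k t Q →
    (∀ u ∈ Lam (a * b), ¬ IK Q b u → UP Q (xO b u)) ∧ ∀ z : ℂ, IK Q b z → IK Q (a * b) z

/-- MODULE `KNa` (100 lines; from `S_O4`, `S_O6`, `S_XOm`, `S_KN3`, `S_KNq`; PORT of `DK/D/KNa`). ALL ISOGENIES; THE KERNEL IS AN
`O`-MODULE. PROOF. Induction on `NI a` (or on the factorization): if `PrI a (sN 3)` use `S_KNq`; otherwise `a ≤ pp` or `a ≤ ppb` (a maximal ideal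
containing `a` and `3 ∈ pp * ppb` is `pp` or `ppb`), `a = p * a'`, `IK Q b z → IK Q (a' b) z → IK Q (p (a' b)) z`. Second claim: `v = 0` is
clear; for `v ≠ 0`, `IK Q (sp v * b) z` and `z ∈ Lam (sp v * b) ↔ toC v * z ∈ Lam b` (`lam_sp`), `xO (sp v * b) z = xO b (toC v * z)`. -/
def S_KNa : Prop :=
  ∀ (k t : ℕ) [SqT k t] (b : Ideal (OO k t)), b ≠ ⊥ → ∀ Q : Ideal ZZ, Npr Q → ¬ AbPb k t Q →
    (∀ (a : Ideal (OO k t)) (z : ℂ), a ≠ ⊥ → IK Q b z → IK Q (a * b) z) ∧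
    ∀ (v : OO k t) (z : ℂ), IK Q b z → IK Q b (toC v * z)

/-- MODULE `LaU` (130 lines; from `S_O5`, `S_L3`, `S_B7`, `S_AbQ`, `S_PrC`, `S_KNq`; PORT of `DK/D/LaU`). THE NUMBERS `laO a b`.
PROOF. `C` (from `S_PrC`) is a unit. `laO a b = C * ∏ (if u ∈ Lam b then 1 else (x u)⁻¹)` (the `x u` are not `0`: `laO a b ≠ 0`, `C ≠ 0`); for
`u ∉ Lam b`: if `IK u` then `x u ∉ V`, `(x u)⁻¹ ∈ m`; if `¬ IK u` then `x u` is a unit (`S_KNq`). So (1), and (3). (2) `a ^ h = sp λ` (`S_O5`),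
`∏ (i < h) laO a (a ^ i * b) = r2 (a ^ h b)/r2 b = toO λ ^ 2` (`io`, telescoping product, `S_B7`). If `Abv Q a` fails, `toO λ` is a unit (`S_AbQ`:
`Abv Q (a ^ h)` fails) and all factors are in `V`, so all are units. -/
def S_LaU : Prop :=
  ∀ (k t : ℕ) [SqT k t] (a : Ideal (OO k t)), a ≠ ⊥ → PrI a (sN k t 3) →
    ∀ Q : Ideal ZZ, Npr Q → ¬ AbPb k t Q →
    (∀ b : Ideal (OO k t), b ≠ ⊥ → VP Q (laO a b)) ∧
    (¬ Abv Q a → ∀ b : Ideal (OO k t), b ≠ ⊥ → UP Q (laO a b)) ∧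
    (∀ b : Ideal (OO k t), b ≠ ⊥ →
      ((∃ u ∈ Lam (a * b), u ∉ Lam b ∧ IK Q b u) → MP Q (laO a b)) ∧
      ((∀ u ∈ Lam (a * b), u ∉ Lam b → ¬ IK Q b u) → UP Q (laO a b))) ∧
    ∀ b : Ideal (OO k t), b ≠ ⊥ → ∃ (h : ℕ) (la : OO k t), 0 < h ∧ a ^ h = sp la ∧ la ≠ 0 ∧
      ∏ i ∈ Finset.range h, laO a (a ^ i * b) = toO la ^ 2

/-- MODULE `KQp` (130 lines; from `S_O4`, `S_L3`, `S_L4`, `S_L6a`, `S_AbQ`, `S_KNa`, `S_KSub`, `S_KTS`, `S_LaU`; PORT of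
`DK/D/KQp`). THE KERNEL HAS ONLY `Q`-PRIMARY TORSION. PROOF. Let `IK z`, `¬ MP Q (toO α)`, `toC (α β) z ∈ Lam b`, `z' = toC β z`: `IK z'`
(`S_KNa`), `toC α z' ∈ Lam b`; suppose `z' ∉ Lam b`. Let `c` be the annihilator of `z'` (`S_L4`): `α ∈ c`, `c ≠ ⊤`, `c ≤ l`, `l` maximal, `c = l c'`;
`¬ Abv Q l` (`α ∈ l`). There is `v ∈ c'`, `v ∉ c` (`c' ≠ c` as `l ≠ ⊤`); `z'' = toC v z'` is in the kernel, not in `Lam b`, and in `Lam (l b)`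
(`v l ≤ c`). (1) `PrI l (sN 3)`: `S_LaU`: `laO l b ∈ m` (third claim) and it is a unit (second), a contradiction. (2) otherwise `3 ∈ l` (`l` maximal), so
`l = pp` or `l = ppb` (`S_O4`). `l = ppb`: `z'' - ptS b` or `z'' + ptS b` is in `Lam b` (`S_L6a`), so `IK (ptS b)`, against `S_KTS`. `l = pp`: `z''` is
congruent to `± ptT b`, `¬ Abv Q pp`, so `¬ AbP k t Q`, `¬ MP Q 3` and `¬ IK (ptT b)`. -/
def S_KQp : Prop :=
  ∀ (k t : ℕ) [SqT k t] (b : Ideal (OO k t)), b ≠ ⊥ → ∀ Q : Ideal ZZ, Npr Q → ¬ AbPb k t Q →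
    ∀ z : ℂ, IK Q b z → Qp Q b z

/-- MODULE `D1` (20 lines; from `S_KSub`, `S_KRed`, `S_KSep`, `S_KNa`, `S_KQp`): `S_D1`. -/
abbrev M_D1 : Prop := S_D1

/-- MODULE `D2` (150 lines; from `S_O6`, `S_L6a`, `S_R5`, `S_AbQ`, `S_ThT`, `S_XOm`, `S_DUn`, `S_KTS`, `S_KNq`, `S_D1`; compare
`DK/D/D2`): `S_D2`. PROOF. `AbP k t P` gives `¬ AbPb k t P` (`S_AbQ`), `MP P 3`. First four claims: `S_KTS`. (5) `¬ IK z`: `X = x z ∈ V`,
`z ∉ Lam b`; `z ∉ Lam (pp b)` (otherwise `z ± ptT b ∈ Lam b`, `S_L6a`, and `IK`). With `ρ' = rhO (pp b)` (a unit), `A' = aO (pp b)`: `3 X + ρ'` is a unit,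
`X' (3 X + ρ') ^ 2 = X (ρ' ^ 2 X ^ 2 + 3 (A' + 3) X + 3 ρ')`: `X' ∈ V`, and `ρ' ^ 2 (X' - X ^ 3) = 3 (element of V)`: `TP P 3`. (6) `z ∉ Lam b`: `S_R5` with
`m = ⊤`, `b' = b`: `vO b z ^ 2 = 4 X ^ 3 + (A X + 1) ^ 2 ∈ V`, `VP.of_pow`. (7) kernel implies `Qp` (`S_D1`). (8) `z`, `z ± ptS b` are not in `Lam b` (they are not
in the kernel), `x z x (z + S) x (z - S) = - 1` with all factors in `V`. (9) `¬ IK u`: otherwise `Qp P b u`; `n = NI a`: `n u ∈ Lam b` (`S_ThT`), `n` is prime to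
`3`, so `¬ MP P (toO n)`, and `Qp` with `α = n`, `β = 1` gives `u ∈ Lam b`. Then `S_KNq` (1). -/
abbrev M_D2 : Prop := S_D2

/-! ## 5. The framing and `g` at the primes above `𝔭` -/

/-- MODULE `D9` (150 lines; from `S_O4`, `S_O6`, `S_L2`, `S_L3`, `S_L6a`, `S_B12`, `S_B14`, `S_R1`, `S_R2`, `S_R4`, `S_R5`, `S_AbQ`,
`S_ThT`, `S_XOm`, `S_DUn`, `S_KSep`, `S_D1`, `S_D2`): `S_D9`. PROOF. (i) `PrI a (sN 3)` gives `PrI a (ppb)`, `PrI (a b) (ppb)` (`S_O6`, `S_O4`). `R` a system (`S_L3`). The last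
claim of `S_B12` in `Om`: `rO b (a b) * aO b = NI a * aO b + 3 ∑ u ∈ R, (if u ∈ Lam b then 0 else (xO b u)⁻¹)` (`io`; `fr b ≠ 0`: `S_R5` with `m = ⊤`);
`aO b` and the `xO b u` are units at `P` (`S_R2`, `S_D2` (9)): `rO b (a b) - NI a ∈ 3 V`. (iii) The same formula for `a = pp` (prime to `ppb`), with the system
`{0, T, -T}`, `T = ptT b` (`S_L6a`), `xO b T = - ρ'/3`, `ρ' = rhO (pp b)`, `A' = aO (pp b)`: `A r = 3 A + 3 * 2 * (-3/ρ')`, `r = rO b (pp b)`; times `ρ'`, with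
`A ρ' = A' + 6`: `(A' + 6) r = 3 (A' + 6) - 18 = 3 A'`. (ii) `rO (pp b) b = 1/r` (`fr ≠ 0`), so `3 rO (pp b) b = (A' + 6)/A' = 1 + 3 (2/A')`, `A'` a unit.
(iv) `S_R5`: `gO m b z = ∑ u ∈ hs m b, vO b z * (aO b * (xO b z - xO b u))⁻¹` (`z ∉ Lam (m b)`: otherwise `z + u ∈ Lam b` is `P`-primary for
`u = -z`). `¬ IK z` (`u = 0`), `vO b z ∈ V` (`S_D2` (6)); for `u ∈ hs m b` (`S_B14`, `S_D2` (9), `S_O6`: `m` is prime to `3`): `xO b u ∈ V`, `¬ IK u`, `¬ IK (z ± u)`, so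
`xO b z - xO b u ∈ V` is not in `m` (`S_KSep`): a unit. -/
abbrev M_D9 : Prop := S_D9

end Pool.Agent.DT
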