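import Pool.Agent.Lib.DT.D.SpecA

/-!
# Theorem DT (`p = 3`), part D, Kronecker's congruence and the distribution of `Theta`: statements of the
modules with proofs (author helper58)

Every statement `S_..` is proved in the file `DT/D/<name>.lean` as `theorem s<name> (hypotheses) : S_<name>`:
hypotheses exactly the statements named after (from ..), in that order. Read `DT/Defs.lean`, `DT/Iface.lean`,
`DT/IfaceO.lean`, `DT/IfaceX.lean`, `DT/Base.lean`, `DT/D/SpecA.lean` (`laO`, `S_ThT`, `S_PrC`, `S_KNq`, `S_LaU`, `S_KTS`)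
first; facts on `VP`, `MP`, `UP`: `DI/Val.lean` (namespace `Pool.Agent.DI`; `Npr Q` gives the instance `Q.IsPrime`).
Most modules are PORTS of the module of the same name in `Pool/Agent/Lib/DK/D/` (copy it; `OO k` becomes `OO k t`,
`[SqK k]` becomes `[SqT k t]`, `Tor k` becomes `Tor k t`, `PrI a 2` becomes `PrI a (sN k t 3)`; the letter `t` is taken:
the variable of `TP Q t` is called `s` here).
-/

set_option autoImplicit false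

open scoped Pointwise nonZeroDivisors

noncomputable section

namespace Pool.Agent.DT

open Pool.Agent.MuZ Pool.Agent.FW NumberField IsDedekindDomain
open Pool.Agent.DI (io ofC io_inj exists_io io_ofC ofC_io VP MP UP TP ex)

/-! ## Kronecker's congruence -/

/-- MODULE `Fer` (120 lines; from `S_AbQ`; PORT of `DK/D/Fer`). FERMAT. PROOF. As `DK/D/Fer.lean`. New: `¬ MP Q 3`
(`l ≠ 3`: `3` is a unit by the last claim of `S_AbQ`), so neither `AbPb k t Q` nor `AbP k t Q` (both contain `MP Q 3`);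
`PrI q (sN k t N)` for `N` prime to `l`: `l ∈ q` (`NI q = l`, as in `DK/D/Fer`), `x l + y N = 1`. -/
def S_Fer : Prop :=
  ∀ (k t : ℕ) [SqT k t] (q : Ideal (OO k t)) (l : ℕ), Deg1 q l → l ≠ 2 → l ≠ 3 → ∀ Q : Ideal ZZ,
    Npr Q → Abv Q q →
    (∀ n m : ℤ, ¬ MP Q (m : Om) → MP Q (((n : Om) / m) ^ l - (n : Om) / m)) ∧
    (∀ x y : Om, VP Q x → VP Q y → MP Q ((x + y) ^ l - (x ^ l + y ^ l)) ∧
      MP Q ((x - y) ^ l - (x ^ l - y ^ l)) ∧ (MP Q (x - y) → MP Q (x ^ l - y ^ l))) ∧ ¬ MP Q 2 ∧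
    ¬ MP Q 3 ∧ ¬ AbPb k t Q ∧ ¬ AbP k t Q ∧ ∀ N : ℕ, N.Coprime l → PrI q (sN k t N)

/-- MODULE `D3a` (130 lines; from `S_L3`, `S_D1`, `S_PrC`, `S_KNq`, `S_LaU`, `S_Fer`; PORT of `DK/D/D3a`). THE `q`-TORSION IS
IN THE KERNEL. PROOF. As `DK/D/D3a.lean` (`PrI q (sN k t 3)`: last claim of `S_Fer`, `l ≠ 3`; the constant `C` of `S_PrC` is
`laO q b * ∏ ..`, and `C ≠ 0`, as it is a unit: `C ^ 3 = (-1) ^ n`, `UP.of_pow`). -/
def S_D3a : Prop :=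
  ∀ (k t : ℕ) [SqT k t] (q : Ideal (OO k t)) (l : ℕ), Deg1 q l → l ≠ 2 → l ≠ 3 → ∀ Q : Ideal ZZ,
    Npr Q → Abv Q q → ∀ b : Ideal (OO k t), b ≠ ⊥ → (∀ u ∈ Lam (q * b), IK Q b u) ∧ MP Q (laO q b)

/-- MODULE `Ptt` (170 lines; from `S_L6a`, `S_L6`, `S_ThT`, `S_XOm`, `S_DUn`, `S_KTS`, `S_D1`). THE POINTS `T = ptT b` AND `τ = ptt b` ON THE
CURVE OF `c = a b`, `a` PRIME TO `3` (also `a = ⊤`). PROOF. (1) `9 ∣ j` gives `j τ ∈ Lam b` (`S_L6a`) `≤ Lam c` (`lam_mono`). If `j τ ∈ Lam c`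
then `n j τ ∈ Lam b`, `n = NI a` (`S_ThT`, last claim), so `9 ∣ n j` (`S_L6a`) and `9 ∣ j` (`n` is prime to `3`: `S_ThT`). (2) `τ ∈ Lam (ppb ^ 2 * c)`:
`S_L6a` and `lam_mono` (`ppb ^ 2 * (a * b) = a * (ppb ^ 2 * b)`); `τ ∉ Lam (ppb * c)`: otherwise `3 τ ∈ Lam c` (`3 ∈ ppb`, `lam_prod`, `toC_three`), against (1). So
`S_XOm` for `c` (points of order `ppb ^ 2`) at `τ` gives the two relations. (3) `ptS b = 3 τ` (definition), and `ptS c - ptS b` or `ptS c + ptS b` is in `Lam c`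
(`S_L6` (3)). `S_XOm` for `c` (translation by `ptS c`) at `z = τ`: `τ`, `τ ± ptS c` are not in `Lam c` ((1): `τ ± 3 τ = 4 τ, -2 τ`), and
`{xO c (τ + ptS c), xO c (τ - ptS c)} = {xO c (4 τ), xO c (2 τ)}` (periodicity, parity). (4) `ptT c - T` or `ptT c + T` is in `Lam c` (`S_L6` (3)):
`xO c T = xO c (ptT c)`; `Tor`: `S_KTS`, `tor_lam`. (5) `S_XOm` for `c`, `ρ' = rhO (pp * c)`, `a' = aO (pp * c)`: `aO c ρ' = a' + 6`, `xO c (ptT c) = - ρ'/3`,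
`dlO c ρ' = a' - 3`: both sides of the relation are `-(a' - 3)/3`. (6) Let `¬ MP Q 3`, so `¬ AbPb k t Q`. If `IK Q c (j τ)` then `Qp Q c (j τ)` (`S_D1`); `α = 9`,
`β = 1` (`toO 9 = 9`, not in `m`): `9 j τ ∈ Lam c`, so `j τ ∈ Lam c`, against (1). `VP`: definition of `IK` (`j τ` is a torsion point). `T`: `¬ IK Q c (ptT c)` (`S_KTS`), and
`IK Q c T` would give `IK Q c (± ptT c)` (the difference is in `Lam c`; `IK` depends only on the class: `xO` is periodic and even). `3 xO c T = - ρ'` is a unit (`S_DUn` for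
`pp * c`) and `3` is a unit. (7) `x = xO c τ`: `x₄ (1 - x) = 1`, `x₂ x = x - 1`, all in `V`: `1 - x` is a unit, `x (x₂ (x - 1)⁻¹) = 1` (`UP.iff`). -/
def S_Ptt : Prop :=
  ∀ (k t : ℕ) [SqT k t] (a b : Ideal (OO k t)), a ≠ ⊥ → b ≠ ⊥ → PrI a (sN k t 3) →
    (∀ j : ℤ, (j : ℂ) * ptt b ∈ Lam (a * b) ↔ (9 : ℤ) ∣ j) ∧
    xO (a * b) (4 * ptt b) * (1 - xO (a * b) (ptt b)) = 1 ∧
    xO (a * b) (2 * ptt b) * xO (a * b) (ptt b) = xO (a * b) (ptt b) - 1 ∧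
    (xO (a * b) (4 * ptt b) + xO (a * b) (2 * ptt b)) * xO (a * b) (ptt b) ^ 2 =
      aO (a * b) * xO (a * b) (ptt b) + 1 ∧
    xO (a * b) (ptT b) = xO (a * b) (ptT (a * b)) ∧ Tor k t (ptT b) ∧ Tor k t (ptt b) ∧
    dlO (a * b) * xO (a * b) (ptT b) = aO (a * b) * xO (a * b) (ptT b) + 3 ∧
    ∀ Q : Ideal ZZ, Npr Q → ¬ MP Q 3 →
      (∀ j : ℤ, ¬ (9 : ℤ) ∣ j → ¬ IK Q (a * b) (j * ptt b) ∧ VP Q (xO (a * b) (j * ptt b))) ∧
      ¬ IK Q (a * b) (ptT b) ∧ UP Q (xO (a * b) (ptT b)) ∧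
      UP Q (xO (a * b) (ptt b)) ∧ UP Q (1 - xO (a * b) (ptt b))

/-- MODULE `D3b` (80 lines; no hypotheses). THE CONSTANT OF THE PRODUCT FORMULA, ALGEBRA. PROOF. `C` is a unit (`UP.of_pow`); everything
modulo `m`. Multiply `C y2 ≡ x2 ^ l` by `x ^ l` (in `V`): `C y2 x ^ l ≡ (x2 x) ^ l = (x - 1) ^ l ≡ x ^ l - 1`; replace `x ^ l` by `C y` (first congruence):
`C ^ 2 y2 y ≡ C y - 1`, `y2 y = y - 1`, so `(C - 1) (C y - C - 1) = C ^ 2 (y - 1) - (C y - 1) ∈ m`. `MP.mul_cases`: `C - 1 ∈ m` (done) or `C y - C - 1 ∈ m`. In the second case let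
`C ≠ 1` (else done): `C ^ 2 + C + 1 = 0` (from `C ^ 3 = 1`), so `C y ≡ C + 1 = - C ^ 2`; times `C ^ 2`: `y ≡ - C ^ 4 = - C`. `y4 (1 - y) = 1` and `1 - y ≡ 1 + C = - C ^ 2`:
`- y4 C ^ 2 ≡ 1`, times `- C`: `y4 ≡ - C ≡ y`. -/
def S_D3b : Prop :=
  ∀ (Q : Ideal ZZ) (l : ℕ) (C x x2 y y2 y4 : Om), Q.IsPrime → C ^ 3 = 1 → VP Q x → VP Q x2 →
    VP Q y → VP Q y2 → VP Q y4 → x2 * x = x - 1 → y2 * y = y - 1 → y4 * (1 - y) = 1 →
    MP Q (C * y - x ^ l) → MP Q (C * y2 - x2 ^ l) → MP Q ((x - 1) ^ l - (x ^ l - 1)) →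
    MP Q (C - 1) ∨ MP Q (y4 - y)

/-- MODULE `D3` (180 lines; from `S_L3`, `S_ThT`, `S_D1`, `S_PrC`, `S_Fer`, `S_D3a`, `S_Ptt`, `S_D3b`; compare `DK/D/D3`): `S_D3`. PROOF. As `DK/D/D3` up to (*): `R` a system for
`q` over `b` (`R.card = NI q = l`), `C` the constant (`S_PrC`; `PrI q (sN k t 3)`: `S_Fer`); for `Tor z`, `¬ IK Q b z`: `z ∉ Lam (q b)`, `C xO (q b) z ∈ V`, `C xO (q b) z - (xO b z) ^ l ∈ m`.
`l` is odd, so `C ^ 3 = (-1) ^ (l + 1) = 1`, `C` is a unit, and `xO (q b) z ∈ V`. THE CONSTANT. `τ = ptt b`, `S_Ptt` for `a = ⊤` (`⊤ * b = b`) and for `a = q`; `¬ MP Q 3`. (*) holds at `τ`, `2 τ`, `4 τ`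
(not in the kernel of `b`). `S_D3b` with `x = xO b τ`, `x2 = xO b (2 τ)`, `y = xO (q b) τ`, `y2`, `y4` at `2 τ`, `4 τ`, the last congruence from `S_Fer` (2): `C - 1 ∈ m`, or
`xO (q b) (4 τ) - xO (q b) τ ∈ m`; then `S_D1` (last claim) for `q b` gives `IK Q (q b) (5 τ)` or `IK Q (q b) (3 τ)`, against `S_Ptt` for `a = q`. So `C - 1 ∈ m` and (**): `xO (q b) z - (xO b z) ^ l ∈ m`
for all `¬ IK Q b z` (`C xO - xO = (C - 1) xO`). This is the last claim (not in the kernel: `z ∉ Lam (q b)`, `xO (q b) z ∈ V`). `aO`: `A = aO b`, `A' = aO (q b)`; `A' y = (y4 + y2) y ^ 2 - 1` and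
`A x = (x4 + x2) x ^ 2 - 1` (`S_Ptt`). By `S_Fer` (2): `A ^ l x ^ l = (A x) ^ l ≡ ((x4 + x2) x ^ 2) ^ l - 1 ≡ (x4 ^ l + x2 ^ l) (x ^ l) ^ 2 - 1 ≡ (y4 + y2) y ^ 2 - 1 = A' y ≡ A' x ^ l` (**), and `x` is a unit.
(`VP Q A`: `A x ∈ V` and `x` is a unit.) `dlO`: `D = dlO b`, `D' = dlO (q b)`, `X = xO b (ptT b)`, `X' = xO (q b) (ptT b) ≡ X ^ l` (**), both units: `D X = A X + 3`, `D' X' = A' X' + 3` (`S_Ptt`), so
`D ^ l X ^ l ≡ A ^ l X ^ l + 3 ^ l ≡ A' X' + 3 = D' X' ≡ D' X ^ l` (`3 ^ l ≡ 3`: `S_Fer` (1) for `3/1`), and `X` is a unit. -/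
abbrev M_D3 : Prop := S_D3

/-! ## The filtration of the kernel; the points of order `q` -/

/-- MODULE `Ref` (150 lines; from `S_XOm`, `S_DUn`; PORT of `DK/D/Ref`). THE FILTRATION OF THE KERNEL, ADDITION ONLY. PROOF. As
`DK/D/Ref.lean` (the private lemmas `Ref_aux`, `Ref_dbl`, `Ref_add` are pure algebra, copy them), with `b2 = (aO b) ^ 2`, `b4 = aO b`,
`b6 = 1`, `b8 = 0`. -/
def S_Ref : Prop :=
  ∀ (k t : ℕ) [SqT k t] (b : Ideal (OO k t)), b ≠ ⊥ → ∀ Q : Ideal ZZ, Npr Q → ¬ AbPb k t Q → ∀ s : Om,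
    MP Q s → ∀ z z' : ℂ, (Tor k t z ∧ (z ∈ Lam b ∨ (xO b z ≠ 0 ∧ TP Q s (xO b z)⁻¹))) →
      (Tor k t z' ∧ (z' ∈ Lam b ∨ (xO b z' ≠ 0 ∧ TP Q s (xO b z')⁻¹))) →
      Tor k t (z + z') ∧ (z + z' ∈ Lam b ∨ (xO b (z + z') ≠ 0 ∧ TP Q s (xO b (z + z'))⁻¹))

/-- MODULE `D4` (170 lines; from `S_L3`, `S_B1`, `S_B7`, `S_PrC`, `S_Fer`, `S_D3a`, `S_Ref`; PORT of `DK/D/D4`): `S_D4`. PROOF. As `DK/D/D4.lean`:
`laO (sp la) b = toO la ^ 2` (`S_B7`: `r2 (sp α * b) = toC α ^ 2 * r2 b`, `r2 b ≠ 0`: `S_B1`); the constant `C` has `C ^ 3 = (-1) ^ (l + 1)`, so it is a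
unit (`UP.of_pow`; `(-1) ^ n` is a unit). -/
abbrev M_D4 : Prop := S_D4

/-! ## The distribution of `Theta` -/

/-- MODULE `Dis` (170 lines; from `S_O6`, `S_L3`, `S_B14`, `S_B16`, `S_R4`, `S_D8`; PORT of `DK/D/Dis`). DISTRIBUTION UP TO A CONSTANT. PROOF. As `DK/D/Dis.lean` with
`Theta m b z = ∏ u ∈ hs m b, dlO b * xO b u ^ 2 * ((xO b z - xO b u) ^ 2)⁻¹` instead of `th0` (squares instead of cubes, `dlO b * xO b u ^ 2` instead of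
`W2 b u`). `PrI m (sN k t 6)` gives `PrI m (sN k t 2)` (`S_O6` (4): `sN 6 ≤ sN 2`). The point `z₀` (`Dis_pt`): `1/(2 n)`, `n ∈ c` a positive integer
(`exists_nat`): `n z₀ = 1/2` is not in `O`. -/
def S_Dis : Prop :=
  ∀ (k t : ℕ) [SqT k t] (l m b : Ideal (OO k t)), l ≠ ⊥ → m ≠ ⊥ → b ≠ ⊥ → PrI m (sN k t 6) →
    l ⊔ m = ⊤ → ∃ C : Om, C ≠ 0 ∧ ∀ R : Finset ℂ, IsSys l b R → ∀ z : ℂ, Tor k t z →
      z ∉ Lam (l * m * b) → ∏ v ∈ R, Theta m b (z + v) = C * Theta m (l * b) z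

/-- MODULE `D7` (150 lines; from `S_O6`, `S_L3`, `S_L6a`, `S_ThT`, `S_Fer`, `S_D3`, `S_D5`, `S_D6`, `S_Dis`): `S_D7`. PROOF. `C` from `S_Dis`. Let `Deg1 l p`, `p ≠ 2, 3`, `Npr Q`, `Abv Q l`;
`¬ MP Q 3` (`S_Fer`). `¬ Abv Q m`: otherwise `1 = v + v'` (`v ∈ l`, `v' ∈ m`, from `l ⊔ m = ⊤`) would be in the maximal ideal (`toO_add`, `toO_one`, `MP.one_not`). Let
`z = ptT b`: `3 z ∈ Lam b`, `z ∉ Lam b` (`S_L6a`), a torsion point. `PrI m (sN 3)` (`S_O6` (4), `sN 6 ≤ sN 3`), `PrI l (sN 3)` (`S_Fer`). (1) `¬ Qp Q b (z + u)` for `u ∈ Lam (m b)`: `N = NI m` is prime to `3` and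
`N u ∈ Lam b` (`S_ThT`); with `α = 3`, `β = N` (natural numbers in `O`, `toC_nat`): `3 N (z + u) ∈ Lam b`; `N (z + u) ∈ Lam b` would give `N z ∈ Lam b`, and with `x N + 3 y = 1`: `z ∈ Lam b`. (2) `z ∉ Lam (l m b)`:
`PrI (l m) (sN 3)` (`S_O6` (1)) and `S_ThT` (1) (`3 z ∈ Lam b`). (3) `Θ = Theta m b z` is a unit at `Q` (`S_D5` and (1)). (4) Let `R` be a system for `l` over `b` (`S_L3`), `R.card = NI l = p`. For `v ∈ R`: `IK Q b v`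
(`S_D3`, first claim), so `Theta m b (z + v) - Θ ∈ m` (`S_D6` (1)); the product over `R`: `∏ Theta m b (z + v) - Θ ^ p ∈ m` (the lemma `D3_prod` of `DK/D/D3.lean`, copy it). (5) `S_D6` (2) with
`q = l`: `Theta m (l b) z - Θ ^ p ∈ m`. So `C * Theta m (l b) z - Θ ^ p ∈ m`, `Theta m (l b) z` is a unit (`UP.congr` with `Θ ^ p`), and
`(C - 1) * Theta m (l b) z ∈ m`: `C - 1 ∈ m` (multiply by the inverse of the unit). -/
abbrev M_D7 : Prop := S_D7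

end Pool.Agent.DT
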