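import Pool.Agent.Lib.DT.IfaceX

/-!
# Theorem DT (`p = 3`), part D, theta units: statements (author helper73)

The modules `HsP`, `QpC` (from `S_O3`, `S_L2`; statements in `DT/IfaceX.lean`), `D8`, `D5`, `D6` (statements in
`DT/Iface.lean`), `ThU`, `ThC` (below): all proved; assembly `DT/D/AllM.lean`. `m` prime to `3` (or `6`), `Theta m b z = ∏ δ X(u)² / (X(z) - X(u))²`.
-/

set_option autoImplicit false

open scoped Pointwise nonZeroDivisors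

noncomputable section

namespace Pool.Agent.DT

open Pool.Agent.MuZ Pool.Agent.FW NumberField IsDedekindDomain
open Pool.Agent.DI (io ofC io_inj exists_io io_ofC ofC_io VP MP UP TP ex)

/-- MODULE `ThU` (from `S_L6a`, `S_XOm`, `S_D1`). THE FACTORS ARE UNITS, `Q` NOT ABOVE `𝔭̄`. PROOF. `¬ Qp (z + u)` for all
`u ∈ Lam (m b)`, so (`S_D1`) `¬ IK z`, `¬ IK (z ± u)`; `X(z) ∈ V`. `IK u` implies `Qp u`, so `u ∈ Lam b` if some `α ∈ m` has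
`¬ MP Q (toO α)`. `IK u`: `X(u)⁻¹ ∈ m`, the quotient is `(X(z) X(u)⁻¹ - 1)⁻²`. `¬ IK u`: if `X(u) = X(u) - X(S)` is in the maximal
ideal then `u + S` or `u - S` is in the kernel, so `3 u` is, so `u` is (`1 = v + 3 w`, `v ∈ m`); `X(z) - X(u)` is a unit by `S_D1`
(`¬ IK (z ± u)`). -/
def S_ThU : Prop :=
  ∀ (k t : ℕ) [SqT k t] (m b : Ideal (OO k t)), m ≠ ⊥ → b ≠ ⊥ → PrI m (sN k t 3) →
    ∀ Q : Ideal ZZ, Npr Q → ¬ AbPb k t Q →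
    (¬ Abv Q m → ∀ u ∈ Lam (m * b), u ∉ Lam b → ¬ IK Q b u) ∧
    (∀ u ∈ Lam (m * b), u ∉ Lam b → ¬ IK Q b u → UP Q (xO b u)) ∧
    ∀ z : ℂ, Tor k t z → (∀ u ∈ Lam (m * b), ¬ Qp Q b (z + u)) → ¬ IK Q b z ∧ VP Q (xO b z) ∧
      z ∉ Lam (m * b) ∧
      ∀ u ∈ Lam (m * b), u ∉ Lam b → UP Q (xO b u ^ 2 * ((xO b z - xO b u) ^ 2)⁻¹) ∧
        (¬ IK Q b u → UP Q (xO b z - xO b u))

/-- MODULE `ThC` (from `S_O3`, `S_B7`, `S_R1`, `S_R4`, `S_XOm`). THE CONJUGATES OF THE FACTORS OF THETA. `b' = cjI b`,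
`κ = kpO b'`, `T' = ptT b'`. PROOF. `c` is the `c` of `S_R4`; `io` of the first relation is the third relation
of `S_B7` for `b'`, `io` of the second one is the last one of `S_B7`. The last claim: `c (xO b u) κ = xO b' ū - xO b' T'`. -/
def S_ThC : Prop :=
  ∀ (k t : ℕ) [SqT k t] (c : Gal(Om/ℚ)), (∀ x : Om, io (c x) = (starRingEnd ℂ) (io x)) →
    ∀ b : Ideal (OO k t), b ≠ ⊥ →
    (3 * kpO (cjI b)) ^ 3 = -(dlO (cjI b) * rhO (pp k t * cjI b)) ^ 2 ∧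
    c (dlO b) ^ 3 * kpO (cjI b) ^ 6 = dlO (cjI b) ^ 3 ∧ kpO (cjI b) ≠ 0 ∧
    3 * xO (cjI b) (ptT (cjI b)) = -rhO (pp k t * cjI b) ∧
    ∀ z u : ℂ, Tor k t z → Tor k t u →
      c (xO b u ^ 2 * ((xO b z - xO b u) ^ 2)⁻¹) =
        (xO (cjI b) ((starRingEnd ℂ) u) - xO (cjI b) (ptT (cjI b))) ^ 2 *
          ((xO (cjI b) ((starRingEnd ℂ) z) - xO (cjI b) ((starRingEnd ℂ) u)) ^ 2)⁻¹

/-- MODULE `D8` (from `S_L6a`, `S_B14`, `S_XOm`, `S_HsP`): `S_D8`. PROOF. `S_HsP` (1) for the function `F u = δ X(u)² / (X(z) - X(u))²`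
(even and periodic: `S_XOm`); homogeneity: `S_HsP` (2), `Finset.prod_image`. Not `0`: `X(u) ≠ 0 = X(S)` because `u ± S ∈ Lam b`
implies `3 u ∈ Lam b`, `u ∈ Lam b`. -/
abbrev M_D8 : Prop := S_D8

/-- MODULE `D5` (from `S_O3`, `S_L2`, `S_O4`, `S_B14`, `S_R2`, `S_R4`, `S_AbQ`, `S_ThU`, `S_QpC`, `S_ThC`): `S_D5`. PROOF. `Q` not above `𝔭̄`: `δ` is a unit
(`S_R2`), `S_ThU`. `Q` above `𝔭̄`: `P = c • Q` is above `𝔭`, `c (Theta m b z)` is the product of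
`c(δ) (X'(ū) - X'(T')) ^ 2 (X'(z̄) - X'(ū)) ^ (-2)` (`S_ThC`). At `P`: `3 κ` is a unit, so `(c(δ)/9) ^ 3 = (δ'/(9 κ²)) ^ 3` is a unit;
`3 (X'(ū) - X'(T')) = 3 X'(ū) + rhO (𝔭 b')` is a unit (`X'(ū) ∈ V`; `¬ IK P b' ū` because `m` is prime to `3`), and `X'(z̄) - X'(ū)` is a
unit (`S_ThU`). -/
abbrev M_D5 : Prop := S_D5

/-- MODULE `D6` (from `S_B14`, `S_R2`, `S_AbQ`, `S_D1`, `S_D3`, `S_HsP`, `S_D8`, `S_ThU`): `S_D6`. PROOF. As `DK/D/D6.lean`: the points of `hs m b` are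
not in the kernel; all numbers are in `V`, the differences are units. `xO (q b) u ≡ (xO b u) ^ l`, `dlO (q b) ≡ (dlO b) ^ l`
(`S_D3`), the binomial formula modulo `l`. -/
abbrev M_D6 : Prop := S_D6

end Pool.Agent.DT
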